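import Pool.Agent.H87.JZ.Time

/-!
# JZ FlowBox: local time functions and short paths, by the inverse function theorem
-/

set_option autoImplicit false

open Topology Filter Metric Set

namespace Pool.Agent.H87.JZ

variable {E F : Type*} [NormedAddCommGroup E] [NormedSpace ℂ E] [NormedAddCommGroup F] [NormedSpace ℂ F]

theorem exists_ball_norm_le {G : Type*} [NormedAddCommGroup G] [NormedSpace ℂ G] {f : E → G} {x : E} (h : ContDiffAt ℂ 1 f x) :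
    ∀ᶠ y in 𝓝 x, ContDiffAt ℂ 1 f y ∧ ‖fderiv ℂ f y‖ ≤ ‖fderiv ℂ f x‖ + 1 := by
  have h1 : ∀ᶠ y in 𝓝 x, ContDiffAt ℂ 1 f y := h.eventually (by simp)
  obtain ⟨r, hr, h2⟩ := Metric.eventually_nhds_iff_ball.1 h1
  have h3 : ContDiffOn ℂ 1 f (ball x r) := fun y hy => (h2 y hy).contDiffWithinAt
  have h4 : ContinuousAt (fderiv ℂ f) x := (h3.continuousOn_fderiv_of_isOpen isOpen_ball le_rfl).continuousAt (ball_mem_nhds x hr)
  filter_upwards [h1, h4.norm.eventually (gt_mem_nhds (show ‖fderiv ℂ f x‖ < ‖fderiv ℂ f x‖ + 1 by linarith))] with y hy1 hy2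
  exact ⟨hy1, hy2.le⟩

theorem flow_box [CompleteSpace E] {q : E → F} {v : E → E} (hq : ContDiff ℂ 2 q) (hv : ContDiff ℂ 2 v)
    (hqv : ∀ x, fderiv ℂ q x (v x) = 0) {x₁ : E} (ℓ : E →L[ℂ] ℂ) (e : E ≃L[ℂ] F × ℂ) (he : ∀ w, e w = (fderiv ℂ q x₁ w, ℓ w))
    (hv1 : v x₁ ≠ 0) :
    ∃ (τ : E → ℂ) (R C : ℝ), 0 < R ∧ 0 < C ∧ IsTime v τ (ball x₁ R) ∧
      ∀ x ∈ ball x₁ R, ∀ y ∈ ball x₁ R, q x = q y → ∃ I : ℂ, FP v (closedBall x (C * ‖y - x‖)) x y I ∧ ‖I‖ ≤ C * ‖y - x‖ ∧ (I = 0 → x = y) := by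
  set Θ : E → F × ℂ := fun x => (q x, ℓ x) with hΘdef
  have hΘ : ContDiff ℂ 2 Θ := hq.prodMk ℓ.contDiff
  have hΘ' : ∀ x, HasFDerivAt Θ ((fderiv ℂ q x).prod ℓ) x := fun x =>
    ((hq.differentiable two_ne_zero) x).hasFDerivAt.prodMk ℓ.hasFDerivAt
  have hΘe : HasFDerivAt Θ (e : E →L[ℂ] F × ℂ) x₁ := by
    have h1 : (fderiv ℂ q x₁).prod ℓ = (e : E →L[ℂ] F × ℂ) := by
      ext w
      · exact (congrArg Prod.fst (he w)).symm
      · exact (congrArg Prod.snd (he w)).symm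
    rw [← h1]
    exact hΘ' x₁
  set P := hΘ.contDiffAt.toOpenPartialHomeomorph Θ hΘe two_ne_zero with hP
  have hPx : x₁ ∈ P.source := hΘ.contDiffAt.mem_toOpenPartialHomeomorph_source hΘe two_ne_zero
  have hPc : ∀ x, P x = Θ x := fun x => rfl
  have hPy : Θ x₁ ∈ P.target := hΘ.contDiffAt.image_mem_toOpenPartialHomeomorph_target hΘe two_ne_zero
  have hsymm : ContDiffAt ℂ 2 P.symm (Θ x₁) := hΘ.contDiffAt.to_localInverse hΘe two_ne_zero
  have hsx : P.symm (Θ x₁) = x₁ := P.left_inv hPx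
  have hℓv : ℓ (v x₁) ≠ 0 := by
    intro h0
    have h1 : e (v x₁) = 0 := by rw [he, hqv, h0]; rfl
    exact hv1 ((map_eq_zero_iff e e.injective).1 h1)
  set Φ : F × ℂ → ℂ := fun y => (ℓ (v (P.symm y)))⁻¹ with hΦdef
  have hΦ1 : ContDiffAt ℂ 1 Φ (Θ x₁) := by
    have h1 : ContDiffAt ℂ 1 (fun y => ℓ (v (P.symm y))) (Θ x₁) :=
      ((ℓ.contDiff.comp hv).contDiffAt.comp (Θ x₁) hsymm).of_le (by norm_num)
    exact h1.inv (by rw [hsx]; exact hℓv)
  have hs1 : ContDiffAt ℂ 1 P.symm (Θ x₁) := hsymm.of_le (by norm_num)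
  have hΦ0 : Φ (Θ x₁) ≠ 0 := by
    rw [hΦdef]
    simp only
    rw [hsx]
    exact inv_ne_zero hℓv
  obtain ⟨B, hB⟩ : ∃ B : ℝ, B = ‖fderiv ℂ P.symm (Θ x₁)‖ + 1 := ⟨_, rfl⟩
  -- a good ball in the target
  have hev : ∀ᶠ y in 𝓝 (Θ x₁), ((ContDiffAt ℂ 1 Φ y ∧ ‖fderiv ℂ Φ y‖ ≤ ‖fderiv ℂ Φ (Θ x₁)‖ + 1) ∧ (ContDiffAt ℂ 1 P.symm y ∧
      ‖fderiv ℂ P.symm y‖ ≤ B)) ∧ y ∈ P.target ∧ ‖Φ y - Φ (Θ x₁)‖ < ‖Φ (Θ x₁)‖ / 2 := by
    have ht0 : ∀ᶠ y in 𝓝 (Θ x₁), y ∈ P.target := P.open_target.mem_nhds hPy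
    refine ((exists_ball_norm_le hΦ1).and (hB ▸ exists_ball_norm_le hs1)).and (ht0.and ?_)
    have h1 : Tendsto (fun y => ‖Φ y - Φ (Θ x₁)‖) (𝓝 (Θ x₁)) (𝓝 0) := by
      have h2 := (hΦ1.continuousAt.sub_const (Φ (Θ x₁))).norm
      have h3 : Tendsto (fun y => ‖Φ y - Φ (Θ x₁)‖) (𝓝 (Θ x₁)) (𝓝 ‖Φ (Θ x₁) - Φ (Θ x₁)‖) := h2
      rwa [sub_self, norm_zero] at h3
    exact h1.eventually (gt_mem_nhds (by have := norm_pos_iff.2 hΦ0; linarith))
  obtain ⟨R₁, hR₁, hb1⟩ := Metric.eventually_nhds_iff_ball.1 hev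
  have hΦR : ContDiffOn ℂ 1 Φ (ball (Θ x₁) R₁) := fun y hy => (hb1 y hy).1.1.1.contDiffWithinAt
  have hΦn : ∀ y ∈ ball (Θ x₁) R₁, ‖Φ y‖ ≤ 2 * ‖Φ (Θ x₁)‖ := by
    intro y hy
    have h1 := (hb1 y hy).2.2
    have h2 : ‖Φ y‖ ≤ ‖Φ y - Φ (Θ x₁)‖ + ‖Φ (Θ x₁)‖ := by
      have := norm_add_le (Φ y - Φ (Θ x₁)) (Φ (Θ x₁))
      rwa [sub_add_cancel] at this
    linarith [norm_nonneg (Φ (Θ x₁))]
  -- a good ball in the source
  obtain ⟨A, hA⟩ : ∃ A : ℝ, A = ‖fderiv ℂ Θ x₁‖ + 1 := ⟨_, rfl⟩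
  have hs0 : ∀ᶠ x in 𝓝 x₁, x ∈ P.source := P.open_source.mem_nhds hPx
  have hev2 : ∀ᶠ x in 𝓝 x₁, (x ∈ P.source ∧ Θ x ∈ ball (Θ x₁) R₁) ∧ (ContDiffAt ℂ 1 Θ x ∧ ‖fderiv ℂ Θ x‖ ≤ A) :=
    (hs0.and (hΘ.continuous.continuousAt.eventually (ball_mem_nhds _ hR₁))).and
      (hA ▸ exists_ball_norm_le (hΘ.contDiffAt.of_le (by norm_num)))
  obtain ⟨R, hR, hb2⟩ := Metric.eventually_nhds_iff_ball.1 hev2
  have hA0 : 0 < A := by rw [hA]; positivity
  have hB0 : 0 < B := by rw [hB]; positivity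
  have hΘL : ∀ x ∈ ball x₁ R, ∀ y ∈ ball x₁ R, ‖Θ y - Θ x‖ ≤ A * ‖y - x‖ := fun x hx y hy =>
    (convex_ball x₁ R).norm_image_sub_le_of_norm_fderiv_le (𝕜 := ℂ) (fun z _ => (hΘ' z).differentiableAt) (fun z hz => (hb2 z hz).2.2) hx hy
  -- the derivative of the inverse
  have hDs : ∀ y ∈ ball (Θ x₁) R₁, fderiv ℂ P.symm y (0, ℓ (v (P.symm y))) = v (P.symm y) := by
    intro y hy
    have hyt := (hb1 y hy).2.1
    set g := P.symm y with hg
    have hgs : g ∈ P.source := P.map_target hyt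
    have hgy : Θ g = y := P.right_inv hyt
    have h1 : HasFDerivAt P.symm (fderiv ℂ P.symm y) (Θ g) := by
      rw [hgy]
      exact ((hb1 y hy).1.2.1.differentiableAt one_ne_zero).hasFDerivAt
    have h2 := h1.comp g (hΘ' g)
    have h3 : (fun x => P.symm (Θ x)) =ᶠ[𝓝 g] id := by
      filter_upwards [P.open_source.mem_nhds hgs] with x hx
      exact P.left_inv hx
    have h4 : (fderiv ℂ P.symm y).comp ((fderiv ℂ q g).prod ℓ) = ContinuousLinearMap.id ℂ E :=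
      (h2.congr_of_eventuallyEq h3.symm).unique (hasFDerivAt_id g)
    have h5 := congrArg (fun L : E →L[ℂ] E => L (v g)) h4
    simp only [ContinuousLinearMap.comp_apply, ContinuousLinearMap.prod_apply, ContinuousLinearMap.id_apply] at h5
    rw [hqv] at h5
    exact h5
  refine ⟨fun x => Tm Φ (Θ x₁).2 (Θ x), R, B * A + 2 * ‖Φ (Θ x₁)‖ * ‖ℓ‖ + 1, hR, by positivity, ?_, ?_⟩
  · intro x hx
    obtain ⟨⟨hxs, hxΘ⟩, -⟩ := hb2 x hx
    have hT := Tm_differentiableAt hΦR (fun y hy => (hb1 y hy).1.1.2) hxΘ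
    have h1 := hT.hasFDerivAt.comp x (hΘ' x)
    refine ⟨h1.differentiableAt, ?_⟩
    rw [show fderiv ℂ (fun x => Tm Φ (Θ x₁).2 (Θ x)) x = _ from h1.fderiv, ContinuousLinearMap.comp_apply, ContinuousLinearMap.prod_apply, hqv]
    have h2 : HasDerivAt (fun u => Tm Φ (Θ x₁).2 ((Θ x).1, u)) (fderiv ℂ (Tm Φ (Θ x₁).2) (Θ x) (0, 1)) (Θ x).2 := by
      have h3 : HasDerivAt (fun u : ℂ => (((Θ x).1, u) : F × ℂ)) (0, 1) (Θ x).2 := (hasDerivAt_const _ _).prodMk (hasDerivAt_id _)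
      exact hT.hasFDerivAt.comp_hasDerivAt (Θ x).2 h3
    have h4 := h2.unique (Tm_hasDerivAt (hΦR.differentiableOn one_ne_zero) hxΘ)
    have h5 : ((0 : F), ℓ (v x)) = ℓ (v x) • ((0 : F), (1 : ℂ)) := by
      rw [Prod.smul_mk, smul_zero, smul_eq_mul, mul_one]
    rw [h5, map_smul, h4, smul_eq_mul]
    have h6 : Φ ((Θ x).1, (Θ x).2) = (ℓ (v x))⁻¹ := by
      rw [hΦdef]
      simp only
      rw [show ((q x, ℓ x) : F × ℂ) = P x from rfl, P.left_inv hxs]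
    rw [h6]
    refine mul_inv_cancel₀ fun h0 => ?_
    have h7 := (hb1 _ hxΘ).2.2
    have h8 : Φ (Θ x) = 0 := by
      change Φ ((Θ x).1, (Θ x).2) = 0
      rw [h6, h0, inv_zero]
    rw [h8, zero_sub, norm_neg] at h7
    linarith [norm_nonneg (Φ (Θ x₁))]
  · intro x hx y hy hxy
    obtain ⟨⟨hxs, hxΘ⟩, -⟩ := hb2 x hx
    obtain ⟨⟨hys, hyΘ⟩, -⟩ := hb2 y hy
    set yy : ℝ → F × ℂ := fun s => Θ x + (s : ℂ) • (Θ y - Θ x) with hyy
    have hyyb : ∀ s ∈ Icc (0 : ℝ) 1, yy s ∈ ball (Θ x₁) R₁ := by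
      intro s hs
      have h1 := (convex_ball (Θ x₁) R₁) hxΘ hyΘ (sub_nonneg.2 hs.2) hs.1 (sub_add_cancel 1 s)
      have h2 : yy s = (1 - s) • Θ x + s • Θ y := by
        rw [hyy]
        simp only
        rw [Complex.coe_smul, smul_sub, sub_smul, one_smul]
        abel
      rw [h2]
      exact h1
    have hyyd : ∀ s : ℝ, HasDerivAt yy (Θ y - Θ x) s := by
      intro s
      have h1 : HasDerivAt (fun s : ℝ => (s : ℂ)) 1 s := Complex.ofRealCLM.hasDerivAt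
      have h2 := (h1.smul_const (Θ y - Θ x)).const_add (Θ x)
      rwa [one_smul] at h2
    have hyy0 : yy 0 = Θ x := by rw [hyy]; simp
    have hyy1 : yy 1 = Θ y := by rw [hyy]; simp
    have hΔ : Θ y - Θ x = ((0 : F), ℓ y - ℓ x) := by
      rw [hΘdef]
      simp only
      rw [Prod.mk_sub_mk, hxy, sub_self]
    set m : ℝ → ℂ := fun s => (ℓ y - ℓ x) * Φ (yy s) with hm
    have hΦc : ContinuousOn (fun s => Φ (yy s)) (Icc 0 1) :=
      hΦR.continuousOn.comp (fun s _ => (hyyd s).continuousAt.continuousWithinAt) hyyb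
    have hmc : ContinuousOn m (Icc 0 1) := continuousOn_const.mul hΦc
    have hΦint : IntervalIntegrable (fun s => Φ (yy s)) MeasureTheory.volume 0 1 :=
      (hΦc.mono (by rw [uIcc_of_le (zero_le_one' ℝ)])).intervalIntegrable
    have hℓle : ‖ℓ y - ℓ x‖ ≤ ‖ℓ‖ * ‖y - x‖ := by
      rw [← map_sub]
      exact ℓ.le_opNorm _
    refine ⟨∫ s in (0 : ℝ)..1, m s, ⟨fun s => P.symm (yy s), m, ?_, ?_, hmc, ?_, rfl⟩, ?_, ?_⟩
    · simp only
      rw [hyy0]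
      exact P.left_inv hxs
    · simp only
      rw [hyy1]
      exact P.left_inv hys
    · intro s hs
      have hsb := hyyb s hs
      constructor
      · have h1 := ((hb1 _ hsb).1.2.1.differentiableAt one_ne_zero).hasFDerivAt.restrictScalars ℝ |>.comp_hasDerivAt s (hyyd s)
        have h2 : (ContinuousLinearMap.restrictScalars ℝ (fderiv ℂ P.symm (yy s))) (Θ y - Θ x) = m s • v (P.symm (yy s)) := by
          rw [ContinuousLinearMap.coe_restrictScalars', hΔ, hm]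
          simp only
          have h3 := hDs _ hsb
          have h4 : ℓ (v (P.symm (yy s))) ≠ 0 := by
            intro h0
            have h7 := (hb1 _ hsb).2.2
            have h8 : Φ (yy s) = 0 := by
              rw [hΦdef]
              simp only
              rw [h0, inv_zero]
            rw [h8, zero_sub, norm_neg] at h7
            linarith [norm_nonneg (Φ (Θ x₁))]
          have h5 : ((0 : F), ℓ y - ℓ x) = ((ℓ y - ℓ x) * Φ (yy s)) • ((0 : F), ℓ (v (P.symm (yy s)))) := by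
            rw [Prod.smul_mk, smul_zero, smul_eq_mul, hΦdef]
            simp only
            rw [mul_assoc, inv_mul_cancel₀ h4, mul_one]
          rw [h5, map_smul, h3]
        rw [h2] at h1
        exact h1.hasDerivWithinAt
      · have h1 : ‖P.symm (yy s) - P.symm (Θ x)‖ ≤ B * ‖yy s - Θ x‖ :=
          (convex_ball (Θ x₁) R₁).norm_image_sub_le_of_norm_fderiv_le (𝕜 := ℂ)
            (fun z hz => (hb1 z hz).1.2.1.differentiableAt one_ne_zero) (fun z hz => (hb1 z hz).1.2.2) hxΘ hsb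
        have h2 : ‖yy s - Θ x‖ ≤ ‖Θ y - Θ x‖ := by
          rw [hyy]
          simp only
          rw [add_sub_cancel_left, norm_smul, Complex.norm_real, Real.norm_of_nonneg hs.1]
          exact mul_le_of_le_one_left (norm_nonneg _) hs.2
        have h3 := hΘL x hx y hy
        have h0 : P.symm (Θ x) = x := P.left_inv hxs
        rw [h0] at h1
        rw [mem_closedBall, dist_eq_norm]
        calc ‖P.symm (yy s) - x‖ ≤ B * ‖yy s - Θ x‖ := h1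
          _ ≤ B * (A * ‖y - x‖) := mul_le_mul_of_nonneg_left (h2.trans h3) hB0.le
          _ ≤ (B * A + 2 * ‖Φ (Θ x₁)‖ * ‖ℓ‖ + 1) * ‖y - x‖ := by
              have h4 : 0 ≤ (2 * ‖Φ (Θ x₁)‖ * ‖ℓ‖ + 1) * ‖y - x‖ := by positivity
              linarith [h4, add_mul (B * A) (2 * ‖Φ (Θ x₁)‖ * ‖ℓ‖ + 1) ‖y - x‖]
    · have h1 : ‖∫ s in (0 : ℝ)..1, m s‖ ≤ (‖ℓ‖ * ‖y - x‖) * (2 * ‖Φ (Θ x₁)‖) * |(1 : ℝ) - 0| := by
        refine intervalIntegral.norm_integral_le_of_norm_le_const fun s hs => ?_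
        rw [uIoc_of_le zero_le_one] at hs
        rw [hm]
        simp only
        rw [norm_mul]
        exact mul_le_mul hℓle (hΦn _ (hyyb s (Ioc_subset_Icc_self hs))) (norm_nonneg _) (by positivity)
      rw [sub_zero, abs_one, mul_one] at h1
      refine h1.trans ?_
      have h4 : 0 ≤ (B * A + 1) * ‖y - x‖ := by positivity
      have h5 : (B * A + 2 * ‖Φ (Θ x₁)‖ * ‖ℓ‖ + 1) * ‖y - x‖ = (B * A + 1) * ‖y - x‖ + ‖ℓ‖ * ‖y - x‖ * (2 * ‖Φ (Θ x₁)‖) := by ring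
      rw [h5]
      linarith
    · intro hI
      have h1 : (∫ s in (0 : ℝ)..1, m s) = (ℓ y - ℓ x) * ∫ s in (0 : ℝ)..1, Φ (yy s) := by
        rw [hm, intervalIntegral.integral_const_mul]
      rw [h1] at hI
      have h2 : (∫ s in (0 : ℝ)..1, Φ (yy s)) ≠ 0 := by
        intro h0
        have h3 : (∫ s in (0 : ℝ)..1, (Φ (yy s) - Φ (Θ x₁))) = -Φ (Θ x₁) := by
          rw [intervalIntegral.integral_sub hΦint intervalIntegrable_const, h0, intervalIntegral.integral_const]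
          simp
        have h4 : ‖∫ s in (0 : ℝ)..1, (Φ (yy s) - Φ (Θ x₁))‖ ≤ ‖Φ (Θ x₁)‖ / 2 * |(1 : ℝ) - 0| := by
          refine intervalIntegral.norm_integral_le_of_norm_le_const fun s hs => ?_
          rw [uIoc_of_le zero_le_one] at hs
          exact (hb1 _ (hyyb s (Ioc_subset_Icc_self hs))).2.2.le
        rw [h3, norm_neg, sub_zero, abs_one, mul_one] at h4
        have := norm_pos_iff.2 hΦ0
        linarith
      have h5 : ℓ y - ℓ x = 0 := (mul_eq_zero.1 hI).resolve_right h2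
      have h6 : Θ y = Θ x := by
        rw [← sub_eq_zero, hΔ, h5]
        rfl
      exact (P.injOn hys hxs h6).symm

end Pool.Agent.H87.JZ
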