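import Mathlib

/-!
# JZ Glue: gluing of holomorphic functions along strips

`glue_left`: `xk X₀ r k = X₀ - k r`; `T X₀ r S k` is the part `xk (k + 1) < Re t < xk (k - 1)` of the set `S`.  Functions `p k` on `T k` and `L k` on `{t ∈ S | Re t < xk k}` with `p k - p (k + 1) = L k` on the overlaps give one function `Φ = p k + ∑ i < k, L i` on `T k`.

`glue_strips`: functions on the strips `|Im t - y| < δ`, all equal to `J₀` for `X₁ < Re t < X₂`, give one function.
-/

set_option autoImplicit false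

open Topology Filter Metric Complex

namespace Pool.Agent.H87.JZ

/-- the piece number `k` of the set `S` -/
def piece (S : Set ℂ) (X₀ r : ℝ) (k : ℕ) : Set ℂ := {t | t ∈ S ∧ X₀ - (k + 1) * r < t.re ∧ t.re < X₀ - (k - 1) * r}

/-- the part of `S` to the left of the right end of the overlap of the pieces `k` and `k + 1` -/
def leftOf (S : Set ℂ) (X₀ r : ℝ) (k : ℕ) : Set ℂ := {t | t ∈ S ∧ t.re < X₀ - k * r}

theorem isOpen_piece {S : Set ℂ} (hS : IsOpen S) (X₀ r : ℝ) (k : ℕ) : IsOpen (piece S X₀ r k) :=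
  hS.inter ((isOpen_lt continuous_const Complex.continuous_re).inter (isOpen_lt Complex.continuous_re continuous_const))

theorem isOpen_leftOf {S : Set ℂ} (hS : IsOpen S) (X₀ r : ℝ) (k : ℕ) : IsOpen (leftOf S X₀ r k) :=
  hS.inter (isOpen_lt Complex.continuous_re continuous_const)

theorem glue_left {S : Set ℂ} (hS : IsOpen S) {X₀ r B : ℝ} {m : ℕ} (hr : 0 < r) {p L : ℕ → ℂ → ℂ}
    (hp : ∀ k, DifferentiableOn ℂ (p k) (piece S X₀ r k)) (hL : ∀ k, DifferentiableOn ℂ (L k) (leftOf S X₀ r k))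
    (hpL : ∀ k, ∀ t ∈ piece S X₀ r k, t ∈ piece S X₀ r (k + 1) → p k t - p (k + 1) t = L k t)
    (hpb : ∀ k, ∀ t ∈ piece S X₀ r k, ‖p k t‖ ≤ B * (1 + ‖t‖) ^ m) (hLb : ∀ k, ∀ t ∈ leftOf S X₀ r k, ‖L k t‖ ≤ B * (1 + ‖t‖) ^ m) :
    ∃ Φ : ℂ → ℂ, DifferentiableOn ℂ Φ {t | t ∈ S ∧ t.re < X₀ + r} ∧ (∀ t ∈ piece S X₀ r 0, Φ t = p 0 t) ∧
      (∀ k, ∀ t ∈ piece S X₀ r k, Φ t = p k t + ∑ i ∈ Finset.range k, L i t) ∧
      ∀ t, t ∈ S → t.re < X₀ + r → ‖Φ t‖ ≤ |B| * (1 + (|X₀| + 1) / r) * (1 + ‖t‖) ^ (m + 1) := by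
  set K : ℂ → ℕ := fun t => ⌊(X₀ - t.re) / r⌋₊ with hK
  set Φ : ℂ → ℂ := fun t => p (K t) t + ∑ i ∈ Finset.range (K t), L i t with hΦ
  -- the piece of a point
  have hmem : ∀ t ∈ S, t.re < X₀ + r → t ∈ piece S X₀ r (K t) := by
    intro t ht h1
    refine ⟨ht, ?_, ?_⟩
    · have h2 := Nat.lt_floor_add_one ((X₀ - t.re) / r)
      rw [div_lt_iff₀ hr] at h2
      linarith
    · rcases le_or_gt t.re X₀ with h3 | h3
      · have h4 : (0 : ℝ) ≤ (X₀ - t.re) / r := div_nonneg (by linarith) hr.le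
        have h5 := Nat.floor_le h4
        rw [le_div_iff₀ hr] at h5
        have h6 : (K t : ℝ) * r ≤ X₀ - t.re := h5
        have h7 : ((K t : ℝ) - 1) * r = (K t : ℝ) * r - r := by ring
        linarith
      · have h4 : K t = 0 := by
          rw [hK]
          simp only
          rw [Nat.floor_eq_zero]
          have h5 : (X₀ - t.re) / r < 0 := div_neg_of_neg_of_pos (by linarith) hr
          linarith
        rw [h4]
        simp only [Nat.cast_zero, zero_sub]
        linarith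
  -- the overlaps
  have hstep : ∀ k, ∀ t ∈ piece S X₀ r k, t ∈ piece S X₀ r (k + 1) →
      p k t + ∑ i ∈ Finset.range k, L i t = p (k + 1) t + ∑ i ∈ Finset.range (k + 1), L i t := by
    intro k t h1 h2
    rw [Finset.sum_range_succ, ← hpL k t h1 h2]
    ring
  have hval : ∀ k, ∀ t ∈ piece S X₀ r k, Φ t = p k t + ∑ i ∈ Finset.range k, L i t := by
    intro k t ht
    have h1 : t.re < X₀ + r := by
      have h2 := ht.2.2
      have h3 : (0 : ℝ) ≤ (k : ℝ) * r := by positivity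
      have h4 : X₀ - ((k : ℝ) - 1) * r = X₀ + r - k * r := by ring
      linarith
    have h2 := hmem t ht.1 h1
    have h3 : K t = k ∨ K t + 1 = k ∨ K t = k + 1 := by
      have h4 := h2.2.1
      have h5 := h2.2.2
      have h6 := ht.2.1
      have h7 := ht.2.2
      have h8 : ((K t : ℝ) - 1) * r < (k + 1) * r := by linarith
      have h9 : ((k : ℝ) - 1) * r < (K t + 1) * r := by linarith
      have h10 : (K t : ℝ) - 1 < k + 1 := lt_of_mul_lt_mul_right h8 hr.le
      have h11 : (k : ℝ) - 1 < K t + 1 := lt_of_mul_lt_mul_right h9 hr.le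
      have h12 : (K t : ℝ) < (k + 2 : ℕ) := by push_cast; linarith
      have h13 : (k : ℝ) < (K t + 2 : ℕ) := by push_cast; linarith
      have h14 : K t < k + 2 := by exact_mod_cast h12
      have h15 : k < K t + 2 := by exact_mod_cast h13
      omega
    rcases h3 with h3 | h3 | h3
    · rw [hΦ]
      simp only
      rw [h3]
    · rw [hΦ]
      simp only
      rw [← h3]
      exact hstep (K t) t h2 (by rw [h3]; exact ht)
    · rw [hΦ]
      simp only
      rw [h3] at h2 ⊢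
      exact (hstep k t ht h2).symm
  refine ⟨Φ, ?_, ?_, hval, ?_⟩
  · rintro t ⟨ht, ht1⟩
    have h1 := hmem t ht ht1
    set k := K t with hk
    have hopen := isOpen_piece hS X₀ r k
    have h2 : Φ =ᶠ[𝓝 t] fun t => p k t + ∑ i ∈ Finset.range k, L i t :=
      Filter.eventuallyEq_of_mem (hopen.mem_nhds h1) (hval k)
    have h3 : DifferentiableAt ℂ (fun t => p k t + ∑ i ∈ Finset.range k, L i t) t := by
      refine ((hp k).differentiableAt (hopen.mem_nhds h1)).add (DifferentiableAt.fun_sum fun i hi => ?_)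
      have h4 : t ∈ leftOf S X₀ r i := by
        refine ⟨ht, ?_⟩
        have h5 := h1.2.2
        have h6 : (i : ℝ) + 1 ≤ k := by exact_mod_cast Finset.mem_range.1 hi
        have h7 : (i : ℝ) * r ≤ ((k : ℝ) - 1) * r := mul_le_mul_of_nonneg_right (by linarith) hr.le
        linarith
      exact (hL i).differentiableAt ((isOpen_leftOf hS X₀ r i).mem_nhds h4)
    exact (h2.differentiableAt_iff.2 h3).differentiableWithinAt
  · intro t ht
    rw [hval 0 t ht]
    simp
  · intro t ht ht1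
    have h1 := hmem t ht ht1
    rw [hval _ t h1]
    set k := K t with hk
    have hN : 0 ≤ ‖t‖ := norm_nonneg t
    have hB : B * (1 + ‖t‖) ^ m ≤ |B| * (1 + ‖t‖) ^ m := mul_le_mul_of_nonneg_right (le_abs_self B) (by positivity)
    have h2 : ‖p k t‖ ≤ |B| * (1 + ‖t‖) ^ m := (hpb k t h1).trans hB
    have h3 : ‖∑ i ∈ Finset.range k, L i t‖ ≤ k * (|B| * (1 + ‖t‖) ^ m) := by
      refine (norm_sum_le _ _).trans ?_
      calc ∑ i ∈ Finset.range k, ‖L i t‖ ≤ ∑ _i ∈ Finset.range k, |B| * (1 + ‖t‖) ^ m := by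
            refine Finset.sum_le_sum fun i hi => ?_
            have h4 : t ∈ leftOf S X₀ r i := by
              refine ⟨ht, ?_⟩
              have h5 := h1.2.2
              have h6 : (i : ℝ) + 1 ≤ k := by exact_mod_cast Finset.mem_range.1 hi
              have h7 : (i : ℝ) * r ≤ ((k : ℝ) - 1) * r := mul_le_mul_of_nonneg_right (by linarith) hr.le
              linarith
            exact (hLb i t h4).trans hB
        _ = _ := by simp
    have h4 : (k : ℝ) ≤ (|X₀| + 1) / r * (1 + ‖t‖) := by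
      rcases le_or_gt t.re X₀ with h5 | h5
      · have h6 : (k : ℝ) ≤ (X₀ - t.re) / r := Nat.floor_le (div_nonneg (by linarith) hr.le)
        have h7 : X₀ - t.re ≤ (|X₀| + 1) * (1 + ‖t‖) := by
          have h8 := le_abs_self X₀
          have h9 : -t.re ≤ ‖t‖ := (neg_le_abs _).trans (Complex.abs_re_le_norm t)
          have h10 : 0 ≤ |X₀| * ‖t‖ := by positivity
          nlinarith
        calc (k : ℝ) ≤ (X₀ - t.re) / r := h6
          _ ≤ (|X₀| + 1) * (1 + ‖t‖) / r := by gcongr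
          _ = _ := by ring
      · have h6 : k = 0 := by
          rw [hk, hK]
          simp only
          rw [Nat.floor_eq_zero]
          have h7 : (X₀ - t.re) / r < 0 := div_neg_of_neg_of_pos (by linarith) hr
          linarith
        rw [h6, Nat.cast_zero]
        positivity
    have hX : 0 ≤ (|X₀| + 1) / r := by positivity
    calc ‖p k t + ∑ i ∈ Finset.range k, L i t‖ ≤ |B| * (1 + ‖t‖) ^ m + k * (|B| * (1 + ‖t‖) ^ m) :=
          (norm_add_le _ _).trans (add_le_add h2 h3)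
      _ ≤ |B| * (1 + ‖t‖) ^ m + ((|X₀| + 1) / r * (1 + ‖t‖)) * (|B| * (1 + ‖t‖) ^ m) := by gcongr
      _ ≤ |B| * (1 + ‖t‖) ^ m * (1 + ‖t‖) + ((|X₀| + 1) / r * (1 + ‖t‖)) * (|B| * (1 + ‖t‖) ^ m) := by
          have hA : |B| * (1 + ‖t‖) ^ m ≤ |B| * (1 + ‖t‖) ^ m * (1 + ‖t‖) :=
            le_mul_of_one_le_right (by positivity) (by linarith)
          linarith
      _ = |B| * (1 + (|X₀| + 1) / r) * (1 + ‖t‖) ^ (m + 1) := by ring

/-- functions on horizontal strips which agree to the right give one function -/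
theorem glue_strips {ρ δ X₁ X₂ : ℝ} (hδ : 0 < δ) (hX : X₁ < X₂) {J₀ : ℂ → ℂ} (hJ₀ : DifferentiableOn ℂ J₀ {t | X₁ < t.re ∧ ρ < t.im})
    {b : ℂ → ℝ}
    (hJ : ∀ y : ℝ, ρ < y → ∃ J : ℂ → ℂ, DifferentiableOn ℂ J {t | t.re < X₂ ∧ |t.im - y| < δ ∧ ρ < t.im} ∧
      (∀ t : ℂ, X₁ < t.re → t.re < X₂ → |t.im - y| < δ → ρ < t.im → J t = J₀ t) ∧
      ∀ t : ℂ, t.re < X₂ → |t.im - y| < δ → ρ < t.im → ‖J t‖ ≤ b t) :
    ∃ J : ℂ → ℂ, DifferentiableOn ℂ J {t | ρ < t.im} ∧ (∀ t : ℂ, X₁ < t.re → ρ < t.im → J t = J₀ t) ∧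
      ∀ t : ℂ, t.re < X₂ → ρ < t.im → ‖J t‖ ≤ b t := by
  choose! Jy hJy1 hJy2 hJy3 using hJ
  -- two of the functions agree on the intersection of the strips
  have hagree : ∀ y y' : ℝ, ρ < y → ρ < y' → ∀ t : ℂ, t.re < X₂ → |t.im - y| < δ → |t.im - y'| < δ → ρ < t.im → Jy y t = Jy y' t := by
    intro y y' hy hy' t h1 h2 h3 h4
    set V : Set ℂ := {t : ℂ | t.re < X₂} ∩ ({t : ℂ | t.im < min (y + δ) (y' + δ)} ∩ {t : ℂ | max ρ (max (y - δ) (y' - δ)) < t.im}) with hV
    have hVc : Convex ℝ V := (convex_halfSpace_re_lt X₂).inter ((convex_halfSpace_im_lt _).inter (convex_halfSpace_im_gt _))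
    have hVo : IsOpen V := (isOpen_lt Complex.continuous_re continuous_const).inter
      ((isOpen_lt Complex.continuous_im continuous_const).inter (isOpen_lt continuous_const Complex.continuous_im))
    have hsub : ∀ w ∈ V, w.re < X₂ ∧ |w.im - y| < δ ∧ |w.im - y'| < δ ∧ ρ < w.im := by
      rintro w ⟨h5, h6, h7⟩
      have h5 : w.re < X₂ := h5
      have h6 : w.im < min (y + δ) (y' + δ) := h6
      have h7 : max ρ (max (y - δ) (y' - δ)) < w.im := h7
      have h8 := (lt_min_iff.1 h6)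
      have h9 := (max_lt_iff.1 h7)
      have h10 := (max_lt_iff.1 h9.2)
      exact ⟨h5, abs_lt.2 ⟨by linarith, by linarith⟩, abs_lt.2 ⟨by linarith, by linarith⟩, h9.1⟩
    have htV : t ∈ V := by
      obtain ⟨h5, h5'⟩ := abs_lt.1 h2
      obtain ⟨h6, h6'⟩ := abs_lt.1 h3
      refine ⟨h1, ?_, ?_⟩
      · show t.im < min (y + δ) (y' + δ)
        exact lt_min (by linarith) (by linarith)
      · show max ρ (max (y - δ) (y' - δ)) < t.im
        exact max_lt h4 (max_lt (by linarith) (by linarith))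
    have hd : DifferentiableOn ℂ (Jy y) V := (hJy1 y hy).mono fun w hw => ⟨(hsub w hw).1, (hsub w hw).2.1, (hsub w hw).2.2.2⟩
    have hd' : DifferentiableOn ℂ (Jy y') V := (hJy1 y' hy').mono fun w hw => ⟨(hsub w hw).1, (hsub w hw).2.2.1, (hsub w hw).2.2.2⟩
    -- a point to the right
    set w₀ : ℂ := ⟨max t.re ((X₁ + X₂) / 2), t.im⟩ with hw₀
    have hw₀V : w₀ ∈ V := by
      refine ⟨?_, htV.2.1, htV.2.2⟩
      exact max_lt h1 (by linarith)
    have hw₁ : X₁ < w₀.re := lt_of_lt_of_le (by linarith) (le_max_right _ _)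
    have hev : Jy y =ᶠ[𝓝 w₀] Jy y' := by
      have h5 : V ∩ {w : ℂ | X₁ < w.re} ∈ 𝓝 w₀ :=
        (hVo.inter (isOpen_lt continuous_const Complex.continuous_re)).mem_nhds ⟨hw₀V, hw₁⟩
      filter_upwards [h5] with w hw
      have h6 := hsub w hw.1
      rw [hJy2 y hy w hw.2 h6.1 h6.2.1 h6.2.2.2, hJy2 y' hy' w hw.2 h6.1 h6.2.2.1 h6.2.2.2]
    exact ((hd.analyticOnNhd hVo).eqOn_of_preconnected_of_eventuallyEq (hd'.analyticOnNhd hVo) hVc.isPreconnected hw₀V hev) htV
  set J : ℂ → ℂ := fun t => if t.re < X₂ then Jy t.im t else J₀ t with hJdef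
  have hleft : ∀ y : ℝ, ρ < y → ∀ t : ℂ, t.re < X₂ → |t.im - y| < δ → ρ < t.im → J t = Jy y t := by
    intro y hy t h1 h2 h3
    rw [hJdef]
    simp only [h1, if_true]
    exact hagree t.im y h3 hy t h1 (by rw [sub_self, abs_zero]; exact hδ) h2 h3
  have hright : ∀ t : ℂ, X₁ < t.re → ρ < t.im → J t = J₀ t := by
    intro t h1 h2
    by_cases h3 : t.re < X₂
    · rw [hleft t.im h2 t h3 (by rw [sub_self, abs_zero]; exact hδ) h2]
      exact hJy2 t.im h2 t h1 h3 (by rw [sub_self, abs_zero]; exact hδ) h2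
    · rw [hJdef]
      simp only [h3, if_false]
  refine ⟨J, ?_, hright, ?_⟩
  · intro t ht
    have ht : ρ < t.im := ht
    by_cases h1 : t.re < X₂
    · have hopen : IsOpen {w : ℂ | w.re < X₂ ∧ |w.im - t.im| < δ ∧ ρ < w.im} :=
        (isOpen_lt Complex.continuous_re continuous_const).inter
          ((isOpen_lt (Complex.continuous_im.sub continuous_const).abs continuous_const).inter
            (isOpen_lt continuous_const Complex.continuous_im))
      have hmem : t ∈ {w : ℂ | w.re < X₂ ∧ |w.im - t.im| < δ ∧ ρ < w.im} := ⟨h1, by rw [sub_self, abs_zero]; exact hδ, ht⟩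
      have h2 : J =ᶠ[𝓝 t] Jy t.im :=
        Filter.eventuallyEq_of_mem (hopen.mem_nhds hmem) fun w hw => hleft t.im ht w hw.1 hw.2.1 hw.2.2
      exact (h2.differentiableAt_iff.2 ((hJy1 t.im ht).differentiableAt (hopen.mem_nhds hmem))).differentiableWithinAt
    · have hopen : IsOpen {w : ℂ | X₁ < w.re ∧ ρ < w.im} :=
        (isOpen_lt continuous_const Complex.continuous_re).inter (isOpen_lt continuous_const Complex.continuous_im)
      have hmem : t ∈ {w : ℂ | X₁ < w.re ∧ ρ < w.im} := ⟨by push Not at h1; linarith, ht⟩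
      have h2 : J =ᶠ[𝓝 t] J₀ := Filter.eventuallyEq_of_mem (hopen.mem_nhds hmem) fun w hw => hright w hw.1 hw.2
      exact (h2.differentiableAt_iff.2 (hJ₀.differentiableAt (hopen.mem_nhds hmem))).differentiableWithinAt
  · intro t h1 h2
    rw [hleft t.im h2 t h1 (by rw [sub_self, abs_zero]; exact hδ) h2]
    exact hJy3 t.im h2 t h1 (by rw [sub_self, abs_zero]; exact hδ) h2

end Pool.Agent.H87.JZ
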