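import Mathlib

/-!
# JZ GlueFull: gluing of three functions on a strip, and of functions on the strips of a half plane
-/

set_option autoImplicit false

open Topology Filter Metric Complex

namespace Pool.Agent.H87.JZ

theorem three_pieces {S : Set ℂ} (hS : IsOpen S) {a b d : ℝ} (hd : 0 < d) (hab : a + d ≤ b - d) {JL J₀ JR : ℂ → ℂ}
    (hL : DifferentiableOn ℂ JL {t | t ∈ S ∧ t.re < a + d}) (h0 : DifferentiableOn ℂ J₀ {t | t ∈ S ∧ a - d < t.re ∧ t.re < b + d})
    (hR : DifferentiableOn ℂ JR {t | t ∈ S ∧ b - d < t.re}) (hL0 : ∀ t ∈ S, a - d < t.re → t.re < a + d → JL t = J₀ t)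
    (hR0 : ∀ t ∈ S, b - d < t.re → t.re < b + d → JR t = J₀ t) :
    ∃ J : ℂ → ℂ, DifferentiableOn ℂ J S ∧ (∀ t ∈ S, t.re < a + d → J t = JL t) ∧ (∀ t ∈ S, a - d < t.re → t.re < b + d → J t = J₀ t) ∧
      ∀ t ∈ S, b - d < t.re → J t = JR t := by
  classical
  set J : ℂ → ℂ := fun t => if t.re < a then JL t else if b < t.re then JR t else J₀ t with hJ
  have e1 : ∀ t ∈ S, t.re < a + d → J t = JL t := by
    intro t ht h1
    rw [hJ]
    simp only
    by_cases h2 : t.re < a
    · rw [if_pos h2]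
    · rw [if_neg h2, if_neg (by linarith), hL0 t ht (by linarith) h1]
  have e2 : ∀ t ∈ S, a - d < t.re → t.re < b + d → J t = J₀ t := by
    intro t ht h1 h1'
    rw [hJ]
    simp only
    by_cases h2 : t.re < a
    · rw [if_pos h2, hL0 t ht h1 (by linarith)]
    · rw [if_neg h2]
      by_cases h3 : b < t.re
      · rw [if_pos h3, hR0 t ht (by linarith) h1']
      · rw [if_neg h3]
  have e3 : ∀ t ∈ S, b - d < t.re → J t = JR t := by
    intro t ht h1
    rw [hJ]
    simp only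
    rw [if_neg (by linarith)]
    by_cases h3 : b < t.re
    · rw [if_pos h3]
    · rw [if_neg h3, hR0 t ht h1 (by linarith)]
  refine ⟨J, fun t ht => ?_, e1, e2, e3⟩
  rcases lt_or_ge t.re (a + d) with h1 | h1
  · have hV : {s : ℂ | s ∈ S ∧ s.re < a + d} ∈ 𝓝 t := (hS.inter (isOpen_lt Complex.continuous_re continuous_const)).mem_nhds ⟨ht, h1⟩
    have h2 : DifferentiableAt ℂ JL t := hL.differentiableAt hV
    refine (h2.congr_of_eventuallyEq ?_).differentiableWithinAt
    filter_upwards [hV] with s hs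
    exact e1 s hs.1 hs.2
  · rcases lt_or_ge t.re (b + d) with h3 | h3
    · have hV : {s : ℂ | s ∈ S ∧ a - d < s.re ∧ s.re < b + d} ∈ 𝓝 t :=
        (hS.inter ((isOpen_lt continuous_const Complex.continuous_re).inter (isOpen_lt Complex.continuous_re continuous_const))).mem_nhds
          ⟨ht, by change a - d < t.re; linarith, h3⟩
      have h2 : DifferentiableAt ℂ J₀ t := h0.differentiableAt hV
      refine (h2.congr_of_eventuallyEq ?_).differentiableWithinAt
      filter_upwards [hV] with s hs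
      exact e2 s hs.1 hs.2.1 hs.2.2
    · have hV : {s : ℂ | s ∈ S ∧ b - d < s.re} ∈ 𝓝 t :=
        (hS.inter (isOpen_lt continuous_const Complex.continuous_re)).mem_nhds ⟨ht, by change b - d < t.re; linarith⟩
      have h2 : DifferentiableAt ℂ JR t := hR.differentiableAt hV
      refine (h2.congr_of_eventuallyEq ?_).differentiableWithinAt
      filter_upwards [hV] with s hs
      exact e3 s hs.1 hs.2

/-- functions on the strips `|Im t - y| < δ` which are equal to `J₀` for `X₁ < Re t < X₂` give one function on the half plane -/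
theorem glue_full {ρ δ X₁ X₂ : ℝ} (hδ : 0 < δ) (hX : X₁ < X₂) {J₀ : ℂ → ℂ} {b : ℂ → ℝ}
    (hJ : ∀ y : ℝ, ρ < y → ∃ J : ℂ → ℂ, DifferentiableOn ℂ J {t | |t.im - y| < δ ∧ ρ < t.im} ∧
      (∀ t : ℂ, X₁ < t.re → t.re < X₂ → |t.im - y| < δ → ρ < t.im → J t = J₀ t) ∧
      ∀ t : ℂ, |t.im - y| < δ → ρ < t.im → ‖J t‖ ≤ b t) :
    ∃ J : ℂ → ℂ, DifferentiableOn ℂ J {t | ρ < t.im} ∧ (∀ t : ℂ, X₁ < t.re → t.re < X₂ → ρ < t.im → J t = J₀ t) ∧
      ∀ t : ℂ, ρ < t.im → ‖J t‖ ≤ b t := by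
  choose! Jy hJy1 hJy2 hJy3 using hJ
  have hagree : ∀ y y' : ℝ, ρ < y → ρ < y' → ∀ t : ℂ, |t.im - y| < δ → |t.im - y'| < δ → ρ < t.im → Jy y t = Jy y' t := by
    intro y y' hy hy' t h2 h3 h4
    set V : Set ℂ := {t : ℂ | t.im < min (y + δ) (y' + δ)} ∩ {t : ℂ | max ρ (max (y - δ) (y' - δ)) < t.im} with hV
    have hVc : Convex ℝ V := (convex_halfSpace_im_lt _).inter (convex_halfSpace_im_gt _)
    have hVo : IsOpen V := (isOpen_lt Complex.continuous_im continuous_const).inter (isOpen_lt continuous_const Complex.continuous_im)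
    have hVm : ∀ s ∈ V, |s.im - y| < δ ∧ |s.im - y'| < δ ∧ ρ < s.im := by
      rintro s ⟨h5, h6⟩
      have h5' : s.im < min (y + δ) (y' + δ) := h5
      have h6' : max ρ (max (y - δ) (y' - δ)) < s.im := h6
      rw [lt_min_iff] at h5'
      rw [max_lt_iff, max_lt_iff] at h6'
      refine ⟨?_, ?_, h6'.1⟩ <;> rw [abs_lt] <;> constructor <;> linarith
    have htV : t ∈ V := by
      rw [abs_lt] at h2 h3
      refine ⟨?_, ?_⟩
      · change t.im < min (y + δ) (y' + δ)
        rw [lt_min_iff]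
        constructor <;> linarith
      · change max ρ (max (y - δ) (y' - δ)) < t.im
        rw [max_lt_iff, max_lt_iff]
        refine ⟨h4, ?_, ?_⟩ <;> linarith
    have ha1 : AnalyticOnNhd ℂ (Jy y) V := ((hJy1 y hy).mono fun s hs => ⟨(hVm s hs).1, (hVm s hs).2.2⟩).analyticOnNhd hVo
    have ha2 : AnalyticOnNhd ℂ (Jy y') V := ((hJy1 y' hy').mono fun s hs => ⟨(hVm s hs).2.1, (hVm s hs).2.2⟩).analyticOnNhd hVo
    set t₁ : ℂ := ⟨(X₁ + X₂) / 2, t.im⟩ with ht₁
    have ht₁V : t₁ ∈ V := htV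
    have hev : Jy y =ᶠ[𝓝 t₁] Jy y' := by
      have h7 : V ∩ ({s : ℂ | X₁ < s.re} ∩ {s : ℂ | s.re < X₂}) ∈ 𝓝 t₁ := by
        refine (hVo.inter ((isOpen_lt continuous_const Complex.continuous_re).inter (isOpen_lt Complex.continuous_re continuous_const))).mem_nhds ⟨ht₁V, ?_, ?_⟩
        · change X₁ < (X₁ + X₂) / 2
          linarith
        · change (X₁ + X₂) / 2 < X₂
          linarith
      filter_upwards [h7] with s hs
      obtain ⟨h8, h9, h10⟩ := hVm s hs.1
      rw [hJy2 y hy s hs.2.1 hs.2.2 h8 h10, hJy2 y' hy' s hs.2.1 hs.2.2 h9 h10]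
    exact ha1.eqOn_of_preconnected_of_eventuallyEq ha2 hVc.isPreconnected ht₁V hev htV
  have hself : ∀ t : ℂ, |t.im - t.im| < δ := fun t => by rw [sub_self, abs_zero]; exact hδ
  refine ⟨fun t => Jy t.im t, fun t ht => ?_, fun t h1 h2 h3 => hJy2 t.im h3 t h1 h2 (hself t) h3, fun t ht => hJy3 t.im ht t (hself t) ht⟩
  have ht' : ρ < t.im := ht
  have hV : {s : ℂ | |s.im - t.im| < δ ∧ ρ < s.im} ∈ 𝓝 t := by
    refine ((isOpen_lt (Complex.continuous_im.sub continuous_const).abs continuous_const).inter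
      (isOpen_lt continuous_const Complex.continuous_im)).mem_nhds ⟨hself t, ht'⟩
  have h1 : DifferentiableAt ℂ (Jy t.im) t := (hJy1 t.im ht').differentiableAt hV
  refine (h1.congr_of_eventuallyEq ?_).differentiableWithinAt
  filter_upwards [hV] with s hs
  exact hagree s.im t.im hs.2 ht' s (hself s) hs.1 hs.2

end Pool.Agent.H87.JZ
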