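import Pool.Agent.EG.RSQ.Q
import Pool.Agent.EG.TM.Defs

/-!
# JZ HBound: the coordinate of a section in a cell has linear growth
-/

set_option autoImplicit false

open Topology Filter Metric Set

namespace Pool.Agent.H87.JZ

open Pool.Agent.EG.RS Pool.Agent.EG.RSQ Pool.Agent.EG.TM
open Pool.Agent.TC (ev grad OnV IsSec nv)
open Pool.Agent.H36.BP (EN fs wd)

variable {n : ℕ} {Q : Fin (n + 2) → MvPolynomial (Fin (n + 3)) ℂ} {e : Fin (n + 2) → ℕ}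

/-- on the ball of radius `r` the curve `x` is the curve `h` in the cell `(i, μ)`, and stays in the part `C` of the bidisc -/
def DatX (C : ℂ × ℂ → Prop) (L : LeftEnd Q e) (x : ℂ → EN (n + 2)) (i : L.ι) (μ : ℂ) (h : ℂ → ℂ) (t₁ : ℂ) (r : ℝ) : Prop :=
  L.M.k i * μ ^ L.M.a i = 1 ∧ DifferentiableOn ℂ h (ball t₁ r) ∧
    ∀ t ∈ ball t₁ r, ‖Complex.exp t‖ ≤ L.M.ρ / 2 ∧ C (L.M.X i μ t (h t)) ∧ L.Fp i (L.M.X i μ t (h t)) ∧ x t = L.Xi i (L.M.X i μ t (h t))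

theorem DatX.mono {C : ℂ × ℂ → Prop} {L : LeftEnd Q e} {x : ℂ → EN (n + 2)} {i : L.ι} {μ : ℂ} {h : ℂ → ℂ} {t₁ t₂ : ℂ} {r r' : ℝ} (hd : DatX C L x i μ h t₁ r)
    (hs : ball t₂ r' ⊆ ball t₁ r) : DatX C L x i μ h t₂ r' :=
  ⟨hd.1, hd.2.1.mono hs, fun t ht => hd.2.2 t (hs ht)⟩

theorem DatX.exp_lt {C : ℂ × ℂ → Prop} {L : LeftEnd Q e} {x : ℂ → EN (n + 2)} {i : L.ι} {μ : ℂ} {h : ℂ → ℂ} {t₁ : ℂ} {r : ℝ} (hd : DatX C L x i μ h t₁ r)
    {t : ℂ} (ht : t ∈ ball t₁ r) : ‖Complex.exp t‖ < L.M.ρ := by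
  have h1 := (hd.2.2 t ht).1
  have h2 := L.M.ρ_pos
  linarith

theorem DatX.analyticAt {C : ℂ × ℂ → Prop} {L : LeftEnd Q e} {x : ℂ → EN (n + 2)} {i : L.ι} {μ : ℂ} {h : ℂ → ℂ} {t₁ : ℂ} {r : ℝ} (hd : DatX C L x i μ h t₁ r)
    {t : ℂ} (ht : t ∈ ball t₁ r) : AnalyticAt ℂ h t := hd.2.1.analyticAt (isOpen_ball.mem_nhds ht)

/-- the primitive along the curve is holomorphic -/
theorem DatX.P_diff {C : ℂ × ℂ → Prop} (hC : ∀ p, C p → Cen p) {L : LeftEnd Q e} {x : ℂ → EN (n + 2)} {i : L.ι} {μ : ℂ} {h : ℂ → ℂ} {t₁ : ℂ} {r : ℝ} (hd : DatX C L x i μ h t₁ r) :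
    DifferentiableOn ℂ (fun t => L.M.P i μ t (h t)) (ball t₁ r) := fun t ht =>
  (P_an L.M hd.1 (hd.exp_lt ht) (hd.analyticAt ht) (Pool.Agent.EG.RSQ.cen_ball (hC _ (hd.2.2 t ht).2.1))).differentiableAt.differentiableWithinAt

theorem DatX.P_le {C : ℂ × ℂ → Prop} (hC : ∀ p, C p → Cen p) {L : LeftEnd Q e} {x : ℂ → EN (n + 2)} {i : L.ι} {μ : ℂ} {h : ℂ → ℂ} {t₁ : ℂ} {r : ℝ} (hd : DatX C L x i μ h t₁ r)
    {t : ℂ} (ht : t ∈ ball t₁ r) : ‖L.M.P i μ t (h t)‖ ≤ |L.C₀| * ‖h t‖ :=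
  (Pool.Agent.EG.RSQ.P_le L.bphi hd.1 (Pool.Agent.EG.RSQ.cen_ball (hC _ (hd.2.2 t ht).2.1)) (hd.exp_lt ht)).trans
    (mul_le_mul_of_nonneg_right (le_abs_self _) (norm_nonneg _))

private theorem HBound_shift (L : LeftEnd Q e) {i : L.ι} (hb : L.M.b i = 1) (μ t h : ℂ) (m : ℤ) :
    L.M.X i μ t (h + m * (2 * Real.pi * Complex.I)) = L.M.X i μ t h := by
  unfold Atl.X
  rw [L.a_eq, hb]
  have h1 : Complex.exp ((t - ((1 : ℕ) : ℂ) * (h + m * (2 * Real.pi * Complex.I))) / ((1 : ℕ) : ℂ)) =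
      Complex.exp ((t - ((1 : ℕ) : ℂ) * h) / ((1 : ℕ) : ℂ)) := by
    rw [Nat.cast_one, div_one, div_one, one_mul, one_mul]
    have h2 : t - (h + m * (2 * Real.pi * Complex.I)) = (t - h) + ((-m : ℤ) : ℂ) * (2 * Real.pi * Complex.I) := by
      push_cast
      ring
    rw [h2, Complex.exp_add, Complex.exp_int_mul_two_pi_mul_I, mul_one]
  have h3 : yb 1 (h + m * (2 * Real.pi * Complex.I)) = yb 1 h := by
    unfold yb
    rw [if_neg one_ne_zero, if_neg one_ne_zero, Complex.exp_add, Complex.exp_int_mul_two_pi_mul_I, mul_one]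
  rw [h1, h3]

private theorem HBound_re (L : LeftEnd Q e) : ∃ B : ℝ, 0 ≤ B ∧ ∀ (i : L.ι) (μ t h : ℂ), L.M.b i = 1 → L.M.k i * μ ^ L.M.a i = 1 →
    Cen (L.M.X i μ t h) → |h.re| ≤ |t.re| + B := by
  have := L.fin
  have h1 : (Set.range fun i => |Real.log (‖L.M.k i‖ / 2)|).Finite := Set.finite_range _
  obtain ⟨B, hB⟩ := h1.bddAbove
  refine ⟨max B 0, le_max_right _ _, fun i μ t h hb hμ hc => ?_⟩
  have hB' : |Real.log (‖L.M.k i‖ / 2)| ≤ B := hB ⟨i, rfl⟩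
  have hk : 0 < ‖L.M.k i‖ := norm_pos_iff.2 (k_ne L.M i)
  rw [L.a_eq, pow_one] at hμ
  have hμn : ‖L.M.k i‖ * ‖μ‖ = 1 := by rw [← norm_mul, hμ, norm_one]
  have hx : ‖μ * Complex.exp ((t - (L.M.b i : ℂ) * h) / (L.M.a i : ℂ))‖ < 1 / 2 := hc.1
  have hy : ‖yb (L.M.b i) h‖ < 1 := hc.2
  rw [hb] at hx hy
  rw [L.a_eq, Nat.cast_one, div_one, one_mul, norm_mul, Complex.norm_exp, Complex.sub_re] at hx
  unfold yb at hy
  rw [if_neg one_ne_zero, Complex.norm_exp] at hy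
  have h2 : h.re < 0 := by
    rw [← Real.exp_zero] at hy
    exact Real.exp_lt_exp.1 hy
  have h3 : Real.exp (t.re - h.re) < ‖L.M.k i‖ / 2 := by
    have h4 : ‖L.M.k i‖ * (‖μ‖ * Real.exp (t.re - h.re)) < ‖L.M.k i‖ * (1 / 2) := mul_lt_mul_of_pos_left hx hk
    rw [← mul_assoc, hμn, one_mul] at h4
    linarith
  have h5 : t.re - h.re < Real.log (‖L.M.k i‖ / 2) := by
    rw [← Real.log_exp (t.re - h.re)]
    exact Real.log_lt_log (Real.exp_pos _) h3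
  have h6 := le_abs_self (Real.log (‖L.M.k i‖ / 2))
  have h7 := neg_abs_le t.re
  have h8 := le_max_left B 0
  rw [abs_of_neg h2]
  linarith

/-- a normalised cell with linear growth -/
theorem exists_hbound (L : LeftEnd Q e) : ∃ A : ℝ, 0 < A ∧ ∀ (C : ℂ × ℂ → Prop), (∀ p, C p → Cen p) →
    ∀ (x : ℂ → EN (n + 2)) (i : L.ι) (μ : ℂ) (h : ℂ → ℂ) (t₁ : ℂ), DatX C L x i μ h t₁ 4 →
    ∃ h' : ℂ → ℂ, DatX C L x i μ h' t₁ 4 ∧ ∀ t ∈ closedBall t₁ 2, ‖h' t‖ ≤ A * (1 + ‖t₁‖) := by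
  obtain ⟨B, hB0, hB⟩ := HBound_re L
  refine ⟨5 * (B + 5) + 3 * Real.pi + 1, by positivity, fun C hC x i μ h t₁ hd => ?_⟩
  have hπ := Real.pi_pos
  have hnn := norm_nonneg t₁
  rcases Nat.eq_zero_or_pos (L.M.b i) with hb | hb
  · refine ⟨h, hd, fun t ht => ?_⟩
    have ht' : t ∈ ball t₁ 4 := closedBall_subset_ball (by norm_num) ht
    have h1 : ‖yb (L.M.b i) (h t)‖ < 1 := (hC _ (hd.2.2 t ht').2.1).2
    rw [hb] at h1
    unfold yb at h1
    rw [if_pos rfl] at h1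
    have h2 : 1 ≤ (5 * (B + 5) + 3 * Real.pi + 1) * (1 + ‖t₁‖) := by
      have h3 : 0 ≤ (5 * (B + 5) + 3 * Real.pi + 1) * ‖t₁‖ := by positivity
      have h4 : 0 ≤ 5 * (B + 5) + 3 * Real.pi := by positivity
      linarith [mul_add (5 * (B + 5) + 3 * Real.pi + 1) 1 ‖t₁‖]
    linarith
  · have hb1 : L.M.b i = 1 := le_antisymm (L.b_le i) hb
    -- shift
    obtain ⟨m, hm⟩ : ∃ m : ℤ, |(h t₁ + m * (2 * Real.pi * Complex.I)).im| ≤ Real.pi := by
      refine ⟨-round ((h t₁).im / (2 * Real.pi)), ?_⟩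
      have h1 := abs_sub_round ((h t₁).im / (2 * Real.pi))
      have h2 : (h t₁ + ((-round ((h t₁).im / (2 * Real.pi)) : ℤ) : ℂ) * (2 * Real.pi * Complex.I)).im =
          ((h t₁).im / (2 * Real.pi) - round ((h t₁).im / (2 * Real.pi))) * (2 * Real.pi) := by
        have h3 : ((-round ((h t₁).im / (2 * Real.pi)) : ℤ) : ℂ) * (2 * Real.pi * Complex.I) =
            ((-(round ((h t₁).im / (2 * Real.pi)) : ℝ) * (2 * Real.pi) : ℝ) : ℂ) * Complex.I := by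
          push_cast
          ring
        rw [h3, Complex.add_im, Complex.mul_I_im, Complex.ofReal_re, sub_mul, div_mul_cancel₀ _ (by positivity)]
        ring
      rw [h2, abs_mul, abs_of_pos (show 0 < 2 * Real.pi by positivity)]
      nlinarith
    set h' : ℂ → ℂ := fun t => h t + m * (2 * Real.pi * Complex.I) with hh'
    have hd' : DatX C L x i μ h' t₁ 4 := by
      refine ⟨hd.1, hd.2.1.add_const _, fun t ht => ?_⟩
      have h1 : L.M.X i μ t (h' t) = L.M.X i μ t (h t) := HBound_shift L hb1 μ t (h t) m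
      rw [h1]
      exact hd.2.2 t ht
    refine ⟨h', hd', fun t ht => ?_⟩
    set A : ℝ := |t₁.re| + 4 + B + 1 with hA
    have hA0 : 0 < A := by positivity
    have hre : ∀ s ∈ ball t₁ 4, |(h' s).re| ≤ A := by
      intro s hs
      have h1 := hB i μ s (h' s) hb1 hd'.1 (hC _ (hd'.2.2 s hs).2.1)
      have h2 : |s.re| ≤ |t₁.re| + 4 := by
        have h3 : |(s - t₁).re| ≤ 4 := (Complex.abs_re_le_norm _).trans (by rw [← dist_eq_norm]; exact (mem_ball.1 hs).le)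
        rw [Complex.sub_re] at h3
        have h4 : |s.re| ≤ |s.re - t₁.re| + |t₁.re| := by
          have := abs_add_le (s.re - t₁.re) t₁.re
          rwa [sub_add_cancel] at this
        linarith
      rw [hA]
      linarith
    -- Borel-Caratheodory
    set F : ℂ → ℂ := fun z => -h' (t₁ + z) with hF
    have hmem : ∀ z ∈ ball (0 : ℂ) 4, t₁ + z ∈ ball t₁ 4 := by
      intro z hz
      rw [mem_ball, dist_eq_norm, add_sub_cancel_left]
      exact mem_ball_zero_iff.1 hz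
    have hFd : DifferentiableOn ℂ F (ball 0 4) := by
      refine DifferentiableOn.neg ?_
      exact hd'.2.1.comp (by fun_prop) hmem
    have hFm : Set.MapsTo F (ball 0 4) {z | z.re ≤ A} := by
      intro z hz
      change (-h' (t₁ + z)).re ≤ A
      rw [Complex.neg_re]
      have := hre _ (hmem z hz)
      rw [abs_le] at this
      linarith [this.1]
    have hz : ‖t - t₁‖ ≤ 2 := by
      rw [← dist_eq_norm]
      exact mem_closedBall.1 ht
    have hzb : t - t₁ ∈ ball (0 : ℂ) 4 := mem_ball_zero_iff.2 (by linarith)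
    have hBC := Complex.borelCaratheodory hA0 hFd hFm (by norm_num) hzb
    have hF0 : ‖F 0‖ ≤ A + Real.pi := by
      rw [hF]
      simp only [add_zero, norm_neg]
      refine (Complex.norm_le_abs_re_add_abs_im _).trans (add_le_add ?_ hm)
      exact hre t₁ (mem_ball_self (by norm_num))
    have hFt : F (t - t₁) = -h' t := by
      rw [hF]
      simp only [add_sub_cancel]
    rw [hFt, norm_neg] at hBC
    have hden : 0 < 4 - ‖t - t₁‖ := by linarith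
    have hb1' : 2 * A * ‖t - t₁‖ / (4 - ‖t - t₁‖) ≤ 2 * A := by
      rw [div_le_iff₀ hden]
      nlinarith
    have hb2 : ‖F 0‖ * (4 + ‖t - t₁‖) / (4 - ‖t - t₁‖) ≤ 3 * ‖F 0‖ := by
      rw [div_le_iff₀ hden]
      nlinarith [norm_nonneg (F 0)]
    have hre1 : |t₁.re| ≤ ‖t₁‖ := Complex.abs_re_le_norm _
    have hfin : ‖h' t‖ ≤ 5 * A + 3 * Real.pi := by linarith
    refine hfin.trans ?_
    rw [hA]
    have e1 : (5 * (B + 5) + 3 * Real.pi + 1) * (1 + ‖t₁‖) = 5 * (B + 5) + 3 * Real.pi + 1 + (5 * B + 3 * Real.pi + 26) * ‖t₁‖ := by ring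
    rw [e1]
    have e2 : 5 * ‖t₁‖ ≤ (5 * B + 3 * Real.pi + 26) * ‖t₁‖ := mul_le_mul_of_nonneg_right (by linarith) hnn
    linarith

end Pool.Agent.H87.JZ
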