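import Mathlib

/-!
# JZero: a holomorphic function on a half plane which is exponentially small on the boundary line is zero

`jzero_right`: `f` on `{Re z ≥ 0}`, of order `< 2`, at most exponential on the positive real axis, `‖f (i x)‖ ≤ C exp (-a |x|)`.  Multiply by `exp (-β (z + 1) log (z + 1))`, `β = 2 a / π`: the modulus is at most `exp (a |Im z|)` on the half plane, and it decays
super-exponentially on the positive real axis; apply `PhragmenLindelof.eq_zero_on_right_half_plane_of_superexponential_decay`.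
`jzero_up`: the same on the half plane `{Im z ≥ ρ}`.
-/

set_option autoImplicit false

open Topology Filter Metric Complex Asymptotics Bornology

namespace Pool.Agent.H87.JZ

/-- the multiplier -/
private noncomputable def E (β : ℝ) (z : ℂ) : ℂ := Complex.exp (-(β : ℂ) * ((z + 1) * Complex.log (z + 1)))

private theorem re_mul_log {z : ℂ} : ((z + 1) * Complex.log (z + 1)).re = (z.re + 1) * Real.log ‖z + 1‖ - z.im * Complex.arg (z + 1) := by
  rw [Complex.mul_re, Complex.log_re, Complex.log_im]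
  simp

private theorem norm_E (β : ℝ) (z : ℂ) : ‖E β z‖ = Real.exp (-β * ((z.re + 1) * Real.log ‖z + 1‖ - z.im * Complex.arg (z + 1))) := by
  unfold E
  rw [Complex.norm_exp]
  congr 1
  rw [← re_mul_log]
  have : (-(β : ℂ) * ((z + 1) * Complex.log (z + 1))) = ((-β : ℝ) : ℂ) * ((z + 1) * Complex.log (z + 1)) := by push_cast; ring
  rw [this, Complex.re_ofReal_mul]

private theorem norm_E_le {β : ℝ} (hβ : 0 ≤ β) {z : ℂ} (hz : 0 ≤ z.re) : ‖E β z‖ ≤ Real.exp (β * (Real.pi / 2) * |z.im|) := by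
  rw [norm_E]
  refine Real.exp_le_exp.2 ?_
  have h1 : (1 : ℝ) ≤ ‖z + 1‖ := by
    have h2 : (z + 1).re ≤ ‖z + 1‖ := Complex.re_le_norm _
    simp at h2
    linarith
  have h2 : 0 ≤ (z.re + 1) * Real.log ‖z + 1‖ := mul_nonneg (by linarith) (Real.log_nonneg h1)
  have h3 : |Complex.arg (z + 1)| ≤ Real.pi / 2 := Complex.abs_arg_le_pi_div_two_iff.2 (by simp; linarith)
  have h4 : z.im * Complex.arg (z + 1) ≤ |z.im| * (Real.pi / 2) := by
    calc z.im * Complex.arg (z + 1) ≤ |z.im * Complex.arg (z + 1)| := le_abs_self _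
      _ = |z.im| * |Complex.arg (z + 1)| := abs_mul _ _
      _ ≤ _ := mul_le_mul_of_nonneg_left h3 (abs_nonneg _)
  nlinarith [mul_le_mul_of_nonneg_left h4 hβ, mul_nonneg hβ h2]

private theorem diff_E (β : ℝ) : DifferentiableOn ℂ (E β) {z | 0 ≤ z.re} := by
  intro z hz
  have h1 : z + 1 ∈ Complex.slitPlane := by
    left
    have : 0 ≤ z.re := hz
    simp
    linarith
  have h2 : DifferentiableAt ℂ (fun z : ℂ => Complex.log (z + 1)) z := (differentiableAt_id.add_const 1).clog h1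
  exact (((differentiableAt_const (-(β : ℂ))).mul ((differentiableAt_id.add_const 1).mul h2)).cexp).differentiableWithinAt

private theorem closure_right : closure {z : ℂ | 0 < z.re} = {z | 0 ≤ z.re} := Complex.closure_setOfPred_lt_re 0

theorem jzero_right {f : ℂ → ℂ} (hd : DiffContOnCl ℂ f {z | 0 < z.re})
    (hexp : ∃ c < (2 : ℝ), ∃ B, f =O[cobounded ℂ ⊓ 𝓟 {z | 0 < z.re}] fun z => Real.exp (B * ‖z‖ ^ c))
    (hre : ∃ B : ℝ, ∀ᶠ x : ℝ in atTop, ‖f x‖ ≤ Real.exp (B * x)) {a C : ℝ} (ha : 0 < a)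
    (him : ∀ x : ℝ, ‖f (x * I)‖ ≤ C * Real.exp (-a * |x|)) : Set.EqOn f 0 {z : ℂ | 0 ≤ z.re} := by
  set β : ℝ := 2 * a / Real.pi with hβdef
  have hpi := Real.pi_pos
  have hβ : 0 < β := by positivity
  have hβa : β * (Real.pi / 2) = a := by
    rw [hβdef]
    field_simp
  have hC : 0 ≤ C := by
    have h1 := him 0
    simp at h1
    exact (norm_nonneg _).trans h1
  set G : ℂ → ℂ := fun z => E β z * f z with hG
  have hE0 : ∀ z, E β z ≠ 0 := fun z => Complex.exp_ne_zero _
  have key : Set.EqOn G 0 {z : ℂ | 0 ≤ z.re} := by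
    refine PhragmenLindelof.eq_zero_on_right_half_plane_of_superexponential_decay ?_ ?_ ?_ ?_
    · have h1 : DiffContOnCl ℂ (E β) {z : ℂ | 0 < z.re} :=
        DifferentiableOn.diffContOnCl (by rw [closure_right]; exact diff_E β)
      exact h1.smul hd
    · obtain ⟨c, hc, B, hB⟩ := hexp
      refine ⟨max c 1, max_lt hc (by norm_num), |B| + a, ?_⟩
      obtain ⟨M, hM⟩ := hB.bound
      refine IsBigO.of_bound M ?_
      have h1 : ∀ᶠ z : ℂ in cobounded ℂ ⊓ 𝓟 {z | 0 < z.re}, 1 ≤ ‖z‖ := by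
        refine Filter.Eventually.filter_mono inf_le_left ?_
        exact (tendsto_norm_cobounded_atTop (E := ℂ)).eventually_ge_atTop 1
      have h2 : ∀ᶠ z : ℂ in cobounded ℂ ⊓ 𝓟 {z | 0 < z.re}, 0 < z.re :=
        Filter.Eventually.filter_mono inf_le_right (mem_principal_self _)
      filter_upwards [hM, h1, h2] with z hz hz1 hz2
      rw [hG]
      simp only
      rw [norm_mul]
      have h3 := norm_E_le hβ.le hz2.le
      rw [hβa] at h3
      have h4 : ‖E β z‖ ≤ Real.exp (a * ‖z‖) := h3.trans (Real.exp_le_exp.2 (mul_le_mul_of_nonneg_left (Complex.abs_im_le_norm z) ha.le))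
      have h5 : ‖z‖ ≤ ‖z‖ ^ (max c 1) := by
        calc ‖z‖ = ‖z‖ ^ (1 : ℝ) := (Real.rpow_one _).symm
          _ ≤ _ := Real.rpow_le_rpow_of_exponent_le hz1 (le_max_right _ _)
      have h6 : ‖z‖ ^ c ≤ ‖z‖ ^ (max c 1) := Real.rpow_le_rpow_of_exponent_le hz1 (le_max_left _ _)
      have h7 : 0 ≤ ‖z‖ ^ c := Real.rpow_nonneg (norm_nonneg _) _
      rw [Real.norm_of_nonneg (Real.exp_pos _).le] at hz ⊢
      have hM0 : 0 ≤ M := by
        by_contra h8
        push Not at h8
        have h9 : 0 ≤ ‖f z‖ := norm_nonneg _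
        have h10 : M * Real.exp (B * ‖z‖ ^ c) < 0 := mul_neg_of_neg_of_pos h8 (Real.exp_pos _)
        linarith
      calc ‖E β z‖ * ‖f z‖ ≤ Real.exp (a * ‖z‖) * (M * Real.exp (B * ‖z‖ ^ c)) :=
            mul_le_mul h4 hz (norm_nonneg _) (Real.exp_pos _).le
        _ = M * Real.exp (a * ‖z‖ + B * ‖z‖ ^ c) := by rw [Real.exp_add]; ring
        _ ≤ M * Real.exp ((|B| + a) * ‖z‖ ^ (max c 1)) := by
          refine mul_le_mul_of_nonneg_left (Real.exp_le_exp.2 ?_) hM0
          have h8 : B * ‖z‖ ^ c ≤ |B| * ‖z‖ ^ (max c 1) :=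
            (mul_le_mul_of_nonneg_right (le_abs_self B) h7).trans (mul_le_mul_of_nonneg_left h6 (abs_nonneg B))
          have h9 : a * ‖z‖ ≤ a * ‖z‖ ^ (max c 1) := mul_le_mul_of_nonneg_left h5 ha.le
          linarith
    · intro m
      obtain ⟨B, hB⟩ := hre
      have h1 : Tendsto (fun x : ℝ => Real.exp (-x)) atTop (𝓝 0) := Real.tendsto_exp_neg_atTop_nhds_zero
      have h2 : ∀ᶠ x : ℝ in atTop, Real.exp x ^ m * ‖G x‖ ≤ Real.exp (-x) := by
        have h3 : Tendsto (fun x : ℝ => β * Real.log (x + 1)) atTop atTop :=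
          (Real.tendsto_log_atTop.comp (tendsto_atTop_add_const_right _ 1 tendsto_id)).const_mul_atTop hβ
        filter_upwards [hB, h3.eventually_ge_atTop (m + |B| + 1), eventually_ge_atTop (0 : ℝ)] with x hx hx2 hx0
        rw [hG]
        simp only
        rw [norm_mul, norm_E]
        have h4 : ‖(x : ℂ) + 1‖ = x + 1 := by
          have : (x : ℂ) + 1 = ((x + 1 : ℝ) : ℂ) := by push_cast; ring
          rw [this, Complex.norm_real, Real.norm_of_nonneg (by linarith)]
        rw [h4]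
        simp only [Complex.ofReal_re, Complex.ofReal_im, zero_mul, sub_zero]
        rw [← Real.exp_nat_mul]
        calc Real.exp (m * x) * (Real.exp (-β * ((x + 1) * Real.log (x + 1))) * ‖f x‖)
            ≤ Real.exp (m * x) * (Real.exp (-β * ((x + 1) * Real.log (x + 1))) * Real.exp (B * x)) := by gcongr
          _ = Real.exp (m * x + B * x - (x + 1) * (β * Real.log (x + 1))) := by
            rw [← Real.exp_add, ← Real.exp_add]
            congr 1
            ring
          _ ≤ Real.exp (-x) := by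
            refine Real.exp_le_exp.2 ?_
            have h5 : B * x ≤ |B| * x := mul_le_mul_of_nonneg_right (le_abs_self B) hx0
            have h6 : (x + 1) * (m + |B| + 1) ≤ (x + 1) * (β * Real.log (x + 1)) := mul_le_mul_of_nonneg_left hx2 (by linarith)
            have h7 : 0 ≤ |B| := abs_nonneg B
            have h8 : (0 : ℝ) ≤ m := Nat.cast_nonneg m
            nlinarith
      refine squeeze_zero' (Eventually.of_forall fun x => mul_nonneg (pow_nonneg (Real.exp_pos _).le _) (norm_nonneg _)) h2 h1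
    · refine ⟨C, fun x => ?_⟩
      rw [hG]
      simp only
      rw [norm_mul]
      have h3 := norm_E_le hβ.le (z := (x : ℂ) * I) (by simp)
      rw [hβa] at h3
      have h4 : |((x : ℂ) * I).im| = |x| := by simp
      rw [h4] at h3
      calc ‖E β (x * I)‖ * ‖f (x * I)‖ ≤ Real.exp (a * |x|) * (C * Real.exp (-a * |x|)) :=
            mul_le_mul h3 (him x) (norm_nonneg _) (Real.exp_pos _).le
        _ = C * (Real.exp (a * |x|) * Real.exp (-a * |x|)) := by ring
        _ = C := by rw [← Real.exp_add]; simp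
  intro z hz
  have h1 := key hz
  rw [hG] at h1
  simp only [Pi.zero_apply] at h1 ⊢
  exact (mul_eq_zero.1 h1).resolve_left (hE0 z)

/-- the same lemma on the upper half plane `{Im z ≥ ρ}` -/
theorem jzero_up {f : ℂ → ℂ} {ρ ρ' : ℝ} (hρ : ρ < ρ') (hd : DifferentiableOn ℂ f {z | ρ < z.im})
    (hexp : ∃ q < (2 : ℝ), ∃ B R : ℝ, ∀ z : ℂ, ρ < z.im → R ≤ ‖z‖ → ‖f z‖ ≤ Real.exp (B * ‖z‖ ^ q))
    (hver : ∃ x₀ B : ℝ, ∀ᶠ y : ℝ in atTop, ‖f ⟨x₀, y⟩‖ ≤ Real.exp (B * y)) {a C : ℝ} (ha : 0 < a)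
    (hhor : ∀ x : ℝ, ‖f ⟨x, ρ'⟩‖ ≤ C * Real.exp (-a * |x|)) : ∀ z : ℂ, ρ' ≤ z.im → f z = 0 := by
  obtain ⟨x₀, B₀, hB₀⟩ := hver
  set φ : ℂ → ℂ := fun w => ⟨x₀, ρ'⟩ + I * w with hφ
  have hφim : ∀ w, (φ w).im = ρ' + w.re := by
    intro w
    rw [hφ]
    simp
  have hφre : ∀ w, (φ w).re = x₀ - w.im := by
    intro w
    rw [hφ]
    simp [sub_eq_add_neg]
  have hφd : Differentiable ℂ φ := by
    rw [hφ]
    fun_prop
  have hmaps : ∀ w : ℂ, 0 ≤ w.re → ρ < (φ w).im := fun w hw => by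
    rw [hφim]
    linarith
  have hopen : IsOpen {z : ℂ | ρ < z.im} := isOpen_lt continuous_const Complex.continuous_im
  have hdiff : ∀ w : ℂ, 0 ≤ w.re → DifferentiableAt ℂ (fun w => f (φ w)) w := fun w hw =>
    ((hd _ (hmaps w hw)).differentiableAt (hopen.mem_nhds (hmaps w hw))).comp w (hφd w)
  have key := jzero_right (f := fun w => f (φ w)) (a := a) (C := C * Real.exp (a * |x₀|))
    (DifferentiableOn.diffContOnCl (by
      rw [closure_right]
      exact fun w hw => (hdiff w hw).differentiableWithinAt))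
    (by
      obtain ⟨q, hq, B, R, hB⟩ := hexp
      refine ⟨max q 0, max_lt hq (by norm_num), |B| * 2 ^ (max q 0), ?_⟩
      refine IsBigO.of_bound 1 ?_
      set P : ℂ := ⟨x₀, ρ'⟩ with hP
      have h1 : ∀ᶠ z : ℂ in cobounded ℂ ⊓ 𝓟 {z | 0 < z.re}, |R| + ‖P‖ + 1 ≤ ‖z‖ := by
        refine Filter.Eventually.filter_mono inf_le_left ?_
        exact (tendsto_norm_cobounded_atTop (E := ℂ)).eventually_ge_atTop _
      have h2 : ∀ᶠ z : ℂ in cobounded ℂ ⊓ 𝓟 {z | 0 < z.re}, 0 < z.re :=
        Filter.Eventually.filter_mono inf_le_right (mem_principal_self _)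
      filter_upwards [h1, h2] with w hw hw2
      have hPn : 0 ≤ ‖P‖ := norm_nonneg _
      have hR0 : 0 ≤ |R| := abs_nonneg _
      have hRR : R ≤ |R| := le_abs_self _
      have h3 : ‖φ w‖ ≤ 2 * ‖w‖ := by
        have h4 : ‖φ w‖ ≤ ‖P‖ + ‖I * w‖ := norm_add_le _ _
        rw [norm_mul, Complex.norm_I, one_mul] at h4
        linarith
      have h4 : ‖w‖ - ‖P‖ ≤ ‖φ w‖ := by
        have h5 : ‖I * w‖ ≤ ‖φ w‖ + ‖P‖ := by
          have h6 : I * w = φ w - P := by
            rw [hφ]
            ring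
          rw [h6]
          exact norm_sub_le _ _
        rw [norm_mul, Complex.norm_I, one_mul] at h5
        linarith
      have h5 := hB (φ w) (hmaps w hw2.le) (by linarith)
      rw [one_mul, Real.norm_of_nonneg (Real.exp_pos _).le]
      refine h5.trans (Real.exp_le_exp.2 ?_)
      have h6 : 1 ≤ ‖φ w‖ := by linarith
      have h7 : ‖φ w‖ ^ q ≤ ‖φ w‖ ^ (max q 0) := Real.rpow_le_rpow_of_exponent_le h6 (le_max_left _ _)
      have h8 : ‖φ w‖ ^ (max q 0) ≤ (2 * ‖w‖) ^ (max q 0) := Real.rpow_le_rpow (norm_nonneg _) h3 (le_max_right _ _)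
      rw [Real.mul_rpow (by norm_num) (norm_nonneg _)] at h8
      calc B * ‖φ w‖ ^ q ≤ |B| * ‖φ w‖ ^ q := mul_le_mul_of_nonneg_right (le_abs_self B) (Real.rpow_nonneg (norm_nonneg _) _)
        _ ≤ |B| * (2 ^ (max q 0) * ‖w‖ ^ (max q 0)) := mul_le_mul_of_nonneg_left (h7.trans h8) (abs_nonneg B)
        _ = _ := by ring)
    (by
      refine ⟨|B₀| * (|ρ'| + 1), ?_⟩
      have h1 : Tendsto (fun x : ℝ => ρ' + x) atTop atTop := tendsto_atTop_add_const_left _ _ tendsto_id
      filter_upwards [h1.eventually hB₀, eventually_ge_atTop (1 : ℝ)] with x hx hx1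
      have h2 : φ (x : ℂ) = ⟨x₀, ρ' + x⟩ := by
        apply Complex.ext
        · rw [hφre]
          simp
        · rw [hφim]
          simp
      rw [h2]
      refine hx.trans (Real.exp_le_exp.2 ?_)
      have h3 : |ρ' + x| ≤ (|ρ'| + 1) * x := by
        have h4 := abs_add_le ρ' x
        have h5 : |x| = x := abs_of_nonneg (by linarith)
        have h6 : |ρ'| ≤ |ρ'| * x := le_mul_of_one_le_right (abs_nonneg _) hx1
        nlinarith
      calc B₀ * (ρ' + x) ≤ |B₀ * (ρ' + x)| := le_abs_self _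
        _ = |B₀| * |ρ' + x| := abs_mul _ _
        _ ≤ |B₀| * ((|ρ'| + 1) * x) := mul_le_mul_of_nonneg_left h3 (abs_nonneg _)
        _ = _ := by ring)
    ha
    (by
      intro y
      have h2 : φ ((y : ℂ) * I) = ⟨x₀ - y, ρ'⟩ := by
        apply Complex.ext
        · rw [hφre]
          simp
        · rw [hφim]
          simp
      rw [h2]
      have hC : 0 ≤ C := by
        have h1 := hhor 0
        simp at h1
        exact (norm_nonneg _).trans h1
      refine (hhor _).trans ?_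
      rw [mul_assoc, ← Real.exp_add]
      refine mul_le_mul_of_nonneg_left (Real.exp_le_exp.2 ?_) hC
      have h3 : |y| ≤ |x₀ - y| + |x₀| := by
        have h4 := abs_sub (x₀) (x₀ - y)
        have h5 : x₀ - (x₀ - y) = y := by ring
        rw [h5] at h4
        linarith
      nlinarith)
  intro z hz
  have h1 := key (x := (z - ⟨x₀, ρ'⟩) / I) (by
    have h2 : ((z - ⟨x₀, ρ'⟩) / I).re = z.im - ρ' := by
      rw [Complex.div_I]
      simp
    simp only [Set.mem_ofPred_eq]
    rw [h2]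
    linarith)
  have h3 : φ ((z - ⟨x₀, ρ'⟩) / I) = z := by
    rw [hφ]
    simp only
    rw [mul_div_cancel₀ _ Complex.I_ne_zero]
    ring
  simp only [Pi.zero_apply] at h1
  rw [h3] at h1
  exact h1

end Pool.Agent.H87.JZ
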