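import Pool.Agent.H87.JZ.Swap
import Pool.Agent.H87.JZ.GlueFull
import Pool.Agent.H87.JZ.JZero

/-!
# JZ HalfJ: two sections on a half plane which are close for `|Re z| ≤ W` are equal
-/

set_option autoImplicit false

open Topology Filter Metric Set

namespace Pool.Agent.H87.JZ

open Pool.Agent.EG.RS Pool.Agent.EG.RSQ Pool.Agent.EG.TM
open Pool.Agent.TC (ev grad OnV IsSec nv HP continuous_nv)
open Pool.Agent.H36.BP (EN fs wd)

variable {n : ℕ} {Q : Fin (n + 2) → MvPolynomial (Fin (n + 3)) ℂ} {e : Fin (n + 2) → ℕ}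

theorem evs_eq {f g : ℂ → EN (n + 2)} {U : Set ℂ} (hf : IsSec Q f U) (hg : IsSec Q g U) {z : ℂ} (hz : z ∈ U) : evs Q (f z) = evs Q (g z) := by
  obtain ⟨a0, a1, a2⟩ := hf.2 z hz
  obtain ⟨b0, b1, b2⟩ := hg.2 z hz
  funext j
  unfold evs
  by_cases hj : 2 ≤ (j : ℕ)
  · rw [a2 j hj, b2 j hj]
  · have : j = 0 ∨ j = 1 := by
      rcases Nat.lt_or_ge (j : ℕ) 1 with h | h
      · left
        apply Fin.ext
        have h0 : ((0 : Fin (n + 2)) : ℕ) = 0 := rfl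
        omega
      · right
        apply Fin.ext
        have h0 : ((1 : Fin (n + 2)) : ℕ) = 1 := rfl
        omega
    rcases this with rfl | rfl
    · rw [a0, b0]
    · rw [a1, b1]

/-- the decay lemma in the form which is used here -/
theorem jzero_decay {J : ℂ → ℂ} {ρ B c : ℝ} (hB : 0 < B) (hc : 0 < c) (hd : DifferentiableOn ℂ J {z | ρ < z.im})
    (hb : ∀ z : ℂ, ρ < z.im → ‖J z‖ ≤ B * (1 + ‖z‖) ^ 2 * Real.exp (-c * |z.re|)) : ∀ z : ℂ, ρ + 1 ≤ z.im → J z = 0 := by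
  have hexp1 : ∀ z : ℂ, ρ < z.im → ‖J z‖ ≤ Real.exp (B + 2 * ‖z‖) := by
    intro z hz
    refine (hb z hz).trans ?_
    have h1 : Real.exp (-c * |z.re|) ≤ 1 := by
      rw [Real.exp_le_one_iff]
      have := mul_nonneg hc.le (abs_nonneg z.re)
      linarith
    have h2 : (1 + ‖z‖) ^ 2 ≤ Real.exp (2 * ‖z‖) := by
      have h3 : 1 + ‖z‖ ≤ Real.exp ‖z‖ := by linarith [Real.add_one_le_exp ‖z‖]
      have h4 : Real.exp (2 * ‖z‖) = Real.exp ‖z‖ ^ 2 := by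
        rw [← Real.exp_nat_mul]
        norm_num
      rw [h4]
      exact pow_le_pow_left₀ (by positivity) h3 2
    have h5 : B ≤ Real.exp B := by linarith [Real.add_one_le_exp B]
    rw [Real.exp_add]
    calc B * (1 + ‖z‖) ^ 2 * Real.exp (-c * |z.re|) ≤ B * (1 + ‖z‖) ^ 2 * 1 := mul_le_mul_of_nonneg_left h1 (by positivity)
      _ = B * (1 + ‖z‖) ^ 2 := mul_one _
      _ ≤ Real.exp B * Real.exp (2 * ‖z‖) := mul_le_mul h5 h2 (by positivity) (Real.exp_pos _).le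
  refine jzero_up (show ρ < ρ + 1 by linarith) hd ⟨1, by norm_num, B + 2, 1, fun z hz h1 => ?_⟩ ⟨0, B + 3, ?_⟩ (a := c / 2) (by positivity)
    (C := B * (2 + |ρ + 1|) ^ 2 * (1 + 4 / c) ^ 2) fun x => ?_
  · refine (hexp1 z hz).trans (Real.exp_le_exp.2 ?_)
    rw [Real.rpow_one]
    nlinarith
  · filter_upwards [eventually_gt_atTop (max ρ (B + 1))] with y hy
    rw [max_lt_iff] at hy
    have h1 : ‖(⟨0, y⟩ : ℂ)‖ ≤ |y| := by
      have := Complex.norm_le_abs_re_add_abs_im (⟨0, y⟩ : ℂ)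
      simpa using this
    refine (hexp1 ⟨0, y⟩ hy.1).trans (Real.exp_le_exp.2 ?_)
    have hy0 : 0 < y := by linarith
    rw [abs_of_pos hy0] at h1
    nlinarith
  · have h1 := hb ⟨x, ρ + 1⟩ (show ρ < ρ + 1 by linarith)
    have h2 : ‖(⟨x, ρ + 1⟩ : ℂ)‖ ≤ |x| + |ρ + 1| := Complex.norm_le_abs_re_add_abs_im _
    have hx := abs_nonneg x
    have hρ := abs_nonneg (ρ + 1)
    have h3 : (1 + ‖(⟨x, ρ + 1⟩ : ℂ)‖) ^ 2 ≤ (2 + |ρ + 1|) ^ 2 * (1 + |x|) ^ 2 := by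
      rw [← mul_pow]
      refine pow_le_pow_left₀ (by positivity) ?_ 2
      nlinarith
    have h4 : 1 + |x| ≤ (1 + 4 / c) * Real.exp (c / 4 * |x|) := by
      have h5 := Real.add_one_le_exp (c / 4 * |x|)
      have h6 : (1 + 4 / c) * (c / 4 * |x| + 1) ≤ (1 + 4 / c) * Real.exp (c / 4 * |x|) := mul_le_mul_of_nonneg_left h5 (by positivity)
      have h7 : (1 + 4 / c) * (c / 4 * |x| + 1) = c / 4 * |x| + 1 + |x| + 4 / c := by
        field_simp
        ring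
      have h8 : 0 ≤ c / 4 * |x| := by positivity
      have h9 : 0 ≤ 4 / c := by positivity
      linarith
    have h5 : (1 + |x|) ^ 2 ≤ (1 + 4 / c) ^ 2 * Real.exp (c / 2 * |x|) := by
      have h6 : Real.exp (c / 2 * |x|) = Real.exp (c / 4 * |x|) ^ 2 := by
        rw [← Real.exp_nat_mul]
        congr 1
        push_cast
        ring
      rw [h6, ← mul_pow]
      exact pow_le_pow_left₀ (by positivity) h4 2
    have h6 : Real.exp (-(c / 2) * |x|) = Real.exp (c / 2 * |x|) * Real.exp (-c * |x|) := by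
      rw [← Real.exp_add]
      congr 1
      ring
    rw [h6]
    calc ‖J ⟨x, ρ + 1⟩‖ ≤ B * (1 + ‖(⟨x, ρ + 1⟩ : ℂ)‖) ^ 2 * Real.exp (-c * |x|) := h1
      _ ≤ B * ((2 + |ρ + 1|) ^ 2 * ((1 + 4 / c) ^ 2 * Real.exp (c / 2 * |x|))) * Real.exp (-c * |x|) := by
          refine mul_le_mul_of_nonneg_right (mul_le_mul_of_nonneg_left (h3.trans ?_) hB.le) (Real.exp_pos _).le
          exact mul_le_mul_of_nonneg_left h5 (by positivity)
      _ = _ := by ring

theorem half_up (L : LeftEnd Q e) (L' : LeftEnd (sw Q) (sw e)) (hom : ∀ j, (Q j).IsHomogeneous (e j)) (pos : ∀ j, 1 ≤ e j) (hdeg : 2 ≤ deg1 e)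
    (C₀ : ℝ) : ∃ W : ℝ, 0 < W ∧ ∀ c B : ℝ, 0 < c → ∃ ε : ℝ, 0 < ε ∧ ∀ (ρ : ℝ) (f g : ℂ → EN (n + 2)), IsSec Q f (HP 1 ρ) → IsSec Q g (HP 1 ρ) →
      (∀ z ∈ HP 1 ρ, |z.re| * fs (f z) (deriv f z) ≤ C₀) → (∀ z ∈ HP 1 ρ, |z.re| * fs (g z) (deriv g z) ≤ C₀) →
      (∀ z ∈ HP 1 ρ, |z.re| ≤ W → ‖f z‖ ≤ B ∧ c ≤ ‖nv Q (f z)‖ ∧ ‖g z - f z‖ ≤ ε * ‖f z‖) → ∀ z ∈ HP 1 ρ, f z = g z := by
  obtain ⟨a, r, d, ha, hr, hd, hd2, hleft⟩ := left_strip L hom pos C₀
  obtain ⟨a', r', d', ha', hr', hd', hd2', hright⟩ := right_strip L' hom pos C₀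
  set W : ℝ := |a| + |a'| + 2 with hW
  refine ⟨W, by positivity, fun c B hc => ?_⟩
  -- the compact set
  set K : Set (EN (n + 2)) := {x | ‖x‖ ≤ B ∧ c ≤ ‖nv Q x‖} with hK
  have hKc : IsCompact K := by
    have h1 : IsCompact (closedBall (0 : EN (n + 2)) B) := isCompact_closedBall _ _
    have h2 : IsClosed {x : EN (n + 2) | c ≤ ‖nv Q x‖} := isClosed_le continuous_const (continuous_nv Q).norm
    have h3 : K = closedBall (0 : EN (n + 2)) B ∩ {x | c ≤ ‖nv Q x‖} := by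
      ext x
      rw [hK, mem_inter_iff, mem_closedBall, dist_zero_right]
      rfl
    rw [h3]
    exact h1.inter_right h2
  obtain ⟨R, ε₁, C₁, hT⟩ := exists_timeQ Q hKc fun x hx h0 => by
    have h1 : c ≤ ‖nv Q x‖ := hx.2
    rw [h0, norm_zero] at h1
    linarith
  have hKB : ∀ x ∈ K, ‖x‖ ≤ B := fun x hx => hx.1
  obtain ⟨εL, BL, hεL, hBL, hl⟩ := hleft K R ε₁ C₁ B hT hKB
  obtain ⟨εR, BR, hεR, hBR, hrr⟩ := hright K R ε₁ C₁ B hT hKB
  have hε₁ := hT.2.1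
  have hC₁ := hT.2.2.2.1
  set ε : ℝ := min (min εL εR) (ε₁ / (2 * (|B| + 1))) with hε
  have hε0 : 0 < ε := lt_min (lt_min hεL hεR) (by positivity)
  refine ⟨ε, hε0, fun ρ f g hf hg hfs hgs hcl => ?_⟩
  have hHPo : IsOpen (HP 1 ρ) := by
    unfold HP
    exact isOpen_lt continuous_const (continuous_const.mul Complex.continuous_im)
  have hHP : ∀ z : ℂ, z ∈ HP 1 ρ ↔ ρ < z.im := by
    intro z
    unfold HP
    rw [mem_ofPred_eq, one_mul]
  -- the distance in the middle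
  have hmid : ∀ z ∈ HP 1 ρ, |z.re| ≤ W → f z ∈ K ∧ ‖g z - f z‖ < ε₁ := by
    intro z hz h1
    obtain ⟨h2, h3, h4⟩ := hcl z hz h1
    refine ⟨⟨h2, h3⟩, ?_⟩
    have h5 : ‖f z‖ ≤ |B| + 1 := by linarith [le_abs_self B]
    calc ‖g z - f z‖ ≤ ε * ‖f z‖ := h4
      _ ≤ (ε₁ / (2 * (|B| + 1))) * (|B| + 1) := mul_le_mul (min_le_right _ _) h5 (norm_nonneg _) (by positivity)
      _ = ε₁ / 2 := by field_simp
      _ < ε₁ := by linarith
  set J₀ : ℂ → ℂ := fun z => tim (nv Q) R (f z) (g z) with hJ₀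
  have hJ₀d : ∀ z ∈ HP 1 ρ, |z.re| ≤ W → DifferentiableAt ℂ J₀ z := by
    intro z hz h1
    obtain ⟨h2, h3⟩ := hmid z hz h1
    refine hT.differentiableAt (hf.1.differentiableAt (hHPo.mem_nhds hz)) (hg.1.differentiableAt (hHPo.mem_nhds hz)) h2 h3 ?_
    filter_upwards [hHPo.mem_nhds hz] with w hw
    exact evs_eq hf hg hw
  have hJ₀b : ∀ z ∈ HP 1 ρ, |z.re| ≤ W → ‖J₀ z‖ ≤ C₁ * ε₁ := by
    intro z hz h1
    obtain ⟨h2, h3⟩ := hmid z hz h1
    exact (hT.norm_le h2 h3 (evs_eq hf hg hz)).trans (mul_le_mul_of_nonneg_left h3.le hC₁.le)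
  -- constants
  set δ : ℝ := min d d' with hδ
  have hδ0 : 0 < δ := lt_min hd hd'
  have hδd : δ ≤ d := min_le_left _ _
  have hδd' : δ ≤ d' := min_le_right _ _
  have he1 : (1 : ℝ) ≤ e 1 := by exact_mod_cast pos 1
  have he0 : (1 : ℝ) ≤ e 0 := by exact_mod_cast pos 0
  have hdeg' : (2 : ℝ) ≤ deg1 e := by exact_mod_cast hdeg
  set c₀ : ℝ := min (((deg1 e : ℝ) - 1) / e 1) (((deg1 e : ℝ) - 1) / e 0) with hc₀
  have hc₀0 : 0 < c₀ := lt_min (div_pos (by linarith) (by linarith)) (div_pos (by linarith) (by linarith))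
  set BT : ℝ := BL + BR + C₁ * ε₁ * Real.exp (c₀ * W) with hBT
  have hBT0 : 0 < BT := by positivity
  set ρ' : ℝ := ρ + (r + r' + 1) with hρ'
  set b : ℂ → ℝ := fun z => BT * (1 + ‖z‖) ^ 2 * Real.exp (-c₀ * |z.re|) with hb
  have haW : |a| + 1 ≤ W := by linarith [abs_nonneg a']
  have haW' : |a'| + 1 ≤ W := by linarith [abs_nonneg a]
  have hball : ∀ (A y : ℝ), ρ' < y → |A| + 1 ≤ W → ∀ z ∈ ball (⟨A, y⟩ : ℂ) 1, z ∈ HP 1 ρ ∧ |z.re| ≤ W := by
    intro A y hy hA z hz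
    rw [mem_ball, dist_eq_norm] at hz
    have h1 : |z.re - A| ≤ 1 := (Complex.abs_re_le_norm (z - ⟨A, y⟩)).trans hz.le
    have h2 : |z.im - y| ≤ 1 := (Complex.abs_im_le_norm (z - ⟨A, y⟩)).trans hz.le
    refine ⟨(hHP z).2 ?_, ?_⟩
    · rw [abs_le] at h2
      linarith
    · have h3 : |z.re| ≤ |z.re - A| + |A| := by
        have := abs_add_le (z.re - A) A
        rwa [sub_add_cancel] at this
      linarith
  have hstrip : ∀ y : ℝ, ρ' < y → ∃ J : ℂ → ℂ, DifferentiableOn ℂ J {t | |t.im - y| < δ ∧ ρ' < t.im} ∧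
      (∀ t : ℂ, -(1 / 4) < t.re → t.re < 1 / 4 → |t.im - y| < δ → ρ' < t.im → J t = J₀ t) ∧
      ∀ t : ℂ, |t.im - y| < δ → ρ' < t.im → ‖J t‖ ≤ b t := by
    intro y hy
    have hclose : ∀ A : ℝ, |A| + 1 ≤ W → ∀ ε₂ : ℝ, ε ≤ ε₂ → ∀ z ∈ ball (⟨A, y⟩ : ℂ) 1, z ∈ HP 1 ρ ∧ f z ∈ K ∧ ‖g z - f z‖ ≤ ε₂ * ‖f z‖ := by
      intro A hA ε₂ hε₂ z hz
      obtain ⟨h1, h2⟩ := hball A y hy hA z hz
      exact ⟨h1, (hmid z h1 h2).1, (hcl z h1 h2).2.2.trans (mul_le_mul_of_nonneg_right hε₂ (norm_nonneg _))⟩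
    have hsub : ∀ (r₀ : ℝ) (z : ℂ), 0 < r₀ → r₀ ≤ r + r' → z.im = y → ball z r₀ ⊆ HP 1 ρ := by
      intro r₀ z hr₀ hr₀' hz w hw
      rw [mem_ball, dist_eq_norm] at hw
      have h1 : |w.im - z.im| ≤ r₀ := (Complex.abs_im_le_norm (w - z)).trans hw.le
      rw [abs_le] at h1
      exact (hHP w).2 (by linarith)
    obtain ⟨JL, hL1, hL2, hL3⟩ := hl f g (HP 1 ρ) y hHPo hf hg hfs hgs (fun z _ h2 => hsub r z hr (by linarith) h2)
      (hclose a haW εL ((min_le_left _ _).trans (min_le_left _ _)))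
    obtain ⟨JR, hR1, hR2, hR3⟩ := hrr f g (HP 1 ρ) y hHPo hf hg hfs hgs (fun z _ h2 => hsub r' z hr' (by linarith) h2)
      (hclose a' haW' εR ((min_le_left _ _).trans (min_le_right _ _)))
    set S : Set ℂ := {t | |t.im - y| < δ ∧ ρ' < t.im} with hS
    have hSo : IsOpen S := (isOpen_lt (Complex.continuous_im.sub continuous_const).abs continuous_const).inter
      (isOpen_lt continuous_const Complex.continuous_im)
    have hSHP : ∀ t ∈ S, t ∈ HP 1 ρ := fun t ht => (hHP t).2 (by have : ρ' < t.im := ht.2; linarith)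
    have hre : ∀ t : ℂ, a - δ < t.re → t.re < a' + δ → |t.re| ≤ W := by
      intro t h1 h2
      rw [abs_le]
      have h3 := neg_abs_le a
      have h4 := le_abs_self a'
      have h5 := abs_nonneg a
      have h6 := abs_nonneg a'
      constructor <;> linarith
    obtain ⟨J, hJ1, hJ2, hJ3, hJ4⟩ := three_pieces hSo (a := a) (b := a') hδ0 (by linarith) (JL := JL) (J₀ := J₀) (JR := JR)
      (hL1.mono fun t ht => ⟨by have := ht.2; change t.re < a + d; linarith, by have := ht.1.1; change |t.im - y| < d; linarith⟩)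
      (fun t ht => (hJ₀d t (hSHP t ht.1) (hre t ht.2.1 ht.2.2)).differentiableWithinAt)
      (hR1.mono fun t ht => ⟨by have := ht.2; change a' - d' < t.re; linarith, by have := ht.1.1; change |t.im - y| < d'; linarith⟩)
      (fun t ht h1 h2 => hL2 t (by linarith) (by have := ht.1; linarith) (by linarith))
      (fun t ht h1 h2 => hR2 t (by linarith) (by have := ht.1; linarith) (by linarith))
    refine ⟨J, hJ1, fun t h1 h2 h3 h4 => hJ3 t ⟨h3, h4⟩ (by linarith) (by linarith), fun t h1 h2 => ?_⟩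
    have htS : t ∈ S := ⟨h1, h2⟩
    have hnn : (0 : ℝ) ≤ (1 + ‖t‖) ^ 2 := by positivity
    have hone : (1 : ℝ) ≤ (1 + ‖t‖) ^ 2 := by nlinarith [norm_nonneg t]
    rw [hb]
    simp only
    rcases lt_or_ge t.re (a + δ) with h3 | h3
    · rw [hJ2 t htS h3]
      have h4 := hL3 t (by linarith) (by linarith)
      refine h4.trans ?_
      have h5 : t.re < 0 := by linarith
      have h6 : Real.exp (((deg1 e : ℝ) - 1) / e 1 * t.re) ≤ Real.exp (-c₀ * |t.re|) := by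
        refine Real.exp_le_exp.2 ?_
        rw [abs_of_neg h5]
        have h7 : c₀ ≤ ((deg1 e : ℝ) - 1) / e 1 := min_le_left _ _
        nlinarith
      refine mul_le_mul (mul_le_mul_of_nonneg_right ?_ hnn) h6 (Real.exp_pos _).le (by positivity)
      rw [hBT]
      have : 0 ≤ C₁ * ε₁ * Real.exp (c₀ * W) := by positivity
      linarith
    · rcases lt_or_ge (a' - δ) t.re with h4 | h4
      · rw [hJ4 t htS h4]
        have h5 := hR3 t (by linarith) (by linarith)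
        refine h5.trans ?_
        have h6 : 0 < t.re := by linarith
        have h7 : Real.exp (-(((deg1 e : ℝ) - 1) / e 0 * t.re)) ≤ Real.exp (-c₀ * |t.re|) := by
          refine Real.exp_le_exp.2 ?_
          rw [abs_of_pos h6]
          have h8 : c₀ ≤ ((deg1 e : ℝ) - 1) / e 0 := min_le_right _ _
          nlinarith
        refine mul_le_mul (mul_le_mul_of_nonneg_right ?_ hnn) h7 (Real.exp_pos _).le (by positivity)
        rw [hBT]
        have : 0 ≤ C₁ * ε₁ * Real.exp (c₀ * W) := by positivity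
        linarith
      · have h5 : |t.re| ≤ W := hre t (by linarith) (by linarith)
        rw [hJ3 t htS (by linarith) (by linarith)]
        refine (hJ₀b t (hSHP t htS) h5).trans ?_
        have h6 : 1 ≤ Real.exp (c₀ * W) * Real.exp (-c₀ * |t.re|) := by
          rw [← Real.exp_add]
          refine Real.one_le_exp ?_
          nlinarith
        have h7 : C₁ * ε₁ * 1 ≤ C₁ * ε₁ * (Real.exp (c₀ * W) * Real.exp (-c₀ * |t.re|)) := mul_le_mul_of_nonneg_left h6 (by positivity)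
        have h8 : C₁ * ε₁ * Real.exp (c₀ * W) ≤ BT := by
          rw [hBT]
          linarith
        have h9 : C₁ * ε₁ * Real.exp (c₀ * W) * 1 ≤ BT * (1 + ‖t‖) ^ 2 := mul_le_mul h8 hone zero_le_one hBT0.le
        calc C₁ * ε₁ ≤ C₁ * ε₁ * Real.exp (c₀ * W) * 1 * Real.exp (-c₀ * |t.re|) := by linarith
          _ ≤ BT * (1 + ‖t‖) ^ 2 * Real.exp (-c₀ * |t.re|) := mul_le_mul_of_nonneg_right h9 (Real.exp_pos _).le
  obtain ⟨J, hJ1, hJ2, hJ3⟩ := glue_full hδ0 (show -(1 / 4 : ℝ) < 1 / 4 by norm_num) (J₀ := J₀) (b := b) hstrip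
  have hJz := jzero_decay hBT0 hc₀0 hJ1 hJ3
  -- f = g near a point
  have hfg : ∀ z : ℂ, -(1 / 4) < z.re → z.re < 1 / 4 → ρ' + 1 < z.im → f z = g z := by
    intro z h1 h2 h3
    have hz : z ∈ HP 1 ρ := (hHP z).2 (by linarith)
    have hzr : |z.re| ≤ W := by
      rw [abs_le]
      have := abs_nonneg a
      have := abs_nonneg a'
      constructor <;> linarith
    obtain ⟨h4, h5⟩ := hmid z hz hzr
    have h6 := hJ2 z h1 h2 (by linarith)
    rw [hJz z h3.le] at h6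
    exact hT.eq_of_zero h4 h5 (evs_eq hf hg hz) h6.symm
  have hconv : Convex ℝ (HP 1 ρ) := by
    have : HP 1 ρ = {z : ℂ | ρ < z.im} := by
      ext z
      exact hHP z
    rw [this]
    exact convex_halfSpace_im_gt ρ
  have hfa : AnalyticOnNhd ℂ f (HP 1 ρ) := hf.1.analyticOnNhd hHPo
  have hga : AnalyticOnNhd ℂ g (HP 1 ρ) := hg.1.analyticOnNhd hHPo
  set z₁ : ℂ := ⟨0, ρ' + 2⟩ with hz₁
  have hz₁m : z₁ ∈ HP 1 ρ := (hHP z₁).2 (by change ρ < ρ' + 2; linarith)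
  have hev : f =ᶠ[𝓝 z₁] g := by
    have h1 : {z : ℂ | -(1 / 4) < z.re} ∩ ({z : ℂ | z.re < 1 / 4} ∩ {z : ℂ | ρ' + 1 < z.im}) ∈ 𝓝 z₁ := by
      refine ((isOpen_lt continuous_const Complex.continuous_re).inter ((isOpen_lt Complex.continuous_re continuous_const).inter
        (isOpen_lt continuous_const Complex.continuous_im))).mem_nhds ⟨?_, ?_, ?_⟩
      · change -(1 / 4 : ℝ) < 0
        norm_num
      · change (0 : ℝ) < 1 / 4
        norm_num
      · change ρ' + 1 < ρ' + 2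
        linarith
    filter_upwards [h1] with z hz
    exact hfg z hz.1 hz.2.1 hz.2.2
  exact fun z hz => hfa.eqOn_of_preconnected_of_eventuallyEq hga hconv.isPreconnected hz₁m hev hz

/-- both half planes -/
theorem half_axis_J (L : LeftEnd Q e) (L' : LeftEnd (sw Q) (sw e)) (hom : ∀ j, (Q j).IsHomogeneous (e j)) (pos : ∀ j, 1 ≤ e j) (hdeg : 2 ≤ deg1 e)
    (C₀ : ℝ) : ∃ W : ℝ, 0 < W ∧ ∀ c B : ℝ, 0 < c → ∃ ε : ℝ, 0 < ε ∧ ∀ (σ ρ : ℝ) (f g : ℂ → EN (n + 2)), (σ = 1 ∨ σ = -1) →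
      IsSec Q f (HP σ ρ) → IsSec Q g (HP σ ρ) →
      (∀ z ∈ HP σ ρ, |z.re| * fs (f z) (deriv f z) ≤ C₀) → (∀ z ∈ HP σ ρ, |z.re| * fs (g z) (deriv g z) ≤ C₀) →
      (∀ z ∈ HP σ ρ, |z.re| ≤ W → ‖f z‖ ≤ B ∧ c ≤ ‖nv Q (f z)‖ ∧ ‖g z - f z‖ ≤ ε * ‖f z‖) → ∀ z ∈ HP σ ρ, f z = g z := by
  obtain ⟨W, hW, h1⟩ := half_up L L' hom pos hdeg C₀
  have hss : sw (sw Q) = Q := sw_sw Q
  have hse : sw (sw e) = e := sw_sw e
  obtain ⟨W', hW', h2⟩ := half_up (Q := sw Q) (e := sw e) L' (by rw [hss, hse]; exact L) (fun j => hom _) (fun j => pos _) (by rw [deg1_sw]; exact hdeg) C₀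
  refine ⟨max W W', lt_max_of_lt_left hW, fun c B hc => ?_⟩
  obtain ⟨ε, hε, h3⟩ := h1 c B hc
  obtain ⟨ε', hε', h4⟩ := h2 c B hc
  refine ⟨min ε ε', lt_min hε hε', ?_⟩
  rintro σ ρ f g (rfl | rfl) hf hg hfs hgs hcl
  · refine h3 ρ f g hf hg hfs hgs fun z hz h5 => ?_
    obtain ⟨h6, h7, h8⟩ := hcl z hz (h5.trans (le_max_left _ _))
    exact ⟨h6, h7, h8.trans (mul_le_mul_of_nonneg_right (min_le_left _ _) (norm_nonneg _))⟩
  · have hset : {z : ℂ | -z ∈ HP (-1) ρ} = HP 1 ρ := by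
      ext z
      unfold HP
      rw [mem_ofPred_eq, mem_ofPred_eq, mem_ofPred_eq, Complex.neg_im]
      constructor <;> intro h <;> linarith
    have hmem : ∀ z ∈ HP 1 ρ, -z ∈ HP (-1) ρ := fun z hz => by
      rw [← hset] at hz
      exact hz
    have hf' := isSec_sw hf
    have hg' := isSec_sw hg
    rw [hset] at hf' hg'
    have hFs : ∀ F : ℂ → EN (n + 2), (∀ z ∈ HP (-1) ρ, |z.re| * fs (F z) (deriv F z) ≤ C₀) →
        ∀ z ∈ HP 1 ρ, |z.re| * fs ((fun z => F (-z)) z) (deriv (fun z => F (-z)) z) ≤ C₀ := by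
      intro F hF z hz
      have h5 := hF (-z) (hmem z hz)
      rw [Complex.neg_re, abs_neg] at h5
      simp only
      rw [fs_neg_deriv]
      exact h5
    have h5 := h4 ρ (fun z => f (-z)) (fun z => g (-z)) hf' hg' (hFs f hfs) (hFs g hgs) (fun z hz h5 => by
      obtain ⟨h6, h7, h8⟩ := hcl (-z) (hmem z hz) (by rw [Complex.neg_re, abs_neg]; exact h5.trans (le_max_right _ _))
      refine ⟨h6, ?_, h8.trans (mul_le_mul_of_nonneg_right (min_le_right _ _) (norm_nonneg _))⟩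
      rw [nv_sw, norm_neg]
      exact h7)
    intro z hz
    have h6 : -z ∈ HP 1 ρ := by
      rw [← hset]
      change -(-z) ∈ HP (-1) ρ
      rw [neg_neg]
      exact hz
    have h7 := h5 (-z) h6
    simp only [neg_neg] at h7
    exact h7

end Pool.Agent.H87.JZ
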