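import Pool.Agent.H87.JZ.HBound
import Pool.Agent.H87.JZ.Glue

/-!
# JZ LeftExt: the primitive along a section extends to the left with quadratic growth
-/

set_option autoImplicit false

open Topology Filter Metric Set

namespace Pool.Agent.H87.JZ

open Pool.Agent.EG.RS Pool.Agent.EG.RSQ Pool.Agent.EG.TM
open Pool.Agent.TC (ev grad OnV IsSec nv)
open Pool.Agent.H36.BP (EN fs wd)

variable {n : ℕ} {Q : Fin (n + 2) → MvPolynomial (Fin (n + 3)) ℂ} {e : Fin (n + 2) → ℕ}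

/-- the link of two cells of the same curve at a common point -/
theorem link_dat (L : LeftEnd Q e) : ∃ ε : ℝ, 0 < ε ∧ ∀ (C C' : ℂ × ℂ → Prop), (∀ p, C p → Cen p) → (∀ p, C' p → Cen p) →
    ∀ (x : ℂ → EN (n + 2)) (i j : L.ι) (μ ν : ℂ) (hi hj : ℂ → ℂ) (t₁ t₂ t₀ : ℂ) (r r' : ℝ),
    DatX C L x i μ hi t₁ r → DatX C' L x j ν hj t₂ r' → t₀ ∈ ball t₁ r → t₀ ∈ ball t₂ r' →
    ∃ D : ℂ → ℂ, DifferentiableOn ℂ D (Strip t₀ ε) ∧ (∀ t ∈ Strip t₀ ε, ‖D t‖ ≤ 2 * |L.C₀| * (1 + ‖t - t₀‖ + ‖hi t₀‖ + ‖hj t₀‖)) ∧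
      ∀ᶠ t in 𝓝 t₀, L.M.P i μ t (hi t) - L.M.P j ν t (hj t) = D t := by
  have := L.fin
  obtain ⟨ε, hε, hlink⟩ := linkQ L.M L.bphi
  refine ⟨ε, hε, fun C C' hC hC' x i j μ ν hi hj t₁ t₂ t₀ r r' h1 h2 ht1 ht2 => ?_⟩
  have hs : ∀ t, t ∈ ball t₁ r → t ∈ ball t₂ r' → L.M.s i (L.M.X i μ t (hi t)) = L.M.s j (L.M.X j ν t (hj t)) := by
    intro t ha hb
    obtain ⟨-, c1, f1, x1⟩ := h1.2.2 t ha
    obtain ⟨-, c2, f2, x2⟩ := h2.2.2 t hb
    exact L.eqv i j _ _ (Pool.Agent.EG.RSQ.cen_ball (hC _ c1)) (Pool.Agent.EG.RSQ.cen_ball (hC' _ c2)) f1 f2 (by rw [← x1, ← x2])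
  obtain ⟨D, hD1, hD2, hD3⟩ := hlink i j μ ν t₀ (hi t₀) (hj t₀) h1.1 h2.1 (h1.2.2 t₀ ht1).1 (hC _ (h1.2.2 t₀ ht1).2.1) (hC' _ (h2.2.2 t₀ ht2).2.1) (hs t₀ ht1 ht2)
  refine ⟨D, hD1, fun t ht => (hD2 t ht).trans ?_, ?_⟩
  · refine mul_le_mul_of_nonneg_right ?_ (by positivity)
    linarith [le_abs_self L.C₀]
  · refine hD3 hi hj (h1.analyticAt ht1) (h2.analyticAt ht2) rfl rfl ?_
    filter_upwards [isOpen_ball.mem_nhds ht1, isOpen_ball.mem_nhds ht2] with t ha hb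
    exact hs t ha hb

/-- the strip around height `y`, up to `X₀ + 1` -/
def SS (X₀ y δ : ℝ) : Set ℂ := {t | t.re < X₀ + 1 ∧ |t.im - y| < δ}

theorem left_ext (L : LeftEnd Q e) (X₀ : ℝ) : ∃ δ B A : ℝ, 0 < δ ∧ δ ≤ 1 ∧ 0 < B ∧ 0 < A ∧ ∀ (C : ℂ × ℂ → Prop), (∀ p, C p → Cen p) →
    ∀ (x : ℂ → EN (n + 2)) (y : ℝ),
    (∀ t₁ : ℂ, t₁.re ≤ X₀ → t₁.im = y → ∃ (i : L.ι) (μ : ℂ) (h : ℂ → ℂ), DatX C L x i μ h t₁ 4) →
    ∃ (i : L.ι) (μ : ℂ) (h : ℂ → ℂ) (Φ : ℂ → ℂ), DatX C L x i μ h ⟨X₀, y⟩ 4 ∧ (∀ t ∈ closedBall (⟨X₀, y⟩ : ℂ) 2, ‖h t‖ ≤ A * (1 + ‖(⟨X₀, y⟩ : ℂ)‖)) ∧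
      DifferentiableOn ℂ Φ (SS X₀ y δ) ∧ (∀ t ∈ SS X₀ y δ, X₀ - 1 < t.re → Φ t = L.M.P i μ t (h t)) ∧
      ∀ t ∈ SS X₀ y δ, ‖Φ t‖ ≤ B * (1 + ‖t‖) ^ 2 := by
  obtain ⟨A, hA, hhb⟩ := exists_hbound L
  obtain ⟨ε, hε, hlink⟩ := link_dat L
  set B₁ : ℝ := 2 * |L.C₀| * (1 + (1 + 2 * A) * (3 + |X₀|)) + 3 * |L.C₀| * A + 1 with hB₁
  have hB₁0 : 0 < B₁ := by positivity
  refine ⟨min ε 1, |B₁| * (1 + (|X₀| + 1) / 1), A, lt_min hε one_pos, min_le_right _ _, by positivity, hA, fun C hC x y hx => ?_⟩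
  set δ : ℝ := min ε 1 with hδ
  have hδ0 : 0 < δ := lt_min hε one_pos
  have hδ1 : δ ≤ 1 := min_le_right _ _
  have hδε : δ ≤ ε := min_le_left _ _
  set c : ℕ → ℂ := fun k => ⟨X₀ - k, y⟩ with hc
  have hcre : ∀ k, (c k).re = X₀ - k := fun k => rfl
  have hcim : ∀ k, (c k).im = y := fun k => rfl
  have hk : ∀ k : ℕ, ∃ (i : L.ι) (μ : ℂ) (h : ℂ → ℂ), DatX C L x i μ h (c k) 4 ∧ ∀ t ∈ closedBall (c k) 2, ‖h t‖ ≤ A * (1 + ‖c k‖) := by
    intro k
    obtain ⟨i, μ, h, hd⟩ := hx (c k) (by rw [hcre]; have : (0 : ℝ) ≤ k := Nat.cast_nonneg k; linarith) (hcim k)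
    obtain ⟨h', h1, h2⟩ := hhb C hC x i μ h (c k) hd
    exact ⟨i, μ, h', h1, h2⟩
  choose i μ h hd hb using hk
  have hstep : ∀ k, dist (c k) (c (k + 1)) = 1 := by
    intro k
    rw [dist_eq_norm]
    have h1 : c k - c (k + 1) = 1 := by
      apply Complex.ext
      · rw [Complex.sub_re, hcre, hcre, Complex.one_re]
        push_cast
        ring
      · rw [Complex.sub_im, Complex.one_im]
        exact sub_self y
    rw [h1, norm_one]
  have hcc : ∀ k, c k ∈ ball (c (k + 1)) 4 := fun k => by rw [mem_ball, hstep]; norm_num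
  have hcs : ∀ k, c k ∈ ball (c k) 4 := fun k => mem_ball_self (by norm_num)
  have hD : ∀ k, ∃ D : ℂ → ℂ, DifferentiableOn ℂ D (Strip (c k) ε) ∧
      (∀ t ∈ Strip (c k) ε, ‖D t‖ ≤ 2 * |L.C₀| * (1 + ‖t - c k‖ + ‖h k (c k)‖ + ‖h (k + 1) (c k)‖)) ∧
      ∀ᶠ t in 𝓝 (c k), L.M.P (i k) (μ k) t (h k t) - L.M.P (i (k + 1)) (μ (k + 1)) t (h (k + 1) t) = D t := fun k =>
    hlink C C hC hC x (i k) (i (k + 1)) (μ k) (μ (k + 1)) (h k) (h (k + 1)) (c k) (c (k + 1)) (c k) 4 4 (hd k) (hd (k + 1)) (hcs k) (hcc k)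
  choose D hD1 hD2 hD3 using hD
  set S : Set ℂ := {t | |t.im - y| < δ} with hS
  have hSo : IsOpen S := isOpen_lt (Complex.continuous_im.sub continuous_const).abs continuous_const
  have hdist : ∀ (k : ℕ) (t : ℂ), t ∈ piece S X₀ 1 k → ‖t - c k‖ < 2 := by
    rintro k t ⟨h1, h2, h3⟩
    refine lt_of_le_of_lt (Complex.norm_le_abs_re_add_abs_im _) ?_
    rw [Complex.sub_re, Complex.sub_im, hcre, hcim]
    have h4 : |t.re - (X₀ - k)| < 1 := by
      rw [abs_lt]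
      constructor <;> linarith
    have h5 : |t.im - y| < δ := h1
    linarith
  have hpb4 : ∀ (k : ℕ), piece S X₀ 1 k ⊆ ball (c k) 4 := fun k t ht => by
    rw [mem_ball, dist_eq_norm]
    linarith [hdist k t ht]
  have hleft : ∀ (k : ℕ), leftOf S X₀ 1 k ⊆ Strip (c k) ε := by
    rintro k t ⟨h1, h2⟩
    refine ⟨?_, ?_⟩
    · rw [hcre]
      linarith
    · rw [hcim]
      have h5 : |t.im - y| < δ := h1
      linarith
  have hgl := glue_left hSo (X₀ := X₀) (r := 1) (B := B₁) (m := 1) one_pos (p := fun k t => L.M.P (i k) (μ k) t (h k t)) (L := D)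
    (fun k => ((hd k).P_diff hC).mono (hpb4 k)) (fun k => (hD1 k).mono (hleft k)) ?_ ?_ ?_
  · obtain ⟨Φ, hΦ1, hΦ2, -, hΦ4⟩ := hgl
    have hc0 : c 0 = ⟨X₀, y⟩ := by
      apply Complex.ext
      · rw [hcre]; simp
      · exact hcim 0
    have hSS : ∀ t ∈ SS X₀ y δ, t ∈ S ∧ t.re < X₀ + 1 := fun t ht => ⟨ht.2, ht.1⟩
    refine ⟨i 0, μ 0, h 0, Φ, hc0 ▸ hd 0, hc0 ▸ hb 0, hΦ1.mono hSS, fun t ht h1 => ?_, fun t ht => ?_⟩
    · refine hΦ2 t ⟨(hSS t ht).1, ?_, ?_⟩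
      · push_cast
        linarith
      · push_cast
        linarith [(hSS t ht).2]
    · exact hΦ4 t (hSS t ht).1 (hSS t ht).2
  · -- the difference on the overlaps
    intro k t ht1 ht2
    set V : Set ℂ := {t : ℂ | t.re < X₀ - k + δ} ∩ ({t : ℂ | X₀ - k - 1 < t.re} ∩ ({t : ℂ | t.im < y + δ} ∩ {t : ℂ | y - δ < t.im})) with hV
    have hVc : Convex ℝ V := (convex_halfSpace_re_lt _).inter ((convex_halfSpace_re_gt _).inter
      ((convex_halfSpace_im_lt _).inter (convex_halfSpace_im_gt _)))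
    have hVo : IsOpen V := (isOpen_lt Complex.continuous_re continuous_const).inter
      ((isOpen_lt continuous_const Complex.continuous_re).inter
        ((isOpen_lt Complex.continuous_im continuous_const).inter (isOpen_lt continuous_const Complex.continuous_im)))
    have hVn : ∀ s ∈ V, ‖s - c k‖ < 3 := by
      rintro s ⟨h1, h2, h3, h4⟩
      have h1' : s.re < X₀ - k + δ := h1
      have h2' : X₀ - k - 1 < s.re := h2
      have h3' : s.im < y + δ := h3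
      have h4' : y - δ < s.im := h4
      refine lt_of_le_of_lt (Complex.norm_le_abs_re_add_abs_im _) ?_
      rw [Complex.sub_re, Complex.sub_im, hcre, hcim]
      have h5 : |s.re - (X₀ - k)| ≤ 1 := by
        rw [abs_le]
        constructor <;> linarith
      have h6 : |s.im - y| < δ := by
        rw [abs_lt]
        constructor <;> linarith
      linarith
    have hV1 : V ⊆ ball (c k) 4 := fun s hs => by rw [mem_ball, dist_eq_norm]; linarith [hVn s hs]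
    have hV2 : V ⊆ ball (c (k + 1)) 4 := by
      intro s hs
      rw [mem_ball]
      have h5 := dist_triangle s (c k) (c (k + 1))
      have h6 : dist s (c k) < 3 := by rw [dist_eq_norm]; exact hVn s hs
      rw [hstep] at h5
      linarith
    have hV3 : V ⊆ Strip (c k) ε := by
      rintro s ⟨h1, h2, h3, h4⟩
      have h1' : s.re < X₀ - k + δ := h1
      have h3' : s.im < y + δ := h3
      have h4' : y - δ < s.im := h4
      refine ⟨?_, ?_⟩
      · rw [hcre]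
        linarith
      · rw [hcim, abs_lt]
        constructor <;> linarith
    have hcV : c k ∈ V := by
      refine ⟨?_, ?_, ?_, ?_⟩
      · change X₀ - k < X₀ - k + δ
        linarith
      · change X₀ - k - 1 < X₀ - k
        linarith
      · change y < y + δ
        linarith
      · change y - δ < y
        linarith
    have htV : t ∈ V := by
      obtain ⟨h1, h2, h3⟩ := ht1
      obtain ⟨-, h4, h5⟩ := ht2
      have h6 : |t.im - y| < δ := h1
      rw [abs_lt] at h6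
      push_cast at h4 h5
      refine ⟨?_, ?_, ?_, ?_⟩
      · change t.re < X₀ - k + δ
        linarith
      · change X₀ - k - 1 < t.re
        linarith
      · change t.im < y + δ
        linarith
      · change y - δ < t.im
        linarith
    have ha : AnalyticOnNhd ℂ (fun t => L.M.P (i k) (μ k) t (h k t) - L.M.P (i (k + 1)) (μ (k + 1)) t (h (k + 1) t)) V :=
      DifferentiableOn.analyticOnNhd ((((hd k).P_diff hC).mono hV1).sub (((hd (k + 1)).P_diff hC).mono hV2)) hVo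
    have hb' : AnalyticOnNhd ℂ (D k) V := ((hD1 k).mono hV3).analyticOnNhd hVo
    exact ha.eqOn_of_preconnected_of_eventuallyEq hb' hVc.isPreconnected hcV (hD3 k) htV
  · -- the bound for the primitives
    intro k t ht
    have h1 := (hd k).P_le hC (hpb4 k ht)
    have h2 := hdist k t ht
    have h3 : ‖h k t‖ ≤ A * (1 + ‖c k‖) := hb k t (by rw [mem_closedBall, dist_eq_norm]; exact h2.le)
    have h4 : ‖c k‖ ≤ ‖t‖ + 2 := by
      have := norm_sub_norm_le (c k) t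
      rw [norm_sub_rev] at this
      linarith
    have hC := abs_nonneg L.C₀
    have ht0 := norm_nonneg t
    rw [pow_one]
    calc ‖L.M.P (i k) (μ k) t (h k t)‖ ≤ |L.C₀| * (A * (1 + ‖c k‖)) := h1.trans (mul_le_mul_of_nonneg_left h3 hC)
      _ ≤ |L.C₀| * (A * (3 * (1 + ‖t‖))) := by
          refine mul_le_mul_of_nonneg_left (mul_le_mul_of_nonneg_left ?_ hA.le) hC
          linarith
      _ = (3 * |L.C₀| * A) * (1 + ‖t‖) := by ring
      _ ≤ B₁ * (1 + ‖t‖) := by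
          refine mul_le_mul_of_nonneg_right ?_ (by positivity)
          rw [hB₁]
          have : 0 ≤ 2 * |L.C₀| * (1 + (1 + 2 * A) * (3 + |X₀|)) := by positivity
          linarith
  · -- the bound for the links
    intro k t ht
    have h1 := hD2 k t (hleft k ht)
    obtain ⟨ht1, ht2⟩ := ht
    have ht1' : |t.im - y| < δ := ht1
    have hk0 : (0 : ℝ) ≤ k := Nat.cast_nonneg k
    have hck : ‖c k‖ ≤ 2 * ‖t‖ + |X₀| + 1 := by
      refine (Complex.norm_le_abs_re_add_abs_im _).trans ?_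
      rw [hcre, hcim]
      have hre := Complex.abs_re_le_norm t
      have him := Complex.abs_im_le_norm t
      have h5 : |X₀ - k| ≤ |t.re| + |X₀| := by
        rw [abs_le]
        constructor
        · have := neg_abs_le t.re
          have := abs_nonneg X₀
          linarith
        · have := le_abs_self X₀
          have := abs_nonneg t.re
          linarith
      have h6 : |y| ≤ |t.im| + 1 := by
        have h7 := abs_sub_abs_le_abs_sub y t.im
        rw [abs_sub_comm] at h7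
        linarith
      linarith
    have hck1 : ‖c (k + 1)‖ ≤ ‖c k‖ + 1 := by
      have := norm_sub_norm_le (c (k + 1)) (c k)
      rw [norm_sub_rev, ← dist_eq_norm, hstep] at this
      linarith
    have h3 : ‖h k (c k)‖ ≤ A * (1 + ‖c k‖) := hb k (c k) (mem_closedBall_self (by norm_num))
    have h4 : ‖h (k + 1) (c k)‖ ≤ A * (1 + ‖c (k + 1)‖) := hb (k + 1) (c k) (by rw [mem_closedBall, hstep]; norm_num)
    have h5 : A * (1 + ‖c (k + 1)‖) ≤ A * (2 + ‖c k‖) := mul_le_mul_of_nonneg_left (by linarith) hA.le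
    have h6 : ‖t - c k‖ ≤ ‖t‖ + ‖c k‖ := norm_sub_le _ _
    have ht0 := norm_nonneg t
    have hX := abs_nonneg X₀
    have h7 : 2 + ‖c k‖ ≤ (3 + |X₀|) * (1 + ‖t‖) := by
      have : (3 + |X₀|) * (1 + ‖t‖) = 3 + |X₀| + 3 * ‖t‖ + |X₀| * ‖t‖ := by ring
      rw [this]
      have : 0 ≤ |X₀| * ‖t‖ := by positivity
      linarith
    have h8 : 1 + ‖t - c k‖ + ‖h k (c k)‖ + ‖h (k + 1) (c k)‖ ≤ (1 + (1 + 2 * A) * (3 + |X₀|)) * (1 + ‖t‖) := by
      have h9 : A * (1 + ‖c k‖) ≤ A * (2 + ‖c k‖) := mul_le_mul_of_nonneg_left (by linarith) hA.le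
      have h10 : (1 + 2 * A) * (2 + ‖c k‖) ≤ (1 + 2 * A) * ((3 + |X₀|) * (1 + ‖t‖)) := mul_le_mul_of_nonneg_left h7 (by positivity)
      have h11 : (1 + 2 * A) * (2 + ‖c k‖) = 2 + ‖c k‖ + 2 * (A * (2 + ‖c k‖)) := by ring
      have h12 : (1 + (1 + 2 * A) * (3 + |X₀|)) * (1 + ‖t‖) = 1 + ‖t‖ + (1 + 2 * A) * ((3 + |X₀|) * (1 + ‖t‖)) := by ring
      rw [h12]
      linarith
    rw [pow_one]
    have hC : 0 ≤ 2 * |L.C₀| := by positivity
    calc ‖D k t‖ ≤ 2 * |L.C₀| * ((1 + (1 + 2 * A) * (3 + |X₀|)) * (1 + ‖t‖)) := h1.trans (mul_le_mul_of_nonneg_left h8 hC)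
      _ = (2 * |L.C₀| * (1 + (1 + 2 * A) * (3 + |X₀|))) * (1 + ‖t‖) := by ring
      _ ≤ B₁ * (1 + ‖t‖) := by
          refine mul_le_mul_of_nonneg_right ?_ (by positivity)
          rw [hB₁]
          have : 0 ≤ 3 * |L.C₀| * A := by positivity
          linarith

end Pool.Agent.H87.JZ
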