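import Pool.Agent.H87.JZ.SeamT

/-!
# JZ LeftStrip: the time from `f` to `g` extends to the left, in the variable `z`
-/

set_option autoImplicit false

open Topology Filter Metric Set

namespace Pool.Agent.H87.JZ

open Pool.Agent.EG.RS Pool.Agent.EG.RSQ Pool.Agent.EG.TM
open Pool.Agent.TC (ev grad OnV IsSec nv ev_smul)
open Pool.Agent.H36.BP (EN fs wd)

variable {n : ℕ} {Q : Fin (n + 2) → MvPolynomial (Fin (n + 3)) ℂ} {e : Fin (n + 2) → ℕ}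

/-- the number `(e 0 + e 1) / e 1` -/
noncomputable def kp (e : Fin (n + 2) → ℕ) : ℝ := ((e 0 : ℝ) + e 1) / e 1

theorem kp_ge (pos : ∀ j, 1 ≤ e j) : 1 ≤ kp e := by
  unfold kp
  have h1 : (1 : ℝ) ≤ e 1 := by exact_mod_cast pos 1
  have h0 : (1 : ℝ) ≤ e 0 := by exact_mod_cast pos 0
  rw [le_div_iff₀ (by linarith)]
  linarith

theorem zt_kp (pos : ∀ j, 1 ≤ e j) (z : ℂ) : zt e ((kp e : ℂ) * z) = z := by
  unfold zt kp
  have h1 : (e 1 : ℂ) ≠ 0 := Nat.cast_ne_zero.2 (by have := pos 1; omega)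
  have h2 : (e 0 : ℂ) + (e 1 : ℂ) ≠ 0 := by
    have : e 0 + e 1 ≠ 0 := by have := pos 1; omega
    exact_mod_cast this
  push_cast
  field_simp

theorem kp_zt (pos : ∀ j, 1 ≤ e j) (t : ℂ) : (kp e : ℂ) * zt e t = t := by
  unfold zt kp
  have h1 : (e 1 : ℂ) ≠ 0 := Nat.cast_ne_zero.2 (by have := pos 1; omega)
  have h2 : (e 0 : ℂ) + (e 1 : ℂ) ≠ 0 := by
    have : e 0 + e 1 ≠ 0 := by have := pos 1; omega
    exact_mod_cast this
  push_cast
  field_simp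

theorem differentiable_zt (e : Fin (n + 2) → ℕ) : Differentiable ℂ (zt e) := by
  unfold zt
  fun_prop

theorem differentiable_td (e : Fin (n + 2) → ℕ) : Differentiable ℂ (td e) := by
  unfold td
  fun_prop

theorem xi_eq (e : Fin (n + 2) → ℕ) (f : ℂ → EN (n + 2)) (t : ℂ) : xi e f t = Complex.exp (td e t) • f (zt e t) := rfl

theorem exp_xi (e : Fin (n + 2) → ℕ) (f : ℂ → EN (n + 2)) (t : ℂ) : Complex.exp (-td e t) • xi e f t = f (zt e t) := by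
  rw [xi_eq, smul_smul, ← Complex.exp_add, neg_add_cancel, Complex.exp_zero, one_smul]

theorem td_re (e : Fin (n + 2) → ℕ) (t : ℂ) : (td e t).re = t.re / ((e 0 : ℝ) + e 1) := by
  unfold td
  have h1 : (e 0 : ℂ) + (e 1 : ℂ) = (((e 0 : ℝ) + e 1 : ℝ) : ℂ) := by push_cast; rfl
  rw [h1, Complex.div_ofReal_re]

theorem xi_mem (hom : ∀ j, (Q j).IsHomogeneous (e j)) (pos : ∀ j, 1 ≤ e j) {f : ℂ → EN (n + 2)} {U : Set ℂ} (hf : IsSec Q f U) {t : ℂ} (ht : zt e t ∈ U) :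
    xi e f t ∈ Sf Q ∧ ev (Q 0) (xi e f t) = Complex.exp t := by
  obtain ⟨h0, h1, h2⟩ := hf.2 _ ht
  have hne : (e 0 : ℂ) + (e 1 : ℂ) ≠ 0 := by
    have : e 0 + e 1 ≠ 0 := by have := pos 1; omega
    exact_mod_cast this
  rw [xi_eq]
  refine ⟨⟨fun j hj => ?_, ?_⟩, ?_⟩
  · rw [ev_smul (hom j), h2 j hj, mul_zero]
  · rw [ev_smul (hom 1), h1, ← Complex.exp_nat_mul, ← Complex.exp_add]
    have : (e 1 : ℂ) * td e t + -zt e t = 0 := by
      unfold td zt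
      ring
    rw [this, Complex.exp_zero]
  · rw [ev_smul (hom 0), h0, ← Complex.exp_nat_mul, ← Complex.exp_add]
    congr 1
    unfold td zt
    field_simp

theorem left_strip (L : LeftEnd Q e) (hom : ∀ j, (Q j).IsHomogeneous (e j)) (pos : ∀ j, 1 ≤ e j) (C₀ : ℝ) :
    ∃ a r₁ d : ℝ, a ≤ -1 ∧ 0 < r₁ ∧ 0 < d ∧ d ≤ 1 / 2 ∧ ∀ (K : Set (EN (n + 2))) (R ε₁ C₁ B₀ : ℝ), TimeU (evs Q) (nv Q) K R ε₁ C₁ → (∀ x ∈ K, ‖x‖ ≤ B₀) →
    ∃ ε B : ℝ, 0 < ε ∧ 0 < B ∧ ∀ (f g : ℂ → EN (n + 2)) (U : Set ℂ) (y : ℝ), IsOpen U → IsSec Q f U → IsSec Q g U →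
    (∀ z ∈ U, |z.re| * fs (f z) (deriv f z) ≤ C₀) → (∀ z ∈ U, |z.re| * fs (g z) (deriv g z) ≤ C₀) →
    (∀ z : ℂ, z.re ≤ a + 1 → z.im = y → ball z r₁ ⊆ U) → (∀ z ∈ ball (⟨a, y⟩ : ℂ) 1, z ∈ U ∧ f z ∈ K ∧ ‖g z - f z‖ ≤ ε * ‖f z‖) →
    ∃ J : ℂ → ℂ, DifferentiableOn ℂ J {z | z.re < a + d ∧ |z.im - y| < d} ∧
      (∀ z : ℂ, z.re < a + d → |z.im - y| < d → a - d < z.re → J z = tim (nv Q) R (f z) (g z)) ∧
      ∀ z : ℂ, z.re < a + d → |z.im - y| < d → ‖J z‖ ≤ B * (1 + ‖z‖) ^ 2 * Real.exp (((deg1 e : ℝ) - 1) / e 1 * z.re) := by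
  obtain ⟨r₁, T₁, hr₁, hcell⟩ := L.cell C₀ 4
  have hκ1 := kp_ge pos
  have hκ : 0 < kp e := by linarith
  set κ : ℝ := kp e with hκdef
  obtain ⟨X₀, hX₀1, hX₀2⟩ : ∃ X₀ : ℝ, X₀ ≤ T₁ ∧ X₀ ≤ -κ := ⟨min T₁ (-κ), min_le_left _ _, min_le_right _ _⟩
  obtain ⟨δ, hδ, hδ2, htwo⟩ := two_ext L X₀
  set a : ℝ := X₀ / κ with ha
  have haκ : κ * a = X₀ := by rw [ha]; field_simp
  have hs0 : (0 : ℝ) < (e 0 : ℝ) + e 1 := by
    have h1 : (1 : ℝ) ≤ e 1 := by exact_mod_cast pos 1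
    have h2 : (0 : ℝ) ≤ e 0 := Nat.cast_nonneg _
    linarith
  have hs1 : (1 : ℝ) ≤ (e 0 : ℝ) + e 1 := by
    have h1 : (1 : ℝ) ≤ e 1 := by exact_mod_cast pos 1
    have h2 : (0 : ℝ) ≤ e 0 := Nat.cast_nonneg _
    linarith
  refine ⟨a, r₁, δ / κ, ?_, hr₁, by positivity, ?_, fun K R ε₁ C₁ B₀ hT hB₀ => ?_⟩
  · rw [ha, div_le_iff₀ hκ]
    linarith
  · rw [div_le_iff₀ hκ]
    linarith
  set E : ℝ := Real.exp (|X₀| + 1) with hE
  have hE0 : 0 < E := Real.exp_pos _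
  obtain ⟨δ₀, C', hδ₀, hunif⟩ := L.unif (E * B₀)
  have hR := hT.1
  set ε' : ℝ := min δ₀ (R / (2 * E * (|C'| + 1))) with hε'
  have hε'0 : 0 < ε' := lt_min hδ₀ (by positivity)
  obtain ⟨ε, B, hε, hB, hmain⟩ := htwo ε' hε'0
  refine ⟨ε, B * κ ^ 2, hε, by positivity, fun f g U y hU hf hg hfs hgs hball hcl => ?_⟩
  have hcim : ((κ : ℂ) * (⟨a, y⟩ : ℂ)) = ⟨X₀, κ * y⟩ := by
    apply Complex.ext
    · rw [Complex.re_ofReal_mul]
      exact haκ
    · rw [Complex.im_ofReal_mul]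
  -- the cells
  have hdat : ∀ F : ℂ → EN (n + 2), IsSec Q F U → (∀ z ∈ U, |z.re| * fs (F z) (deriv F z) ≤ C₀) → ∀ t₁ : ℂ, t₁.re ≤ X₀ → t₁.im = κ * y →
      ∃ (i : L.ι) (μ : ℂ) (h : ℂ → ℂ), DatX CenS L (xi e F) i μ h t₁ 4 := by
    intro F hF hFs t₁ h1 h2
    have h3 : (κ : ℂ) * zt e t₁ = t₁ := kp_zt pos t₁
    have hre : (zt e t₁).re ≤ a := by
      have h4 : (t₁).re = κ * (zt e t₁).re := by rw [← Complex.re_ofReal_mul, h3]
      rw [ha, le_div_iff₀ hκ, mul_comm, ← h4]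
      exact h1
    have him : (zt e t₁).im = y := by
      have h4 : (t₁).im = κ * (zt e t₁).im := by rw [← Complex.im_ofReal_mul, h3]
      rw [h2] at h4
      exact (mul_left_cancel₀ hκ.ne' h4).symm
    have hb := hball (zt e t₁) (by linarith) him
    obtain ⟨i, μ, h, h5, h6, h7⟩ := hcell t₁ F (h1.trans hX₀1) ⟨hF.1.mono hb, fun z hz => hF.2 z (hb hz)⟩ fun z hz => hFs z (hb hz)
    exact ⟨i, μ, h, h5, h6, h7⟩
  -- points near the seam
  have hnear : ∀ t ∈ ball (⟨X₀, κ * y⟩ : ℂ) 1, zt e t ∈ ball (⟨a, y⟩ : ℂ) 1 := by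
    intro t ht
    rw [mem_ball, dist_eq_norm] at ht ⊢
    have h1 : (κ : ℂ) * (zt e t - ⟨a, y⟩) = t - ⟨X₀, κ * y⟩ := by rw [mul_sub, kp_zt pos, hcim]
    have h2 : κ * ‖zt e t - ⟨a, y⟩‖ = ‖t - ⟨X₀, κ * y⟩‖ := by
      rw [← h1, norm_mul, Complex.norm_real, Real.norm_of_nonneg hκ.le]
    nlinarith [norm_nonneg (zt e t - ⟨a, y⟩)]
  have hexpn : ∀ t ∈ ball (⟨X₀, κ * y⟩ : ℂ) 1, ‖Complex.exp (td e t)‖ ≤ E ∧ ‖Complex.exp (-td e t)‖ ≤ E := by
    intro t ht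
    have h1 : |(t - ⟨X₀, κ * y⟩ : ℂ).re| ≤ 1 := (Complex.abs_re_le_norm _).trans (by rw [← dist_eq_norm]; exact (mem_ball.1 ht).le)
    rw [Complex.sub_re] at h1
    have h2 : |t.re| ≤ |X₀| + 1 := by
      have h3 : |t.re| ≤ |t.re - X₀| + |X₀| := by
        have := abs_add_le (t.re - X₀) X₀
        rwa [sub_add_cancel] at this
      have h4 : |t.re - X₀| ≤ 1 := h1
      linarith
    have h3 : |(td e t).re| ≤ |X₀| + 1 := by
      rw [td_re, abs_div, abs_of_pos hs0, div_le_iff₀ hs0]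
      nlinarith [abs_nonneg X₀]
    rw [abs_le] at h3
    rw [Complex.norm_exp, Complex.norm_exp, hE, Complex.neg_re]
    exact ⟨Real.exp_le_exp.2 (by linarith), Real.exp_le_exp.2 (by linarith)⟩
  obtain ⟨i, μ, h, h', Φ, hd, hd', hh, hΦ, hΦe, hΦb⟩ := hmain (xi e f) (xi e g) (κ * y) (hdat f hf hfs) (hdat g hg hgs) (by
    intro t ht
    obtain ⟨h1, h2, h3⟩ := hcl _ (hnear t ht)
    obtain ⟨h4, h5⟩ := xi_mem hom pos hg h1
    refine ⟨?_, h4, h5, ?_⟩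
    · have h6 : DifferentiableAt ℂ (fun s => Complex.exp (td e s) • g (zt e s)) t := by
        refine DifferentiableAt.smul ((differentiable_td e).cexp t) ?_
        exact (hg.1.differentiableAt (hU.mem_nhds h1)).comp t (differentiable_zt e t)
      exact h6
    · rw [xi_eq, xi_eq, ← smul_sub, norm_smul, norm_smul]
      calc ‖Complex.exp (td e t)‖ * ‖g (zt e t) - f (zt e t)‖ ≤ ‖Complex.exp (td e t)‖ * (ε * ‖f (zt e t)‖) :=
            mul_le_mul_of_nonneg_left h3 (norm_nonneg _)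
        _ = _ := by ring)
  have hmem : ∀ z : ℂ, z.re < a + δ / κ → |z.im - y| < δ / κ → (κ : ℂ) * z ∈ Strip (⟨X₀, κ * y⟩ : ℂ) δ := by
    intro z h1 h2
    refine ⟨?_, ?_⟩
    · rw [Complex.re_ofReal_mul]
      change κ * z.re < X₀ + δ
      have h3 : κ * z.re < κ * (a + δ / κ) := mul_lt_mul_of_pos_left h1 hκ
      rw [mul_add, haκ, mul_div_cancel₀ _ hκ.ne'] at h3
      exact h3
    · rw [Complex.im_ofReal_mul]
      change |κ * z.im - κ * y| < δ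
      rw [← mul_sub, abs_mul, abs_of_pos hκ]
      rw [lt_div_iff₀ hκ] at h2
      linarith
  refine ⟨fun z => Complex.exp (((deg1 e : ℂ) - 1) * td e ((κ : ℂ) * z)) * Φ ((κ : ℂ) * z), ?_, ?_, ?_⟩
  · have h1 : DifferentiableOn ℂ (fun z : ℂ => Φ ((κ : ℂ) * z)) {z | z.re < a + δ / κ ∧ |z.im - y| < δ / κ} :=
      hΦ.comp (by fun_prop) fun z hz => hmem z hz.1 hz.2
    have h2 : Differentiable ℂ fun z : ℂ => Complex.exp (((deg1 e : ℂ) - 1) * td e ((κ : ℂ) * z)) := by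
      refine Differentiable.cexp ?_
      exact (differentiable_const _).mul ((differentiable_td e).comp (by fun_prop))
    exact h2.differentiableOn.mul h1
  · intro z h1 h2 h3
    set t : ℂ := (κ : ℂ) * z with ht
    have hzt : zt e t = z := zt_kp pos z
    have htS := hmem z h1 h2
    have htre : X₀ - δ < t.re := by
      rw [ht, Complex.re_ofReal_mul]
      have h4 : κ * (a - δ / κ) < κ * z.re := mul_lt_mul_of_pos_left h3 hκ
      rw [mul_sub, haκ, mul_div_cancel₀ _ hκ.ne'] at h4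
      exact h4
    have htb : t ∈ ball (⟨X₀, κ * y⟩ : ℂ) 1 := by
      rw [mem_ball, dist_eq_norm]
      refine lt_of_le_of_lt (Complex.norm_le_abs_re_add_abs_im _) ?_
      rw [Complex.sub_re, Complex.sub_im]
      have h5 : |t.re - X₀| < δ := by
        have h6 : t.re < X₀ + δ := htS.1
        rw [abs_lt]
        constructor <;> linarith
      have h6 : |t.im - κ * y| < δ := htS.2
      change |t.re - X₀| + |t.im - κ * y| < 1
      linarith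
    have htb4 : t ∈ ball (⟨X₀, κ * y⟩ : ℂ) 4 := ball_subset_ball (by norm_num) htb
    obtain ⟨hE1, hE2⟩ := hexpn t htb
    obtain ⟨-, c1, f1, x1⟩ := hd.2.2 t htb4
    obtain ⟨-, c2, f2, x2⟩ := hd'.2.2 t htb
    obtain ⟨hzU, hzK, -⟩ := hcl _ (hnear t htb)
    have hfz : Complex.exp (-td e t) • L.Xi i (L.M.X i μ t (h t)) = f z := by rw [← x1, exp_xi, hzt]
    have hgz : Complex.exp (-td e t) • L.Xi i (L.M.X i μ t (h' t)) = g z := by rw [← x2, exp_xi, hzt]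
    have hXn : ‖L.Xi i (L.M.X i μ t (h t))‖ ≤ E * B₀ := by
      rw [← x1, xi_eq, norm_smul]
      have h5 := hB₀ _ hzK
      exact mul_le_mul hE1 h5 (norm_nonneg _) hE0.le
    have hhn := hh t htb
    simp only
    rw [hΦe t htS htre, ← hfz, ← hgz]
    refine (seam_time L hom pos hT hd.1 (hd.exp_lt htb4) (fun s hs => ?_) (by rw [hfz]; rw [hzt] at hzK; exact hzK)).symm
    have h6 : ‖(h t + s * (h' t - h t)) - h t‖ ≤ ε' := by
      rw [add_sub_cancel_left, norm_mul, Complex.norm_real, Real.norm_of_nonneg hs.1]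
      exact (mul_le_of_le_one_left (norm_nonneg _) hs.2).trans hhn
    obtain ⟨u1, u2, u3⟩ := hunif i μ t (h t) (h t + s * (h' t - h t)) hd.1 (hd.exp_lt htb4) (CenS.cen c1) f1 hXn (h6.trans (min_le_left _ _))
    refine ⟨u1, u2, ?_⟩
    have h7 : ε' ≤ R / (2 * E * (|C'| + 1)) := min_le_right _ _
    have hC' := abs_nonneg C'
    calc ‖Complex.exp (-td e t)‖ * ‖L.Xi i (L.M.X i μ t (h t + s * (h' t - h t))) - L.Xi i (L.M.X i μ t (h t))‖
        ≤ E * (C' * ‖(h t + s * (h' t - h t)) - h t‖) := mul_le_mul hE2 u3 (norm_nonneg _) hE0.le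
      _ ≤ E * ((|C'| + 1) * ε') := by
          refine mul_le_mul_of_nonneg_left ?_ hE0.le
          exact mul_le_mul (by linarith [le_abs_self C']) h6 (norm_nonneg _) (by positivity)
      _ ≤ E * ((|C'| + 1) * (R / (2 * E * (|C'| + 1)))) := by gcongr
      _ = R / 2 := by field_simp
      _ < R := by linarith
  · intro z h1 h2
    have h3 := hΦb _ (hmem z h1 h2)
    have h4 : ‖(κ : ℂ) * z‖ = κ * ‖z‖ := by rw [norm_mul, Complex.norm_real, Real.norm_of_nonneg hκ.le]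
    rw [h4] at h3
    have hz := norm_nonneg z
    have h5 : (1 + κ * ‖z‖) ^ 2 ≤ κ ^ 2 * (1 + ‖z‖) ^ 2 := by
      rw [← mul_pow]
      exact pow_le_pow_left₀ (by positivity) (by nlinarith) 2
    have h6 : ‖Complex.exp (((deg1 e : ℂ) - 1) * td e ((κ : ℂ) * z))‖ = Real.exp (((deg1 e : ℝ) - 1) / e 1 * z.re) := by
      rw [Complex.norm_exp]
      congr 1
      have h7 : ((deg1 e : ℂ) - 1) = (((deg1 e : ℝ) - 1 : ℝ) : ℂ) := by push_cast; rfl
      rw [h7, Complex.re_ofReal_mul, td_re, Complex.re_ofReal_mul, hκdef]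
      unfold kp
      have h8 : (e 1 : ℝ) ≠ 0 := by
        have : (1 : ℝ) ≤ e 1 := by exact_mod_cast pos 1
        linarith
      field_simp
    rw [norm_mul, h6, mul_comm]
    refine mul_le_mul_of_nonneg_right ?_ (Real.exp_pos _).le
    calc ‖Φ ((κ : ℂ) * z)‖ ≤ B * (1 + κ * ‖z‖) ^ 2 := h3
      _ ≤ B * (κ ^ 2 * (1 + ‖z‖) ^ 2) := mul_le_mul_of_nonneg_left h5 hB.le
      _ = _ := by ring

end Pool.Agent.H87.JZ
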