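import Pool.Agent.H87.JZ.LeftExt

/-!
# JZ TwoExt: two close sections: the integral from one to the other extends to the left with quadratic growth
-/

set_option autoImplicit false

open Topology Filter Metric Set

namespace Pool.Agent.H87.JZ

open Pool.Agent.EG.RS Pool.Agent.EG.RSQ Pool.Agent.EG.TM
open Pool.Agent.TC (ev grad OnV IsSec nv)
open Pool.Agent.H36.BP (EN fs wd)

variable {n : ℕ} {Q : Fin (n + 2) → MvPolynomial (Fin (n + 3)) ℂ} {e : Fin (n + 2) → ℕ}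

theorem CenS.cen {p : ℂ × ℂ} (hp : CenS p) : Cen p := ⟨hp.1.trans (by norm_num), hp.2.trans (by norm_num)⟩

theorem two_ext (L : LeftEnd Q e) (X₀ : ℝ) : ∃ δ : ℝ, 0 < δ ∧ δ ≤ 1 / 2 ∧ ∀ ε' : ℝ, 0 < ε' → ∃ ε B : ℝ, 0 < ε ∧ 0 < B ∧
    ∀ (x x' : ℂ → EN (n + 2)) (y : ℝ),
    (∀ t₁ : ℂ, t₁.re ≤ X₀ → t₁.im = y → ∃ (i : L.ι) (μ : ℂ) (h : ℂ → ℂ), DatX CenS L x i μ h t₁ 4) →
    (∀ t₁ : ℂ, t₁.re ≤ X₀ → t₁.im = y → ∃ (i : L.ι) (μ : ℂ) (h : ℂ → ℂ), DatX CenS L x' i μ h t₁ 4) →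
    (∀ t ∈ ball (⟨X₀, y⟩ : ℂ) 1, DifferentiableAt ℂ x' t ∧ x' t ∈ Sf Q ∧ ev (Q 0) (x' t) = Complex.exp t ∧ ‖x' t - x t‖ ≤ ε * ‖x t‖) →
    ∃ (i : L.ι) (μ : ℂ) (h h' : ℂ → ℂ) (Φ : ℂ → ℂ), DatX CenS L x i μ h ⟨X₀, y⟩ 4 ∧ DatX Cen L x' i μ h' ⟨X₀, y⟩ 1 ∧
      (∀ t ∈ ball (⟨X₀, y⟩ : ℂ) 1, ‖h' t - h t‖ ≤ ε') ∧ DifferentiableOn ℂ Φ (Strip ⟨X₀, y⟩ δ) ∧
      (∀ t ∈ Strip ⟨X₀, y⟩ δ, X₀ - δ < t.re → Φ t = L.M.P i μ t (h' t) - L.M.P i μ t (h t)) ∧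
      ∀ t ∈ Strip ⟨X₀, y⟩ δ, ‖Φ t‖ ≤ B * (1 + ‖t‖) ^ 2 := by
  obtain ⟨δ₁, B₁, A, hδ₁, hδ₁1, hB₁, hA, hle⟩ := left_ext L X₀
  obtain ⟨ε₂, hε₂, hlink⟩ := link_dat L
  set δ : ℝ := min (min δ₁ ε₂) (1 / 2) with hδ
  have hδ0 : 0 < δ := lt_min (lt_min hδ₁ hε₂) (by norm_num)
  have hδ1 : δ ≤ δ₁ := (min_le_left _ _).trans (min_le_left _ _)
  have hδ2 : δ ≤ ε₂ := (min_le_left _ _).trans (min_le_right _ _)
  have hδ3 : δ ≤ 1 / 2 := min_le_right _ _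
  refine ⟨δ, hδ0, hδ3, fun ε' hε' => ?_⟩
  obtain ⟨ε, hε, hseam⟩ := L.seam (X₀ - 1) (min ε' 1) (lt_min hε' one_pos)
  refine ⟨ε, 2 * B₁ + 2 * |L.C₀| * ((3 + |X₀|) + 2 * A * (|X₀| + 2)), hε, by positivity, fun x x' y hx hx' hcl => ?_⟩
  obtain ⟨i, μ, h, Φ₁, hd, hb, hΦ1, hΦ1e, hΦ1b⟩ := hle CenS (fun p => CenS.cen) x y hx
  obtain ⟨j, ν, g, Φ₂, hd2, hb2, hΦ2, hΦ2e, hΦ2b⟩ := hle CenS (fun p => CenS.cen) x' y hx'
  set t₀ : ℂ := ⟨X₀, y⟩ with ht₀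
  have ht₀re : t₀.re = X₀ := rfl
  have ht₀im : t₀.im = y := rfl
  have hb14 : ball t₀ 1 ⊆ ball t₀ 4 := ball_subset_ball (by norm_num)
  obtain ⟨h', hh'd, hh'⟩ := hseam i μ (ball t₀ 1) h x' isOpen_ball
    (fun t ht => ⟨by
      have h1 : |(t - t₀).re| < 1 := lt_of_le_of_lt (Complex.abs_re_le_norm _) (by rw [← dist_eq_norm]; exact mem_ball.1 ht)
      rw [Complex.sub_re, ht₀re, abs_lt] at h1
      linarith, hd.exp_lt (hb14 ht)⟩) hd.1 (hd.2.1.mono hb14) (fun t ht => (hcl t ht).1.differentiableWithinAt)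
    (fun t ht => by
      obtain ⟨-, c1, f1, x1⟩ := hd.2.2 t (hb14 ht)
      obtain ⟨-, s1, q1, n1⟩ := hcl t ht
      rw [x1] at n1
      exact ⟨c1, f1, s1, q1, n1⟩)
  have hd' : DatX Cen L x' i μ h' t₀ 1 := by
    refine ⟨hd.1, hh'd, fun t ht => ?_⟩
    obtain ⟨-, c1, f1, x1⟩ := hh' t ht
    exact ⟨(hd.2.2 t (hb14 ht)).1, c1, f1, x1⟩
  have h0 : t₀ ∈ ball t₀ 1 := mem_ball_self one_pos
  have h04 : t₀ ∈ ball t₀ 4 := mem_ball_self (by norm_num)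
  obtain ⟨D, hD1, hD2, hD3⟩ := hlink Cen CenS (fun p hp => hp) (fun p => CenS.cen) x' i j μ ν h' g t₀ t₀ t₀ 1 4 hd' hd2 h0 h04
  have hS1 : Strip t₀ δ ⊆ SS X₀ y δ₁ := fun t ht => by
    refine ⟨?_, ?_⟩
    · have := ht.1
      rw [ht₀re] at this
      linarith
    · have := ht.2
      rw [ht₀im] at this
      linarith
  have hS2 : Strip t₀ δ ⊆ Strip t₀ ε₂ := fun t ht => ⟨by linarith [ht.1], by linarith [ht.2]⟩
  refine ⟨i, μ, h, h', fun t => Φ₂ t + D t - Φ₁ t, hd, hd', fun t ht => (hh' t ht).1.trans (min_le_left _ _),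
    ((hΦ2.mono hS1).add (hD1.mono hS2)).sub (hΦ1.mono hS1), ?_, ?_⟩
  · intro t ht htre
    set V : Set ℂ := {t : ℂ | t.re < X₀ + δ} ∩ ({t : ℂ | X₀ - δ < t.re} ∩ ({t : ℂ | t.im < y + δ} ∩ {t : ℂ | y - δ < t.im})) with hV
    have hVc : Convex ℝ V := (convex_halfSpace_re_lt _).inter ((convex_halfSpace_re_gt _).inter
      ((convex_halfSpace_im_lt _).inter (convex_halfSpace_im_gt _)))
    have hVo : IsOpen V := (isOpen_lt Complex.continuous_re continuous_const).inter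
      ((isOpen_lt continuous_const Complex.continuous_re).inter
        ((isOpen_lt Complex.continuous_im continuous_const).inter (isOpen_lt continuous_const Complex.continuous_im)))
    have hVs : V ⊆ Strip t₀ δ := by
      rintro s ⟨h1, h2, h3, h4⟩
      have h1' : s.re < X₀ + δ := h1
      have h3' : s.im < y + δ := h3
      have h4' : y - δ < s.im := h4
      refine ⟨h1', ?_⟩
      rw [ht₀im, abs_lt]
      constructor <;> linarith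
    have hV1 : V ⊆ ball t₀ 1 := by
      rintro s ⟨h1, h2, h3, h4⟩
      have h1' : s.re < X₀ + δ := h1
      have h2' : X₀ - δ < s.re := h2
      have h3' : s.im < y + δ := h3
      have h4' : y - δ < s.im := h4
      rw [mem_ball, dist_eq_norm]
      refine lt_of_le_of_lt (Complex.norm_le_abs_re_add_abs_im _) ?_
      rw [Complex.sub_re, Complex.sub_im, ht₀re, ht₀im]
      have h5 : |s.re - X₀| < δ := by
        rw [abs_lt]
        constructor <;> linarith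
      have h6 : |s.im - y| < δ := by
        rw [abs_lt]
        constructor <;> linarith
      linarith
    have h0V : t₀ ∈ V := by
      refine ⟨?_, ?_, ?_, ?_⟩
      · change X₀ < X₀ + δ
        linarith
      · change X₀ - δ < X₀
        linarith
      · change y < y + δ
        linarith
      · change y - δ < y
        linarith
    have htV : t ∈ V := by
      obtain ⟨h1, h2⟩ := ht
      rw [ht₀im, abs_lt] at h2
      rw [ht₀re] at h1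
      refine ⟨h1, htre, ?_, ?_⟩
      · change t.im < y + δ
        linarith
      · change y - δ < t.im
        linarith
    have ha : AnalyticOnNhd ℂ (fun t => L.M.P i μ t (h' t) - L.M.P j ν t (g t)) V :=
      DifferentiableOn.analyticOnNhd (((hd'.P_diff fun p hp => hp).mono hV1).sub ((hd2.P_diff fun p => CenS.cen).mono (hV1.trans hb14))) hVo
    have hb' : AnalyticOnNhd ℂ D V := (hD1.mono (hVs.trans hS2)).analyticOnNhd hVo
    have hDt : L.M.P i μ t (h' t) - L.M.P j ν t (g t) = D t :=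
      ha.eqOn_of_preconnected_of_eventuallyEq hb' hVc.isPreconnected h0V hD3 htV
    have htS := hS1 ht
    have h1 : X₀ - 1 < t.re := by linarith
    simp only
    rw [hΦ2e t htS h1, hΦ1e t htS h1, ← hDt]
    ring
  · intro t ht
    have h1 := hΦ1b t (hS1 ht)
    have h2 := hΦ2b t (hS1 ht)
    have h3 := hD2 t (hS2 ht)
    have ht0 := norm_nonneg t
    have hX := abs_nonneg X₀
    have h4 : ‖t₀‖ ≤ |X₀| + 1 + ‖t‖ := by
      refine (Complex.norm_le_abs_re_add_abs_im _).trans ?_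
      rw [ht₀re, ht₀im]
      have h5 : |y| ≤ |t.im| + 1 := by
        have h7 := abs_sub_abs_le_abs_sub y t.im
        have h8 : |t.im - y| < δ := ht.2
        rw [abs_sub_comm] at h7
        linarith
      linarith [Complex.abs_im_le_norm t]
    have h5 : ‖h t₀‖ ≤ A * (1 + ‖t₀‖) := hb t₀ (mem_closedBall_self (by norm_num))
    have h6 : ‖g t₀‖ ≤ A * (1 + ‖t₀‖) := hb2 t₀ (mem_closedBall_self (by norm_num))
    have h7 : ‖h' t₀‖ ≤ A * (1 + ‖t₀‖) + 1 := by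
      have h8 := (hh' t₀ h0).1.trans (min_le_right _ _)
      have h9 := norm_le_norm_sub_add (h' t₀) (h t₀)
      linarith
    have h8 : ‖t - t₀‖ ≤ ‖t‖ + ‖t₀‖ := norm_sub_le _ _
    have h9 : A * (1 + ‖t₀‖) ≤ A * ((|X₀| + 2) * (1 + ‖t‖)) := by
      refine mul_le_mul_of_nonneg_left ?_ hA.le
      have : (|X₀| + 2) * (1 + ‖t‖) = |X₀| + 2 + |X₀| * ‖t‖ + 2 * ‖t‖ := by ring
      rw [this]
      have : 0 ≤ |X₀| * ‖t‖ := by positivity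
      linarith
    have h10 : 1 + ‖t - t₀‖ + ‖h' t₀‖ + ‖g t₀‖ ≤ ((3 + |X₀|) + 2 * A * (|X₀| + 2)) * (1 + ‖t‖) := by
      have e1 : ((3 + |X₀|) + 2 * A * (|X₀| + 2)) * (1 + ‖t‖) = (3 + |X₀|) * (1 + ‖t‖) + 2 * (A * ((|X₀| + 2) * (1 + ‖t‖))) := by ring
      have e2 : (3 + |X₀|) * (1 + ‖t‖) = 3 + |X₀| + 3 * ‖t‖ + |X₀| * ‖t‖ := by ring
      rw [e1, e2]
      have : 0 ≤ |X₀| * ‖t‖ := by positivity
      linarith
    have h11 : ‖D t‖ ≤ 2 * |L.C₀| * (((3 + |X₀|) + 2 * A * (|X₀| + 2)) * (1 + ‖t‖)) := h3.trans (mul_le_mul_of_nonneg_left h10 (by positivity))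
    have h12 : (1 + ‖t‖) ≤ (1 + ‖t‖) ^ 2 := by nlinarith
    have h13 : 2 * |L.C₀| * (((3 + |X₀|) + 2 * A * (|X₀| + 2)) * (1 + ‖t‖)) ≤ 2 * |L.C₀| * ((3 + |X₀|) + 2 * A * (|X₀| + 2)) * (1 + ‖t‖) ^ 2 := by
      rw [← mul_assoc]
      exact mul_le_mul_of_nonneg_left h12 (by positivity)
    calc ‖Φ₂ t + D t - Φ₁ t‖ ≤ ‖Φ₂ t‖ + ‖D t‖ + ‖Φ₁ t‖ := (norm_sub_le _ _).trans (add_le_add (norm_add_le _ _) le_rfl)
      _ ≤ B₁ * (1 + ‖t‖) ^ 2 + 2 * |L.C₀| * ((3 + |X₀|) + 2 * A * (|X₀| + 2)) * (1 + ‖t‖) ^ 2 + B₁ * (1 + ‖t‖) ^ 2 := by linarith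
      _ = _ := by ring

end Pool.Agent.H87.JZ
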