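import Pool.Agent.H87.JZ.TimeQ
import Pool.Agent.H87.JZ.TwoExt

/-!
# JZ SeamT: the time between two points of a cell is the difference of the primitives
-/

set_option autoImplicit false

open Topology Filter Metric Set

namespace Pool.Agent.H87.JZ

open Pool.Agent.EG.RS Pool.Agent.EG.RSQ Pool.Agent.EG.TM
open Pool.Agent.TC (ev grad OnV IsSec nv cross cross_smul grad_smul)
open Pool.Agent.H36.BP (EN fs wd)

variable {n : ℕ} {Q : Fin (n + 2) → MvPolynomial (Fin (n + 3)) ℂ} {e : Fin (n + 2) → ℕ}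

theorem nv_smul' (hom : ∀ j, (Q j).IsHomogeneous (e j)) (pos : ∀ j, 1 ≤ e j) (c : ℂ) (x : EN (n + 2)) :
    nv Q (c • x) = c ^ (∑ j, (e j - 1)) • nv Q x := by
  have h1 : (fun j => grad (Q j) (c • x)) = fun j => c ^ (e j - 1) • grad (Q j) x :=
    funext fun j => grad_smul (pos j) (hom j) c x
  rw [nv, nv, h1, cross_smul, Finset.prod_pow_eq_pow_sum]
  rfl

theorem P_sub (L : LeftEnd Q e) {i : L.ι} {μ t h h' : ℂ} (hμ : L.M.k i * μ ^ L.M.a i = 1) (ht : ‖Complex.exp t‖ < L.M.ρ)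
    (hseg : ∀ s ∈ Icc (0 : ℝ) 1, L.M.X i μ t (h + s * (h' - h)) ∈ ball (0 : ℂ × ℂ) 2) :
    (h' - h) * ∫ s in (0 : ℝ)..1, L.M.phi i μ t (h + s * (h' - h)) = L.M.P i μ t h' - L.M.P i μ t h := by
  have hd : ∀ s ∈ uIcc (0 : ℝ) 1, HasDerivAt (fun s : ℝ => L.M.P i μ t (h + s * (h' - h))) ((h' - h) * L.M.phi i μ t (h + s * (h' - h))) s := by
    intro s hs
    rw [uIcc_of_le zero_le_one] at hs
    have h1 : HasDerivAt (fun s : ℝ => h + s * (h' - h)) (h' - h) s := by
      have := ((Complex.ofRealCLM.hasDerivAt (x := s)).mul_const (h' - h)).const_add h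
      simpa using this
    have h2 := (P_deriv L.M hμ ht (hseg s hs)).scomp s h1
    rw [smul_eq_mul] at h2
    exact h2
  have hc : ContinuousOn (fun s : ℝ => (h' - h) * L.M.phi i μ t (h + s * (h' - h))) (uIcc 0 1) := by
    rw [uIcc_of_le zero_le_one]
    refine continuousOn_const.mul fun s hs => ?_
    have h1 := (phi_an L.M (i := i) (μ := μ) (p := (t, h + s * (h' - h))) (hseg s hs)).continuousAt
    have h2 : ContinuousAt (fun s : ℝ => ((t, h + s * (h' - h)) : ℂ × ℂ)) s := by fun_prop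
    exact (ContinuousAt.comp (f := fun s : ℝ => ((t, h + s * (h' - h)) : ℂ × ℂ)) h1 h2).continuousWithinAt
  have h3 := intervalIntegral.integral_eq_sub_of_hasDerivAt hd hc.intervalIntegrable
  rw [intervalIntegral.integral_const_mul] at h3
  rw [h3]
  simp

/-- the degree `∑ (e j - 1)` -/
def deg1 (e : Fin (n + 2) → ℕ) : ℕ := ∑ j, (e j - 1)

/-- `t / (e 0 + e 1)` -/
noncomputable def td (e : Fin (n + 2) → ℕ) (t : ℂ) : ℂ := t / ((e 0 : ℂ) + (e 1 : ℂ))

theorem seam_time (L : LeftEnd Q e) (hom : ∀ j, (Q j).IsHomogeneous (e j)) (pos : ∀ j, 1 ≤ e j) {K : Set (EN (n + 2))} {R ε C : ℝ}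
    (hT : TimeU (evs Q) (nv Q) K R ε C) {i : L.ι} {μ t h h' : ℂ} (hμ : L.M.k i * μ ^ L.M.a i = 1) (ht : ‖Complex.exp t‖ < L.M.ρ)
    (hseg : ∀ s ∈ Icc (0 : ℝ) 1, L.M.X i μ t (h + s * (h' - h)) ∈ ball (0 : ℂ × ℂ) 2 ∧ L.Fp i (L.M.X i μ t (h + s * (h' - h))) ∧
      ‖Complex.exp (-td e t)‖ * ‖L.Xi i (L.M.X i μ t (h + s * (h' - h))) - L.Xi i (L.M.X i μ t h)‖ < R)
    (hK : Complex.exp (-td e t) • L.Xi i (L.M.X i μ t h) ∈ K) :
    tim (nv Q) R (Complex.exp (-td e t) • L.Xi i (L.M.X i μ t h)) (Complex.exp (-td e t) • L.Xi i (L.M.X i μ t h')) =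
      Complex.exp (((deg1 e : ℂ) - 1) * td e t) * (L.M.P i μ t h' - L.M.P i μ t h) := by
  set ψ : ℂ → EN (n + 2) := fun w => Complex.exp (-td e t) • L.Xi i (L.M.X i μ t w) with hψ
  set G : ℂ → ℂ := fun w => Complex.exp (((deg1 e : ℂ) - 1) * td e t) * L.M.phi i μ t w with hG
  have hFP : FP (nv Q) (ball (ψ h) R) (ψ h) (ψ h') ((h' - h) * ∫ s in (0 : ℝ)..1, G (h + s * (h' - h))) := by
    refine FP_of_curve (fun s hs => ?_) ?_ (fun s hs => ?_)
    · have h1 := (L.der i μ t (h + s * (h' - h)) hμ ht (hseg s hs).1 (hseg s hs).2.1).const_smul (Complex.exp (-td e t))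
      refine h1.congr_deriv ?_
      have h2 : L.Xi i (L.M.X i μ t (h + s * (h' - h))) = Complex.exp (td e t) • ψ (h + s * (h' - h)) := by
        rw [hψ]
        simp only
        rw [smul_smul, ← Complex.exp_add, add_neg_cancel, Complex.exp_zero, one_smul]
      rw [h2, nv_smul' hom pos, smul_smul, smul_smul, hG]
      congr 1
      change Complex.exp (-td e t) * L.M.phi i μ t (h + s * (h' - h)) * Complex.exp (td e t) ^ (deg1 e) = _
      rw [← Complex.exp_nat_mul]
      have h3 : Complex.exp (((deg1 e : ℂ) - 1) * td e t) = Complex.exp (-td e t) * Complex.exp ((deg1 e : ℂ) * td e t) := by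
        rw [← Complex.exp_add]
        congr 1
        ring
      simp only
      rw [h3]
      ring
    · intro s hs
      have h1 := (phi_an L.M (i := i) (μ := μ) (p := (t, h + s * (h' - h))) (hseg s hs).1).continuousAt
      have h2 : ContinuousAt (fun s : ℝ => ((t, h + s * (h' - h)) : ℂ × ℂ)) s := by fun_prop
      exact (continuousAt_const.mul (ContinuousAt.comp (f := fun s : ℝ => ((t, h + s * (h' - h)) : ℂ × ℂ)) h1 h2)).continuousWithinAt
    · rw [mem_ball, dist_eq_norm, hψ]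
      simp only
      rw [← smul_sub, norm_smul]
      exact (hseg s hs).2.2
  have h5 := hT.tim_eq hK hFP
  rw [h5, hG]
  simp only
  rw [intervalIntegral.integral_const_mul, ← P_sub L hμ ht fun s hs => (hseg s hs).1]
  ring

end Pool.Agent.H87.JZ
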