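import Pool.Agent.H87.JZ.LeftStrip

/-!
# JZ Swap: the right end is the left end of the pair with the first two forms exchanged
-/

set_option autoImplicit false

open Topology Filter Metric Set

namespace Pool.Agent.H87.JZ

open Pool.Agent.EG.RS Pool.Agent.EG.RSQ Pool.Agent.EG.TM
open Pool.Agent.TC (ev grad OnV IsSec nv cross HP nv_apply)
open Pool.Agent.H36.BP (EN fs wd fs_smul_right)

variable {n : ℕ} {Q : Fin (n + 2) → MvPolynomial (Fin (n + 3)) ℂ} {e : Fin (n + 2) → ℕ}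

/-- the exchange of the first two indices -/
def sw {α : Type*} (Q : Fin (n + 2) → α) : Fin (n + 2) → α := fun j => Q (Equiv.swap 0 1 j)

theorem sw_zero {α : Type*} (Q : Fin (n + 2) → α) : sw Q 0 = Q 1 := by
  unfold sw
  rw [Equiv.swap_apply_left]

theorem sw_one {α : Type*} (Q : Fin (n + 2) → α) : sw Q 1 = Q 0 := by
  unfold sw
  rw [Equiv.swap_apply_right]

theorem sw_of {α : Type*} (Q : Fin (n + 2) → α) {j : Fin (n + 2)} (hj : 2 ≤ (j : ℕ)) : sw Q j = Q j := by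
  unfold sw
  rw [Equiv.swap_apply_of_ne_of_ne]
  · intro h
    rw [h] at hj
    simp at hj
  · intro h
    rw [h] at hj
    simp at hj

theorem sw_sw {α : Type*} (Q : Fin (n + 2) → α) : sw (sw Q) = Q := by
  funext j
  unfold sw
  rw [Equiv.swap_apply_self]

theorem onV_sw {x : EN (n + 2)} : OnV (sw Q) x ↔ OnV Q x := by
  unfold OnV
  constructor
  · intro h j hj
    have := h j hj
    rwa [sw_of Q hj] at this
  · intro h j hj
    rw [sw_of Q hj]
    exact h j hj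

theorem isSec_sw {f : ℂ → EN (n + 2)} {U : Set ℂ} (hf : IsSec Q f U) : IsSec (sw Q) (fun z => f (-z)) {z | -z ∈ U} := by
  refine ⟨hf.1.comp (by fun_prop) fun z hz => hz, fun z hz => ?_⟩
  obtain ⟨h0, h1, h2⟩ := hf.2 (-z) hz
  refine ⟨?_, ?_, onV_sw.2 h2⟩
  · rw [sw_zero, h1, neg_neg]
  · rw [sw_one, h0]

theorem deg1_sw (e : Fin (n + 2) → ℕ) : deg1 (sw e) = deg1 e := by
  unfold deg1 sw
  exact Equiv.sum_comp (Equiv.swap 0 1) fun j => e j - 1

theorem cross_perm {m : ℕ} (σ : Equiv.Perm (Fin m)) (u : Fin m → Fin (m + 1) → ℂ) (i : Fin (m + 1)) :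
    cross (fun j => u (σ j)) i = ((Equiv.Perm.sign σ : ℤ) : ℂ) * cross u i := by
  unfold cross
  have h := Matrix.det_permute σ (Matrix.of fun a b : Fin m => u a (i.succAbove b))
  have h2 : (Matrix.of fun a b : Fin m => u (σ a) (i.succAbove b)) = (Matrix.of fun a b : Fin m => u a (i.succAbove b)).submatrix σ id := rfl
  rw [h2, h]
  ring

theorem nv_sw (Q : Fin (n + 2) → MvPolynomial (Fin (n + 3)) ℂ) (x : EN (n + 2)) : nv (sw Q) x = -nv Q x := by
  ext i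
  rw [PiLp.neg_apply, nv_apply, nv_apply]
  have h := cross_perm (Equiv.swap 0 1) (fun j => grad (Q j) x) i
  have h2 : (fun j => grad (sw Q j) x) = fun j => grad (Q (Equiv.swap 0 1 j)) x := rfl
  rw [h2, h, Equiv.Perm.sign_swap (by simp)]
  simp

theorem FP.neg {E : Type*} [NormedAddCommGroup E] [NormedSpace ℂ E] {v v' : E → E} (hv : ∀ x, v' x = -v x) {S : Set E} {x y : E} {I : ℂ}
    (h : FP v S x y I) : FP v' S x y (-I) := by
  obtain ⟨γ, m, h0, h1, hm, hγ, hI⟩ := h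
  refine ⟨γ, fun s => -m s, h0, h1, hm.neg, fun s hs => ⟨?_, (hγ s hs).2⟩, ?_⟩
  · rw [hv, smul_neg, neg_smul, neg_neg]
    exact (hγ s hs).1
  · rw [intervalIntegral.integral_neg, hI]

theorem TimeU.neg {E F F' : Type*} [NormedAddCommGroup E] [NormedSpace ℂ E] {q : E → F} {q' : E → F'} {v v' : E → E} {K : Set E} {R ε C : ℝ}
    (h : TimeU q v K R ε C) (hv : ∀ x, v' x = -v x) (hq : ∀ x y, q' x = q' y → q x = q y) : TimeU q' v' K R ε C := by
  obtain ⟨hR, hε, hεR, hC, h1⟩ := h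
  refine ⟨hR, hε, hεR, hC, fun x₀ hx₀ => ?_⟩
  obtain ⟨⟨τ, hτ⟩, h2⟩ := h1 x₀ hx₀
  refine ⟨⟨fun x => -τ x, fun x hx => ⟨(hτ x hx).1.neg, ?_⟩⟩, fun x hx y hy hxy => ?_⟩
  · have h3 : HasFDerivAt (fun x => -τ x) (-fderiv ℂ τ x) x := (hτ x hx).1.hasFDerivAt.fun_neg
    rw [h3.fderiv, hv, ContinuousLinearMap.neg_apply, map_neg, (hτ x hx).2, neg_neg]
  · obtain ⟨I, h4, h5, h6⟩ := h2 x hx y hy (hq x y hxy)
    exact ⟨-I, h4.neg hv, by rw [norm_neg]; exact h5, fun h7 => h6 (neg_eq_zero.1 h7)⟩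

theorem TimeU.tim_neg {E F F' : Type*} [NormedAddCommGroup E] [NormedSpace ℂ E] {q : E → F} {q' : E → F'} {v v' : E → E} {K : Set E} {R ε C : ℝ}
    (h : TimeU q v K R ε C) (hv : ∀ x, v' x = -v x) (hq : ∀ x y, q' x = q' y → q x = q y) {x y : E} (hx : x ∈ K) (hy : ‖y - x‖ < ε) (hxy : q x = q y) :
    tim v' R x y = -tim v R x y := by
  obtain ⟨I, h1, -, -⟩ := (h.2.2.2.2 x hx).2 x (mem_ball_self h.1) y hy hxy
  rw [h.tim_eq hx h1, (h.neg hv hq).tim_eq hx (h1.neg hv)]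

theorem evs_sw {x y : EN (n + 2)} (h : evs (sw Q) x = evs (sw Q) y) : evs Q x = evs Q y := by
  funext j
  have h1 := congrFun h (Equiv.swap 0 1 j)
  unfold evs sw at h1
  rw [Equiv.swap_apply_self] at h1
  exact h1

theorem fs_neg_deriv (f : ℂ → EN (n + 2)) (z : ℂ) : fs (f (-z)) (deriv (fun w => f (-w)) z) = fs (f (-z)) (deriv f (-z)) := by
  have h : -deriv f (-z) = (-1 : ℂ) • deriv f (-z) := (neg_one_smul ℂ _).symm
  rw [deriv_comp_neg, h, fs_smul_right, norm_neg, norm_one, one_mul]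

/-- the extension to the right -/
theorem right_strip (L' : LeftEnd (sw Q) (sw e)) (hom : ∀ j, (Q j).IsHomogeneous (e j)) (pos : ∀ j, 1 ≤ e j) (C₀ : ℝ) :
    ∃ a r₁ d : ℝ, 1 ≤ a ∧ 0 < r₁ ∧ 0 < d ∧ d ≤ 1 / 2 ∧ ∀ (K : Set (EN (n + 2))) (R ε₁ C₁ B₀ : ℝ), TimeU (evs Q) (nv Q) K R ε₁ C₁ → (∀ x ∈ K, ‖x‖ ≤ B₀) →
    ∃ ε B : ℝ, 0 < ε ∧ 0 < B ∧ ∀ (f g : ℂ → EN (n + 2)) (U : Set ℂ) (y : ℝ), IsOpen U → IsSec Q f U → IsSec Q g U →
    (∀ z ∈ U, |z.re| * fs (f z) (deriv f z) ≤ C₀) → (∀ z ∈ U, |z.re| * fs (g z) (deriv g z) ≤ C₀) →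
    (∀ z : ℂ, a - 1 ≤ z.re → z.im = y → ball z r₁ ⊆ U) → (∀ z ∈ ball (⟨a, y⟩ : ℂ) 1, z ∈ U ∧ f z ∈ K ∧ ‖g z - f z‖ ≤ ε * ‖f z‖) →
    ∃ J : ℂ → ℂ, DifferentiableOn ℂ J {z | a - d < z.re ∧ |z.im - y| < d} ∧
      (∀ z : ℂ, a - d < z.re → |z.im - y| < d → z.re < a + d → J z = tim (nv Q) R (f z) (g z)) ∧
      ∀ z : ℂ, a - d < z.re → |z.im - y| < d → ‖J z‖ ≤ B * (1 + ‖z‖) ^ 2 * Real.exp (-(((deg1 e : ℝ) - 1) / e 0 * z.re)) := by
  have hom' : ∀ j, (sw Q j).IsHomogeneous (sw e j) := fun j => hom _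
  have pos' : ∀ j, 1 ≤ sw e j := fun j => pos _
  obtain ⟨a, r₁, d, ha, hr₁, hd, hd2, hmain⟩ := left_strip L' hom' pos' C₀
  refine ⟨-a, r₁, d, by linarith, hr₁, hd, hd2, fun K R ε₁ C₁ B₀ hT hB₀ => ?_⟩
  obtain ⟨ε, B, hε, hB, hm⟩ := hmain K R ε₁ C₁ B₀ (hT.neg (nv_sw Q) fun x y => evs_sw) hB₀
  -- the bound for the distances
  have hB₀' : 0 ≤ |B₀| + 1 := by positivity
  refine ⟨min ε (ε₁ / (2 * (|B₀| + 1))), B, lt_min hε (div_pos hT.2.1 (by positivity)), hB, fun f g U y hU hf hg hfs hgs hball hcl => ?_⟩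
  have hfd : ∀ F : ℂ → EN (n + 2), (∀ z ∈ U, |z.re| * fs (F z) (deriv F z) ≤ C₀) →
      ∀ z ∈ {z : ℂ | -z ∈ U}, |z.re| * fs ((fun z => F (-z)) z) (deriv (fun z => F (-z)) z) ≤ C₀ := by
    intro F hF z hz
    have h1 := hF (-z) hz
    rw [Complex.neg_re, abs_neg] at h1
    simp only
    rw [fs_neg_deriv]
    exact h1
  have hnegball : ∀ (w z : ℂ) (r : ℝ), w ∈ ball z r → -w ∈ ball (-z) r := by
    intro w z r hw
    rw [mem_ball, dist_neg_neg]
    exact hw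
  obtain ⟨J, hJ1, hJ2, hJ3⟩ := hm (fun z => f (-z)) (fun z => g (-z)) {z | -z ∈ U} (-y) (hU.preimage continuous_neg) (isSec_sw hf) (isSec_sw hg)
    (hfd f hfs) (hfd g hgs) (fun z h1 h2 w hw => hball (-z) (by rw [Complex.neg_re]; linarith) (by rw [Complex.neg_im, h2, neg_neg]) (hnegball w z r₁ hw))
    (fun z hz => by
      have h1 : -z ∈ ball (⟨-a, y⟩ : ℂ) 1 := by
        have h2 := hnegball z _ 1 hz
        have h3 : -(⟨a, -y⟩ : ℂ) = ⟨-a, y⟩ := by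
          apply Complex.ext
          · rfl
          · change -(-y) = y
            exact neg_neg y
        rwa [h3] at h2
      obtain ⟨h4, h5, h6⟩ := hcl (-z) h1
      exact ⟨h4, h5, h6.trans (mul_le_mul_of_nonneg_right (min_le_left _ _) (norm_nonneg _))⟩)
  have hmap : ∀ z : ℂ, -a - d < z.re → |z.im - y| < d → (-z).re < a + d ∧ |(-z).im - -y| < d := by
    intro z h1 h2
    refine ⟨by rw [Complex.neg_re]; linarith, ?_⟩
    rw [Complex.neg_im, show -z.im - -y = -(z.im - y) by ring, abs_neg]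
    exact h2
  refine ⟨fun z => -J (-z), ?_, ?_, ?_⟩
  · exact (hJ1.comp (by fun_prop) fun z hz => hmap z hz.1 hz.2).neg
  · intro z h1 h2 h3
    obtain ⟨h4, h5⟩ := hmap z h1 h2
    have h6 := hJ2 (-z) h4 h5 (by rw [Complex.neg_re]; linarith)
    simp only [neg_neg] at h6 ⊢
    rw [h6]
    have hzb : z ∈ ball (⟨-a, y⟩ : ℂ) 1 := by
      rw [mem_ball, dist_eq_norm]
      refine lt_of_le_of_lt (Complex.norm_le_abs_re_add_abs_im _) ?_
      rw [Complex.sub_re, Complex.sub_im]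
      have h7 : |z.re - -a| < d := by
        rw [abs_lt]
        constructor <;> linarith
      change |z.re - -a| + |z.im - y| < 1
      linarith
    obtain ⟨hzU, hzK, hzn⟩ := hcl z hzb
    have hdist : ‖g z - f z‖ < ε₁ := by
      have h8 := hB₀ _ hzK
      have hε₁ := hT.2.1
      have h9 : ‖f z‖ ≤ |B₀| + 1 := by linarith [le_abs_self B₀]
      calc ‖g z - f z‖ ≤ min ε (ε₁ / (2 * (|B₀| + 1))) * ‖f z‖ := hzn
        _ ≤ (ε₁ / (2 * (|B₀| + 1))) * (|B₀| + 1) := mul_le_mul (min_le_right _ _) h9 (norm_nonneg _) (by positivity)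
        _ = ε₁ / 2 := by field_simp
        _ < ε₁ := by linarith
    have heq : evs Q (f z) = evs Q (g z) := by
      obtain ⟨a0, a1, a2⟩ := hf.2 z hzU
      obtain ⟨b0, b1, b2⟩ := hg.2 z hzU
      funext j
      unfold evs
      by_cases hj : 2 ≤ (j : ℕ)
      · rw [a2 j hj, b2 j hj]
      · have : j = 0 ∨ j = 1 := by
          rcases Nat.lt_or_ge (j : ℕ) 1 with h | h
          · left
            apply Fin.ext
            have h0 : ((0 : Fin (n + 2)) : ℕ) = 0 := rfl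
            omega
          · right
            apply Fin.ext
            have h0 : ((1 : Fin (n + 2)) : ℕ) = 1 := rfl
            omega
        rcases this with rfl | rfl
        · rw [a0, b0]
        · rw [a1, b1]
    rw [hT.tim_neg (nv_sw Q) (fun x y => evs_sw) hzK hdist heq, neg_neg]
  · intro z h1 h2
    obtain ⟨h4, h5⟩ := hmap z h1 h2
    have h6 := hJ3 (-z) h4 h5
    simp only
    rw [norm_neg]
    rw [norm_neg, deg1_sw, sw_one, Complex.neg_re, mul_neg] at h6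
    exact h6

end Pool.Agent.H87.JZ
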