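import Mathlib

/-!
# JZ Time: time functions of a vector field which is tangent to the fibres of a map

`v` is a holomorphic vector field on `E`, `q : E → F` a holomorphic map with `D q (v) = 0`, and the curves `q = const` are the integral curves of `v` near
the points where `v ≠ 0`.  A time function is a holomorphic function `τ` with `D τ (v) = 1`.  `FP v S x y I`: there is a path along `v` in `S` from `x` to `y` with time `I`.
-/

set_option autoImplicit false

open Topology Filter Metric Set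

namespace Pool.Agent.H87.JZ

variable {E F : Type*} [NormedAddCommGroup E] [NormedSpace ℂ E] [NormedAddCommGroup F] [NormedSpace ℂ F]

/-- `τ` is a time function of `v` on `S` -/
def IsTime (v : E → E) (τ : E → ℂ) (S : Set E) : Prop := ∀ x ∈ S, DifferentiableAt ℂ τ x ∧ fderiv ℂ τ x (v x) = 1

/-- there is a path along `v` in `S` from `x` to `y` with time `I` -/
def FP (v : E → E) (S : Set E) (x y : E) (I : ℂ) : Prop :=
  ∃ (γ : ℝ → E) (m : ℝ → ℂ), γ 0 = x ∧ γ 1 = y ∧ ContinuousOn m (Icc 0 1) ∧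
    (∀ s ∈ Icc (0 : ℝ) 1, HasDerivWithinAt γ (m s • v (γ s)) (Icc 0 1) s ∧ γ s ∈ S) ∧ ∫ s in (0 : ℝ)..1, m s = I

theorem FP.mono {v : E → E} {S S' : Set E} {x y : E} {I : ℂ} (h : FP v S x y I) (hS : S ⊆ S') : FP v S' x y I := by
  obtain ⟨γ, m, h0, h1, hm, hγ, hI⟩ := h
  exact ⟨γ, m, h0, h1, hm, fun s hs => ⟨(hγ s hs).1, hS (hγ s hs).2⟩, hI⟩

theorem IsTime.mono {v : E → E} {τ : E → ℂ} {S S' : Set E} (h : IsTime v τ S') (hS : S ⊆ S') : IsTime v τ S := fun x hx => h x (hS hx)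

/-- the difference of a time function at the ends of a path is its time -/
theorem IsTime.sub_eq {v : E → E} {τ : E → ℂ} {S : Set E} {x y : E} {I : ℂ} (h : IsTime v τ S) (hp : FP v S x y I) : τ y - τ x = I := by
  obtain ⟨γ, m, h0, h1, hm, hγ, hI⟩ := hp
  have hd : ∀ s ∈ Icc (0 : ℝ) 1, HasDerivWithinAt (fun s => τ (γ s)) (m s) (Icc 0 1) s := by
    intro s hs
    have h2 := ((h _ (hγ s hs).2).1.hasFDerivAt.restrictScalars ℝ).comp_hasDerivWithinAt s (hγ s hs).1
    have h3 : (ContinuousLinearMap.restrictScalars ℝ (fderiv ℂ τ (γ s))) (m s • v (γ s)) = m s := by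
      rw [ContinuousLinearMap.coe_restrictScalars', map_smul, (h _ (hγ s hs).2).2, smul_eq_mul, mul_one]
    rw [h3] at h2
    exact h2
  have h4 := intervalIntegral.integral_eq_sub_of_hasDerivAt_of_le (f := fun s => τ (γ s)) (f' := m) (zero_le_one' ℝ)
    (fun s hs => (hd s hs).continuousWithinAt) (fun s hs => (hd s (Ioo_subset_Icc_self hs)).hasDerivAt (Icc_mem_nhds hs.1 hs.2))
    ((hm.mono (by rw [uIcc_of_le (zero_le_one' ℝ)])).intervalIntegrable)
  rw [← hI, h4, h0, h1]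

/-- the primitive of `Φ` in the second variable -/
noncomputable def Tm (Φ : F × ℂ → ℂ) (u₁ : ℂ) (y : F × ℂ) : ℂ := (y.2 - u₁) * ∫ s in (0 : ℝ)..1, Φ (y.1, u₁ + s * (y.2 - u₁))

omit [NormedSpace ℂ F] in
private theorem Time_mem {y₁ y : F × ℂ} {R : ℝ} (hy : y ∈ ball y₁ R) {s : ℝ} (hs : s ∈ Icc (0 : ℝ) 1) : (y.1, y₁.2 + s * (y.2 - y₁.2)) ∈ ball y₁ R := by
  rw [mem_ball, Prod.dist_eq, max_lt_iff] at hy ⊢
  refine ⟨hy.1, lt_of_le_of_lt ?_ hy.2⟩
  simp only
  rw [dist_eq_norm, dist_eq_norm, add_sub_cancel_left, norm_mul, Complex.norm_real, Real.norm_of_nonneg hs.1]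
  exact mul_le_of_le_one_left (norm_nonneg _) hs.2

theorem Tm_differentiableAt {Φ : F × ℂ → ℂ} {y₁ : F × ℂ} {R M : ℝ} (hΦ : ContDiffOn ℂ 1 Φ (ball y₁ R))
    (hM : ∀ y ∈ ball y₁ R, ‖fderiv ℂ Φ y‖ ≤ M) {y : F × ℂ} (hy : y ∈ ball y₁ R) : DifferentiableAt ℂ (Tm Φ y₁.2) y := by
  have hd : ∀ z ∈ ball y₁ R, HasFDerivAt Φ (fderiv ℂ Φ z) z := fun z hz =>
    ((hΦ.differentiableOn one_ne_zero).differentiableAt (isOpen_ball.mem_nhds hz)).hasFDerivAt
  have hc : ContinuousOn (fderiv ℂ Φ) (ball y₁ R) := hΦ.continuousOn_fderiv_of_isOpen isOpen_ball le_rfl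
  set A : ℝ → (F × ℂ →L[ℂ] F × ℂ) := fun s => (ContinuousLinearMap.fst ℂ F ℂ).prod 0 +
    (s : ℂ) • (0 : F × ℂ →L[ℂ] F).prod (ContinuousLinearMap.snd ℂ F ℂ) with hA
  have hAw : ∀ (s : ℝ) (w : F × ℂ), A s w = (w.1, (s : ℂ) • w.2) := by
    intro s w
    rw [hA]
    apply Prod.ext <;> simp
  have hA1 : ∀ s ∈ Icc (0 : ℝ) 1, ‖A s‖ ≤ 1 := by
    intro s hs
    refine ContinuousLinearMap.opNorm_le_bound _ zero_le_one fun w => ?_
    rw [one_mul]
    rw [hAw, Prod.norm_def, Prod.norm_def]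
    refine max_le_max le_rfl ?_
    rw [norm_smul, Complex.norm_real, Real.norm_of_nonneg hs.1]
    exact mul_le_of_le_one_left (norm_nonneg _) hs.2
  have hAc : Continuous A := by
    rw [hA]
    fun_prop
  have hpc : Continuous fun s : ℝ => ((y.1, y₁.2 + s * (y.2 - y₁.2)) : F × ℂ) := by fun_prop
  have hFc : ContinuousOn (fun s : ℝ => Φ (y.1, y₁.2 + s * (y.2 - y₁.2))) (Icc 0 1) :=
    hΦ.continuousOn.comp hpc.continuousOn fun s hs => Time_mem hy hs
  have h := intervalIntegral.hasFDerivAt_integral_of_dominated_of_fderiv_le (𝕜 := ℂ) (μ := MeasureTheory.volume) (a := (0 : ℝ)) (b := 1)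
    (F := fun (z : F × ℂ) (s : ℝ) => Φ (z.1, y₁.2 + s * (z.2 - y₁.2)))
    (F' := fun (z : F × ℂ) (s : ℝ) => (fderiv ℂ Φ (z.1, y₁.2 + s * (z.2 - y₁.2))).comp (A s))
    (x₀ := y) (s := ball y₁ R) (bound := fun _ => M) (isOpen_ball.mem_nhds hy) ?_ ?_ ?_ ?_ ?_ ?_
  · have h2 : DifferentiableAt ℂ (fun z : F × ℂ => z.2 - y₁.2) y := by fun_prop
    exact h2.mul h.differentiableAt
  · filter_upwards [isOpen_ball.mem_nhds hy] with z hz
    have h3 : ContinuousOn (fun s : ℝ => Φ (z.1, y₁.2 + s * (z.2 - y₁.2))) (Icc 0 1) :=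
      hΦ.continuousOn.comp (by fun_prop) fun s hs => Time_mem hz hs
    rw [uIoc_of_le zero_le_one]
    exact (h3.mono Ioc_subset_Icc_self).aestronglyMeasurable measurableSet_Ioc
  · exact (hFc.mono (by rw [uIcc_of_le (zero_le_one' ℝ)])).intervalIntegrable
  · rw [uIoc_of_le zero_le_one]
    have h3 : ContinuousOn (fun s : ℝ => (fderiv ℂ Φ (y.1, y₁.2 + s * (y.2 - y₁.2))).comp (A s)) (Icc 0 1) :=
      (hc.comp hpc.continuousOn fun s hs => Time_mem hy hs).clm_comp hAc.continuousOn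
    exact (h3.mono Ioc_subset_Icc_self).aestronglyMeasurable measurableSet_Ioc
  · refine Eventually.of_forall fun s hs z hz => ?_
    rw [uIoc_of_le zero_le_one] at hs
    have hs' := Ioc_subset_Icc_self hs
    refine (ContinuousLinearMap.opNorm_comp_le _ _).trans ?_
    have h4 := hM _ (Time_mem hz hs')
    calc _ ≤ M * 1 := mul_le_mul h4 (hA1 s hs') (norm_nonneg _) ((norm_nonneg _).trans h4)
      _ = M := mul_one M
  · exact intervalIntegrable_const
  · refine Eventually.of_forall fun s hs z hz => ?_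
    rw [uIoc_of_le zero_le_one] at hs
    have hs' := Ioc_subset_Icc_self hs
    have h5 : HasFDerivAt (fun z : F × ℂ => ((z.1, y₁.2 + s * (z.2 - y₁.2)) : F × ℂ)) (A s) z := by
      have h6 : HasFDerivAt (fun z : F × ℂ => A s z + (0, y₁.2 - s * y₁.2)) (A s) z := (A s).hasFDerivAt.add_const _
      refine h6.congr_of_eventuallyEq (Eventually.of_forall fun w => ?_)
      change (w.1, y₁.2 + s * (w.2 - y₁.2)) = A s w + (0, y₁.2 - s * y₁.2)
      rw [hAw, Prod.mk_add_mk, add_zero, smul_eq_mul]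
      congr 1
      ring
    exact (hd _ (Time_mem hz hs')).comp z h5

theorem Tm_hasDerivAt {Φ : F × ℂ → ℂ} {y₁ : F × ℂ} {R : ℝ} (hΦ : DifferentiableOn ℂ Φ (ball y₁ R)) {a : F} {u : ℂ} (hy : (a, u) ∈ ball y₁ R) :
    HasDerivAt (fun u => Tm Φ y₁.2 (a, u)) (Φ (a, u)) u := by
  rw [mem_ball, Prod.dist_eq, max_lt_iff] at hy
  have hmem : ∀ w ∈ ball y₁.2 R, (a, w) ∈ ball y₁ R := by
    intro w hw
    rw [mem_ball, Prod.dist_eq, max_lt_iff]
    exact ⟨hy.1, hw⟩
  have hg : DifferentiableOn ℂ (fun w => Φ (a, w)) (ball y₁.2 R) := by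
    intro w hw
    have h1 := hΦ.differentiableAt (isOpen_ball.mem_nhds (hmem w hw))
    exact (h1.comp w (by fun_prop : DifferentiableAt ℂ (fun w : ℂ => (a, w)) w)).differentiableWithinAt
  obtain ⟨G, hG⟩ := hg.isExactOn_ball
  have hu : u ∈ ball y₁.2 R := hy.2
  have key : ∀ w ∈ ball y₁.2 R, Tm Φ y₁.2 (a, w) = G w - G y₁.2 := by
    intro w hw
    have hseg : ∀ s ∈ Icc (0 : ℝ) 1, y₁.2 + s * (w - y₁.2) ∈ ball y₁.2 R := by
      intro s hs
      rw [mem_ball, dist_eq_norm] at hw ⊢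
      refine lt_of_le_of_lt ?_ hw
      rw [add_sub_cancel_left, norm_mul, Complex.norm_real, Real.norm_of_nonneg hs.1]
      exact mul_le_of_le_one_left (norm_nonneg _) hs.2
    have hd : ∀ s ∈ uIcc (0 : ℝ) 1, HasDerivAt (fun s : ℝ => G (y₁.2 + s * (w - y₁.2))) ((w - y₁.2) * Φ (a, y₁.2 + s * (w - y₁.2))) s := by
      intro s hs
      rw [uIcc_of_le zero_le_one] at hs
      have h1 : HasDerivAt (fun s : ℝ => y₁.2 + s * (w - y₁.2)) (w - y₁.2) s := by
        have := ((Complex.ofRealCLM.hasDerivAt (x := s)).mul_const (w - y₁.2)).const_add y₁.2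
        simpa using this
      have h2 := (hG _ (hseg s hs)).scomp s h1
      rw [smul_eq_mul] at h2
      exact h2
    have hc : ContinuousOn (fun s : ℝ => (w - y₁.2) * Φ (a, y₁.2 + s * (w - y₁.2))) (uIcc 0 1) := by
      rw [uIcc_of_le zero_le_one]
      refine continuousOn_const.mul (hΦ.continuousOn.comp (by fun_prop) fun s hs => hmem _ (hseg s hs))
    have h3 := intervalIntegral.integral_eq_sub_of_hasDerivAt hd hc.intervalIntegrable
    rw [intervalIntegral.integral_const_mul] at h3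
    unfold Tm
    simp only
    rw [h3]
    simp
  have h4 : HasDerivAt (fun w => G w - G y₁.2) (Φ (a, u)) u := (hG u hu).sub_const _
  exact h4.congr_of_eventuallyEq (by filter_upwards [isOpen_ball.mem_nhds hu] with w hw; exact key w hw)

end Pool.Agent.H87.JZ
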