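import Pool.Agent.H87.JZ.FlowBox

/-!
# JZ TimeK: the time between close points of a fibre, near a compact set
-/

set_option autoImplicit false

open Topology Filter Metric Set

namespace Pool.Agent.H87.JZ

variable {E F : Type*} [NormedAddCommGroup E] [NormedSpace ℂ E]

/-- uniform local time functions and short paths near the points of `K` -/
def TimeU (q : E → F) (v : E → E) (K : Set E) (R ε C : ℝ) : Prop :=
  0 < R ∧ 0 < ε ∧ ε ≤ R ∧ 0 < C ∧ ∀ x₀ ∈ K, (∃ τ : E → ℂ, IsTime v τ (ball x₀ (3 * R))) ∧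
    ∀ x ∈ ball x₀ R, ∀ y : E, ‖y - x‖ < ε → q x = q y → ∃ I : ℂ, FP v (ball x R) x y I ∧ ‖I‖ ≤ C * ‖y - x‖ ∧ (I = 0 → x = y)

theorem exists_timeU {q : E → F} {v : E → E} {K : Set E} (hK : IsCompact K)
    (hloc : ∀ x₁ ∈ K, ∃ (τ : E → ℂ) (R C : ℝ), 0 < R ∧ 0 < C ∧ IsTime v τ (ball x₁ R) ∧
      ∀ x ∈ ball x₁ R, ∀ y ∈ ball x₁ R, q x = q y → ∃ I : ℂ, FP v (closedBall x (C * ‖y - x‖)) x y I ∧ ‖I‖ ≤ C * ‖y - x‖ ∧ (I = 0 → x = y)) :
    ∃ R ε C : ℝ, TimeU q v K R ε C := by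
  have key : ∃ R C : ℝ, 0 < R ∧ 0 < C ∧ ∀ x₀ ∈ K, (∃ τ : E → ℂ, IsTime v τ (ball x₀ R)) ∧ ∀ x ∈ ball x₀ R, ∀ y ∈ ball x₀ R, q x = q y →
      ∃ I : ℂ, FP v (closedBall x (C * ‖y - x‖)) x y I ∧ ‖I‖ ≤ C * ‖y - x‖ ∧ (I = 0 → x = y) := by
    refine hK.induction_on (p := fun S => ∃ R C : ℝ, 0 < R ∧ 0 < C ∧ ∀ x₀ ∈ S, (∃ τ : E → ℂ, IsTime v τ (ball x₀ R)) ∧
      ∀ x ∈ ball x₀ R, ∀ y ∈ ball x₀ R, q x = q y →
      ∃ I : ℂ, FP v (closedBall x (C * ‖y - x‖)) x y I ∧ ‖I‖ ≤ C * ‖y - x‖ ∧ (I = 0 → x = y)) ?_ ?_ ?_ ?_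
    · exact ⟨1, 1, one_pos, one_pos, fun x hx => absurd hx (Set.notMem_empty x)⟩
    · rintro s t hst ⟨R, C, hR, hC, h⟩
      exact ⟨R, C, hR, hC, fun x hx => h x (hst hx)⟩
    · rintro s t ⟨R, C, hR, hC, h⟩ ⟨R', C', hR', hC', h'⟩
      refine ⟨min R R', max C C', lt_min hR hR', lt_max_of_lt_left hC, ?_⟩
      rintro x₀ (hx₀ | hx₀)
      · obtain ⟨⟨τ, hτ⟩, h1⟩ := h x₀ hx₀
        have hb : ball x₀ (min R R') ⊆ ball x₀ R := ball_subset_ball (min_le_left _ _)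
        refine ⟨⟨τ, hτ.mono hb⟩, fun x hx y hy hxy => ?_⟩
        obtain ⟨I, h2, h3, h4⟩ := h1 x (hb hx) y (hb hy) hxy
        have h5 : C * ‖y - x‖ ≤ max C C' * ‖y - x‖ := mul_le_mul_of_nonneg_right (le_max_left _ _) (norm_nonneg _)
        exact ⟨I, h2.mono (closedBall_subset_closedBall h5), h3.trans h5, h4⟩
      · obtain ⟨⟨τ, hτ⟩, h1⟩ := h' x₀ hx₀
        have hb : ball x₀ (min R R') ⊆ ball x₀ R' := ball_subset_ball (min_le_right _ _)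
        refine ⟨⟨τ, hτ.mono hb⟩, fun x hx y hy hxy => ?_⟩
        obtain ⟨I, h2, h3, h4⟩ := h1 x (hb hx) y (hb hy) hxy
        have h5 : C' * ‖y - x‖ ≤ max C C' * ‖y - x‖ := mul_le_mul_of_nonneg_right (le_max_right _ _) (norm_nonneg _)
        exact ⟨I, h2.mono (closedBall_subset_closedBall h5), h3.trans h5, h4⟩
    · intro x₁ hx₁
      obtain ⟨τ, R, C, hR, hC, hτ, h⟩ := hloc x₁ hx₁
      refine ⟨ball x₁ (R / 2), mem_nhdsWithin_of_mem_nhds (ball_mem_nhds _ (by linarith)), R / 2, C, by linarith, hC, fun x₀ hx₀ => ?_⟩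
      have hb : ball x₀ (R / 2) ⊆ ball x₁ R := by
        refine ball_subset_ball' ?_
        have := mem_ball.1 hx₀
        linarith
      exact ⟨⟨τ, hτ.mono hb⟩, fun x hx y hy hxy => h x (hb hx) y (hb hy) hxy⟩
  obtain ⟨R, C, hR, hC, h⟩ := key
  refine ⟨R / 4, min (R / 4) (R / (8 * C)), C, by linarith, lt_min (by linarith) (by positivity), min_le_left _ _, hC, fun x₀ hx₀ => ?_⟩
  obtain ⟨⟨τ, hτ⟩, h1⟩ := h x₀ hx₀
  refine ⟨⟨τ, hτ.mono (ball_subset_ball (by linarith))⟩, fun x hx y hy hxy => ?_⟩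
  have hx' := mem_ball.1 hx
  have hy1 : ‖y - x‖ < R / 4 := hy.trans_le (min_le_left _ _)
  have hy2 : ‖y - x‖ < R / (8 * C) := hy.trans_le (min_le_right _ _)
  have hxb : x ∈ ball x₀ R := mem_ball.2 (by linarith)
  have hyb : y ∈ ball x₀ R := by
    rw [mem_ball]
    have h2 := dist_triangle y x x₀
    rw [dist_eq_norm y x] at h2
    linarith
  obtain ⟨I, h2, h3, h4⟩ := h1 x hxb y hyb hxy
  refine ⟨I, h2.mono (closedBall_subset_ball ?_), h3, h4⟩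
  rw [lt_div_iff₀ (by positivity)] at hy2
  linarith

open Classical in
/-- the time of a path from `x` to `y` in the ball of radius `R` -/
noncomputable def tim (v : E → E) (R : ℝ) (x y : E) : ℂ := if h : ∃ I, FP v (ball x R) x y I then h.choose else 0

theorem tim_eq {v : E → E} {τ : E → ℂ} {R : ℝ} {x y : E} {I : ℂ} (hτ : IsTime v τ (ball x R)) (h : FP v (ball x R) x y I) : tim v R x y = I := by
  have hex : ∃ I, FP v (ball x R) x y I := ⟨I, h⟩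
  unfold tim
  rw [dif_pos hex, ← hτ.sub_eq hex.choose_spec, ← hτ.sub_eq h]

variable {q : E → F} {v : E → E} {K : Set E} {R ε C : ℝ}

theorem TimeU.tim_eq (h : TimeU q v K R ε C) {x y : E} (hx : x ∈ K) {I : ℂ} (hp : FP v (ball x R) x y I) : tim v R x y = I := by
  obtain ⟨τ, hτ⟩ := (h.2.2.2.2 x hx).1
  exact Pool.Agent.H87.JZ.tim_eq (hτ.mono (ball_subset_ball (by linarith [h.1]))) hp

theorem TimeU.norm_le (h : TimeU q v K R ε C) {x y : E} (hx : x ∈ K) (hy : ‖y - x‖ < ε) (hxy : q x = q y) : ‖tim v R x y‖ ≤ C * ‖y - x‖ := by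
  obtain ⟨I, h1, h2, -⟩ := (h.2.2.2.2 x hx).2 x (mem_ball_self h.1) y hy hxy
  rw [h.tim_eq hx h1]
  exact h2

theorem TimeU.eq_of_zero (h : TimeU q v K R ε C) {x y : E} (hx : x ∈ K) (hy : ‖y - x‖ < ε) (hxy : q x = q y) (h0 : tim v R x y = 0) : x = y := by
  obtain ⟨I, h1, -, h3⟩ := (h.2.2.2.2 x hx).2 x (mem_ball_self h.1) y hy hxy
  rw [h.tim_eq hx h1] at h0
  exact h3 h0

theorem TimeU.differentiableAt (h : TimeU q v K R ε C) {f g : ℂ → E} {z₁ : ℂ} (hf : DifferentiableAt ℂ f z₁) (hg : DifferentiableAt ℂ g z₁)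
    (hx : f z₁ ∈ K) (hy : ‖g z₁ - f z₁‖ < ε) (hfg : ∀ᶠ z in 𝓝 z₁, q (f z) = q (g z)) :
    DifferentiableAt ℂ (fun z => tim v R (f z) (g z)) z₁ := by
  obtain ⟨τ, hτ⟩ := (h.2.2.2.2 _ hx).1
  have hR := h.1
  have e1 : ∀ᶠ z in 𝓝 z₁, f z ∈ ball (f z₁) R := hf.continuousAt.eventually (ball_mem_nhds _ hR)
  have e2 : ∀ᶠ z in 𝓝 z₁, ‖g z - f z‖ < ε := (hg.continuousAt.sub hf.continuousAt).norm.eventually (gt_mem_nhds hy)
  have key : (fun z => tim v R (f z) (g z)) =ᶠ[𝓝 z₁] fun z => τ (g z) - τ (f z) := by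
    filter_upwards [e1, e2, hfg] with z h1 h2 h3
    obtain ⟨I, h4, -, -⟩ := (h.2.2.2.2 _ hx).2 _ h1 _ h2 h3
    have h5 : IsTime v τ (ball (f z) R) := hτ.mono (ball_subset_ball' (by have := mem_ball.1 h1; linarith))
    rw [Pool.Agent.H87.JZ.tim_eq h5 h4, h5.sub_eq h4]
  have hg1 : g z₁ ∈ ball (f z₁) (3 * R) := by
    rw [mem_ball, dist_eq_norm]
    have := h.2.2.1
    linarith
  have hf1 : f z₁ ∈ ball (f z₁) (3 * R) := mem_ball_self (by linarith)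
  exact (((hτ _ hg1).1.comp z₁ hg).sub ((hτ _ hf1).1.comp z₁ hf)).congr_of_eventuallyEq key

/-- a path from a holomorphic curve along `v` -/
theorem FP_of_curve {S : Set E} {ψ : ℂ → E} {G : ℂ → ℂ} {a b : ℂ}
    (hd : ∀ s ∈ Icc (0 : ℝ) 1, HasDerivAt ψ (G (a + s * (b - a)) • v (ψ (a + s * (b - a)))) (a + s * (b - a)))
    (hG : ContinuousOn (fun s : ℝ => G (a + s * (b - a))) (Icc 0 1)) (hS : ∀ s ∈ Icc (0 : ℝ) 1, ψ (a + s * (b - a)) ∈ S) :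
    FP v S (ψ a) (ψ b) ((b - a) * ∫ s in (0 : ℝ)..1, G (a + s * (b - a))) := by
  refine ⟨fun s => ψ (a + s * (b - a)), fun s => (b - a) * G (a + s * (b - a)), ?_, ?_, continuousOn_const.mul hG, ?_, ?_⟩
  · simp
  · simp
  · intro s hs
    refine ⟨?_, hS s hs⟩
    have h1 : HasDerivAt (fun s : ℝ => a + s * (b - a)) (b - a) s := by
      have := ((Complex.ofRealCLM.hasDerivAt (x := s)).mul_const (b - a)).const_add a
      simpa using this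
    have h2 := (hd s hs).scomp s h1
    rw [smul_smul] at h2
    exact h2.hasDerivWithinAt
  · rw [intervalIntegral.integral_const_mul]

end Pool.Agent.H87.JZ
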