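import Pool.Agent.H87.JZ.TimeK
import Pool.Agent.TC.Cmp

/-!
# JZ TimeQ: the time functions of the normal vector field of `n + 2` forms in `n + 3` variables
-/

set_option autoImplicit false

open Topology Filter Metric Set

namespace Pool.Agent.H87.JZ

open Pool.Agent.H36.BP (EN)
open Pool.Agent.TC

variable {n : ℕ}

/-- the values of the forms -/
noncomputable def evs (Q : Fin (n + 2) → MvPolynomial (Fin (n + 3)) ℂ) (x : EN (n + 2)) : Fin (n + 2) → ℂ := fun j => ev (Q j) x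

theorem contDiff_ev {N : ℕ} (P : MvPolynomial (Fin (N + 1)) ℂ) : ContDiff ℂ 2 (ev P) := by
  rw [contDiff_iff_contDiffAt]
  intro x
  exact (analyticAt_ev P (F := fun y : EN N => y) analyticAt_id).contDiffAt

theorem contDiff_evs (Q : Fin (n + 2) → MvPolynomial (Fin (n + 3)) ℂ) : ContDiff ℂ 2 (evs Q) :=
  contDiff_pi.2 fun j => contDiff_ev (Q j)

theorem contDiff_nv (Q : Fin (n + 2) → MvPolynomial (Fin (n + 3)) ℂ) : ContDiff ℂ 2 (nv Q) := by
  rw [contDiff_iff_contDiffAt]
  intro x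
  have h : AnalyticAt ℂ (fun y : EN (n + 2) => (WithLp.toLp 2 (cross fun j => grad (Q j) y) : EN (n + 2))) x :=
    analyticAt_toLp fun i => analyticAt_cross (U := fun (y : EN (n + 2)) j => grad (Q j) y) (fun j k => analyticAt_grad (Q j) analyticAt_id k) i
  exact h.contDiffAt

theorem fderiv_ev {N : ℕ} (P : MvPolynomial (Fin (N + 1)) ℂ) (x w : EN N) : fderiv ℂ (ev P) x w = dt (fun i => w i) (grad P x) := by
  have h1 : HasDerivAt (fun t : ℂ => x + t • w) w 0 := by
    have := ((hasDerivAt_id (0 : ℂ)).smul_const w).const_add x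
    simpa using this
  have h2 := hasDerivAt_ev P h1
  have h3 : HasFDerivAt (ev P) (fderiv ℂ (ev P) x) (x + (0 : ℂ) • w) := by
    rw [zero_smul, add_zero]
    exact ((contDiff_ev P).differentiable two_ne_zero x).hasFDerivAt
  have h4 := h3.comp_hasDerivAt 0 h1
  have h5 := h4.unique h2
  rw [h5, zero_smul, add_zero]

theorem fderiv_evs (Q : Fin (n + 2) → MvPolynomial (Fin (n + 3)) ℂ) (x w : EN (n + 2)) (j : Fin (n + 2)) :
    fderiv ℂ (evs Q) x w j = dt (fun i => w i) (grad (Q j) x) := by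
  have h1 : HasFDerivAt (evs Q) (ContinuousLinearMap.pi fun j => fderiv ℂ (ev (Q j)) x) x :=
    hasFDerivAt_pi.2 fun j => ((contDiff_ev (Q j)).differentiable two_ne_zero x).hasFDerivAt
  rw [h1.fderiv, ContinuousLinearMap.pi_apply, fderiv_ev]

theorem fderiv_evs_nv (Q : Fin (n + 2) → MvPolynomial (Fin (n + 3)) ℂ) (x : EN (n + 2)) : fderiv ℂ (evs Q) x (nv Q x) = 0 := by
  funext j
  rw [fderiv_evs, dt_comm]
  exact dt_cross_self (fun j => grad (Q j) x) j

theorem exists_timeQ (Q : Fin (n + 2) → MvPolynomial (Fin (n + 3)) ℂ) {K : Set (EN (n + 2))} (hK : IsCompact K) (hnv : ∀ x ∈ K, nv Q x ≠ 0) :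
    ∃ R ε C : ℝ, TimeU (evs Q) (nv Q) K R ε C := by
  refine exists_timeU hK fun x₁ hx₁ => ?_
  set ℓ : EN (n + 2) →L[ℂ] ℂ := innerSL ℂ (nv Q x₁) with hℓ
  set L : EN (n + 2) →L[ℂ] (Fin (n + 2) → ℂ) × ℂ := (fderiv ℂ (evs Q) x₁).prod ℓ with hL
  have hinj : Function.Injective L := by
    rw [injective_iff_map_eq_zero]
    intro w hw
    have h1 : fderiv ℂ (evs Q) x₁ w = 0 := congrArg Prod.fst hw
    have h2 : ℓ w = 0 := congrArg Prod.snd hw
    have h3 : ∀ j, dt (grad (Q j) x₁) (fun i => w i) = 0 := by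
      intro j
      rw [dt_comm, ← fderiv_evs, h1]
      rfl
    have h4 : cross (fun j => grad (Q j) x₁) ≠ 0 := by
      intro h0
      apply hnv x₁ hx₁
      ext i
      rw [nv_apply, h0]
      rfl
    obtain ⟨c, hc⟩ := exists_smul_cross h3 h4
    have h5 : w = c • nv Q x₁ := by
      ext i
      exact congrFun hc i
    rw [h5, map_smul, hℓ, innerSL_apply_apply, inner_self_eq_norm_sq_to_K, smul_eq_mul, mul_eq_zero] at h2
    rcases h2 with h2 | h2
    · rw [h5, h2, zero_smul]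
    · exfalso
      have h6 : ‖nv Q x₁‖ = 0 := by
        have := pow_eq_zero_iff (two_ne_zero) |>.1 h2
        exact RCLike.ofReal_eq_zero.1 this
      exact hnv x₁ hx₁ (norm_eq_zero.1 h6)
  have hdim : Module.finrank ℂ (EN (n + 2)) = Module.finrank ℂ ((Fin (n + 2) → ℂ) × ℂ) := by
    rw [Module.finrank_prod, Module.finrank_fin_fun, Module.finrank_self]
    simp [EN]
  let e : EN (n + 2) ≃L[ℂ] (Fin (n + 2) → ℂ) × ℂ := (LinearMap.linearEquivOfInjective L.toLinearMap hinj hdim).toContinuousLinearEquiv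
  exact flow_box (contDiff_evs Q) (contDiff_nv Q) (fderiv_evs_nv Q) ℓ e (fun w => rfl) (hnv x₁ hx₁)

end Pool.Agent.H87.JZ
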